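import Pool.Agent.LefProd.Kern

/-!
The gluing argument for a reducible quadric when the kernel modulo one factor is at most
two-dimensional: the kernel line is isotropic, hence constant.
-/

set_option autoImplicit false
set_option linter.unusedSectionVars false

namespace Pool.Agent.LefProd

open MvPolynomial Polynomial

universe u

variable {F : Type u} [Field F] {n : ℕ}

/-- linear dependence modulo `I` -/
def Dep (I : Ideal (MvPolynomial (Fin n) F)) (p q : MvPolynomial (Fin n) F) : Prop :=
  ∃ x y : F, (x ≠ 0 ∨ y ≠ 0) ∧ MvPolynomial.C x * p + MvPolynomial.C y * q ∈ I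

lemma mem_of_C_mul {I : Ideal (MvPolynomial (Fin n) F)} {x : F} (hx : x ≠ 0)
    {q : MvPolynomial (Fin n) F} (hq : MvPolynomial.C x * q ∈ I) : q ∈ I := by
  have := Ideal.mul_mem_left I (MvPolynomial.C x⁻¹) hq
  rwa [← mul_assoc, ← map_mul, inv_mul_cancel₀ hx, map_one, one_mul] at this

lemma Dep.left {I : Ideal (MvPolynomial (Fin n) F)} {p q : MvPolynomial (Fin n) F} (hp : p ∈ I) :
    Dep I p q := ⟨1, 0, Or.inl one_ne_zero, by simpa using hp⟩

/-- multiples of one element are dependent -/
lemma Dep.of_mul {I : Ideal (MvPolynomial (Fin n) F)} {p q r : MvPolynomial (Fin n) F} {c d : F}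
    (hp : p - MvPolynomial.C c * r ∈ I) (hq : q - MvPolynomial.C d * r ∈ I) : Dep I p q := by
  by_cases h0 : c = 0 ∧ d = 0
  · rw [h0.1, map_zero, zero_mul, sub_zero] at hp
    exact Dep.left hp
  · refine ⟨d, -c, ?_, ?_⟩
    · rw [not_and_or] at h0
      rcases h0 with h | h
      · right; simpa using h
      · left; exact h
    · have := sub_mem (Ideal.mul_mem_left _ (MvPolynomial.C d) hp)
        (Ideal.mul_mem_left _ (MvPolynomial.C c) hq)
      convert this using 1
      rw [map_neg]
      ring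

lemma Dep.mul_of {I : Ideal (MvPolynomial (Fin n) F)} {p q : MvPolynomial (Fin n) F}
    (h : Dep I p q) (hq : q ∉ I) : ∃ c : F, p - MvPolynomial.C c * q ∈ I := by
  obtain ⟨x, y, hxy, hmem⟩ := h
  have hx : x ≠ 0 := by
    rintro rfl
    rw [map_zero, zero_mul, zero_add] at hmem
    exact hq (mem_of_C_mul (hxy.resolve_left (by simp)) hmem)
  refine ⟨-(y / x), mem_of_C_mul hx ?_⟩
  convert hmem using 1
  have : (MvPolynomial.C y : MvPolynomial (Fin n) F)
      = MvPolynomial.C x * MvPolynomial.C (y / x) := by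
    rw [← map_mul, mul_div_cancel₀ _ hx]
  rw [this, map_neg]
  ring

/-- first order deformation of a kernel element -/
lemma iso_point [CharZero F] {I I'' : Ideal (MvPolynomial (Fin n) F)} {μ w : Fin n → F}
    {m j : ℕ} (hm : 1 ≤ m) (hcol : ∀ q, lin w * q ∈ I ↔ q ∈ I'') (hn : ¬ PLI I μ w m j) :
    ∃ b0 : MvPolynomial (Fin n) F, b0.IsHomogeneous j ∧ b0 ∉ I ∧ lin μ ^ m * b0 ∈ I ∧
      lin μ ^ (m - 1) * (b0 * b0) ∈ I'' := by
  have main : ∀ (N : ℕ) (b : (MvPolynomial (Fin n) F)[X]), b.natDegree ≤ N → HP b j →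
      (mus μ w) ^ m * b ∈ PI I → b ∉ PI I →
      ∃ b' : (MvPolynomial (Fin n) F)[X], HP b' j ∧ (mus μ w) ^ m * b' ∈ PI I ∧
        b'.coeff 0 ∉ I := by
    intro N
    induction N with
    | zero =>
      intro b hN hb hk hbI
      refine ⟨b, hb, hk, fun h0 => hbI ?_⟩
      rw [mem_PI]
      intro i
      rcases Nat.eq_zero_or_pos i with hi | hi
      · rw [hi]; exact h0
      · rw [Polynomial.coeff_eq_zero_of_natDegree_lt (by omega)]
        exact zero_mem _
    | succ N ih =>
      intro b hN hb hk hbI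
      by_cases h0 : b.coeff 0 ∈ I
      · have hdecomp := Polynomial.divX_mul_X_add b
        have hC : Polynomial.C (b.coeff 0) ∈ PI I := Ideal.mem_map_of_mem _ h0
        apply ih b.divX
        · rw [Polynomial.natDegree_divX_eq_natDegree_tsub_one]; omega
        · intro i
          rw [Polynomial.coeff_divX]
          exact hb _
        · have h1 : (mus μ w) ^ m * b.divX * Polynomial.X ∈ PI I := by
            have := sub_mem hk (Ideal.mul_mem_left _ ((mus μ w) ^ m) hC)
            convert this using 1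
            conv_rhs => rw [← mul_sub]
            rw [mul_assoc]
            congr 1
            conv_rhs => rw [← hdecomp]
            simp
          rw [mem_PI] at h1 ⊢
          intro i
          have := h1 (i + 1)
          rwa [Polynomial.coeff_mul_X] at this
        · intro hdiv
          apply hbI
          rw [← hdecomp]
          exact add_mem (Ideal.mul_mem_right _ _ hdiv) hC
      · exact ⟨b, hb, hk, h0⟩
  rw [PLI] at hn
  push Not at hn
  obtain ⟨b, hb, hk, hbI⟩ := hn
  obtain ⟨b', hb', hk', h0⟩ := main _ b le_rfl hb hk hbI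
  have hk0 : lin μ ^ m * b'.coeff 0 ∈ I := by
    have := mem_PI.1 hk' 0
    rwa [Polynomial.mul_coeff_zero, coeff_zero_mus_pow] at this
  refine ⟨b'.coeff 0, hb' 0, h0, hk0, ?_⟩
  have hd := mem_PI.1 (derivative_mem hk') 0
  rw [Polynomial.derivative_mul, Polynomial.derivative_pow, derivative_mus, Polynomial.coeff_add,
    Polynomial.mul_coeff_zero, Polynomial.mul_coeff_zero, Polynomial.mul_coeff_zero,
    Polynomial.mul_coeff_zero, coeff_zero_mus_pow, coeff_zero_mus_pow,
    Polynomial.coeff_C_zero, Polynomial.coeff_C_zero] at hd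
  rw [← hcol]
  have h1 := Ideal.mul_mem_left _ (b'.coeff 0) hd
  have h2 := Ideal.mul_mem_left _ (Polynomial.coeff (Polynomial.derivative b') 0) hk0
  have h3 := sub_mem h1 h2
  have hm0 : ((m : F)) ≠ 0 := Nat.cast_ne_zero.2 (by omega)
  apply mem_of_C_mul hm0
  convert h3 using 1
  simp only [map_natCast]
  ring

lemma cop_add {I : Ideal (MvPolynomial (Fin n) F)} {j : ℕ} (a b : (MvPolynomial (Fin n) F)[X]) :
    cop I j (a + b) = cop I j a + cop I j b := by
  funext i
  ext k
  rw [Pi.add_apply, Polynomial.coeff_add, coeff_cop, coeff_cop, coeff_cop, Polynomial.coeff_add]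
  simp [co]

lemma cop_cR_mul {I : Ideal (MvPolynomial (Fin n) F)} {j : ℕ} (f : F[X])
    (a : (MvPolynomial (Fin n) F)[X]) : cop I j (cR f * a) = f • cop I j a := by
  funext i
  ext k
  rw [Pi.smul_apply, smul_eq_mul, coeff_cop, Polynomial.coeff_mul, Polynomial.coeff_mul, co,
    map_sum]
  refine Finset.sum_congr rfl fun x _ => ?_
  rw [cR, Polynomial.coeff_map, ← MvPolynomial.smul_eq_C_mul, map_smul, smul_eq_mul, coeff_cop]
  rfl

lemma KDm_of_dep {I : Ideal (MvPolynomial (Fin n) F)} {ν v : Fin n → F} {m j : ℕ}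
    (h : ∀ a b : (MvPolynomial (Fin n) F)[X], HP a j → HP b j → (mus ν v) ^ m * a ∈ PI I →
      (mus ν v) ^ m * b ∈ PI I → ∃ f g : F[X], (f ≠ 0 ∨ g ≠ 0) ∧ cR f * a + cR g * b ∈ PI I) :
    KDm (Pw I (cv ν v) j m) := by
  intro x y hx hy
  have hk : ∀ z : ix I j → F[X], Matrix.mulVec (Pw I (cv ν v) j m) z = 0 →
      (mus ν v) ^ m * elp I j z ∈ PI I := by
    intro z hz
    rw [← cop_eq_zero_iff (j := j + m), cop_mus_pow ν v m (elp_HP j z), cop_elp, hz]
    have := ((HP.mus ν v).pow m).mul (elp_HP (I := I) j z)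
    rwa [one_mul, add_comm] at this
  obtain ⟨f, g, hfg, hmem⟩ := h _ _ (elp_HP j x) (elp_HP j y) (hk x hx) (hk y hy)
  refine ⟨f, g, hfg, ?_⟩
  have hHP : HP (cR f * elp I j x + cR g * elp I j y) j := by
    refine HP.add ?_ ?_
    · simpa using (HP.cR f).mul (elp_HP (I := I) j x)
    · simpa using (HP.cR g).mul (elp_HP (I := I) j y)
  rwa [← cop_eq_zero_iff hHP, cop_add, cop_cR_mul, cop_cR_mul, cop_elp, cop_elp] at hmem

lemma finite_bad_KDm' {κ ι : Type*} [Fintype κ] [Fintype ι] [DecidableEq κ] [DecidableEq ι]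
    {A : Matrix κ ι F[X]} (h : KDm A) :
    {s : F | ¬ KDm (A.map (Polynomial.aeval s : F[X] →ₐ[F] F))}.Finite := by
  classical
  by_cases hI : Inj A
  · refine Set.Finite.subset (finite_bad_of_inj hI) ?_
    intro s hs hs'
    exact hs (KDm.of_inj hs')
  · have hex : ∃ i0, Inj (Aug A i0) := by
      rw [Inj] at hI
      push Not at hI
      obtain ⟨y, hy, hy0⟩ := hI
      obtain ⟨i0, hi0⟩ := Function.ne_iff.1 hy0
      refine ⟨i0, fun x hx => ?_⟩
      rw [Aug_mulVec] at hx
      obtain ⟨a, b, hab, h1⟩ := h x y hx.1 hy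
      have h2 := congrFun h1 i0
      simp only [Pi.add_apply, Pi.smul_apply, hx.2, mul_zero, zero_add, Pi.zero_apply,
        smul_eq_mul] at h2
      have hb : b = 0 := (mul_eq_zero.1 h2).resolve_right hi0
      rw [hb, zero_smul, add_zero] at h1
      have ha : a ≠ 0 := hab.resolve_right (by simp [hb])
      exact (smul_eq_zero.1 h1).resolve_left ha
    obtain ⟨i0, hi0⟩ := hex
    refine Set.Finite.subset (finite_bad_of_inj hi0) ?_
    intro s hs hs'
    apply hs
    apply KDm_of_aug (i0 := i0)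
    have := Aug_map ((Polynomial.aeval s : F[X] →ₐ[F] F) : F[X] →+* F) A i0
    simp only [RingHom.coe_coe] at this
    rw [this] at hs'
    exact hs'

lemma mem_PI_of_eval {I : Ideal (MvPolynomial (Fin n) F)} {θ : (MvPolynomial (Fin n) F)[X]}
    {S : Set F} (hS : S.Infinite) (h : ∀ s ∈ S, θ.eval (MvPolynomial.C s) ∈ I) : θ ∈ PI I := by
  rw [mem_PI]
  intro k
  by_contra hk
  have hk' : θ.coeff k ∉ I.restrictScalars F := hk
  obtain ⟨ψ, hψ0, hψ⟩ := Submodule.exists_dual_map_eq_bot_of_notMem (R := F) hk' inferInstance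
  have hψI : ∀ x ∈ I, ψ x = 0 := by
    intro x hx
    have : ψ x ∈ Submodule.map ψ (I.restrictScalars F) := ⟨x, hx, rfl⟩
    rw [hψ] at this
    simpa using this
  let P : F[X] := ∑ i ∈ θ.support, Polynomial.monomial i (ψ (θ.coeff i))
  have hP : ∀ s ∈ S, P.eval s = 0 := by
    intro s hs
    have h1 := hψI _ (h s hs)
    rw [Polynomial.eval_eq_sum, Polynomial.sum, map_sum] at h1
    rw [Polynomial.eval_finsetSum, ← h1]
    refine Finset.sum_congr rfl fun i _ => ?_
    rw [Polynomial.eval_monomial, ← map_pow, mul_comm (θ.coeff i), ← MvPolynomial.smul_eq_C_mul,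
      map_smul, smul_eq_mul, mul_comm]
  have hP0 : P = 0 := Polynomial.eq_zero_of_infinite_isRoot P
    (hS.mono fun s hs => hP s hs)
  apply hψ0
  have h2 := congrArg (fun q : F[X] => q.coeff k) hP0
  simp only [P, Polynomial.finsetSum_coeff, Polynomial.coeff_monomial, Finset.sum_ite_eq',
    Polynomial.coeff_zero] at h2
  split_ifs at h2 with h3
  · exact h2
  · rw [Polynomial.notMem_support_iff.1 h3, map_zero]

lemma eval_mus (ν v : Fin n → F) (s : F) :
    (mus ν v).eval (MvPolynomial.C s) = lin (ν + s • v) := by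
  rw [mus, Polynomial.eval_add, Polynomial.eval_C, Polynomial.eval_mul, Polynomial.eval_X,
    Polynomial.eval_C, map_add, map_smul, MvPolynomial.smul_eq_C_mul]

lemma HP.eval {a : (MvPolynomial (Fin n) F)[X]} {j : ℕ} (ha : HP a j) (s : F) :
    (a.eval (MvPolynomial.C s)).IsHomogeneous j := by
  rw [Polynomial.eval_eq_sum, Polynomial.sum]
  refine IsHomogeneous.sum _ _ _ fun i _ => ?_
  rw [← map_pow, mul_comm]
  exact C_mul_hom _ (ha i)

lemma eval_mem {I : Ideal (MvPolynomial (Fin n) F)} {θ : (MvPolynomial (Fin n) F)[X]}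
    (h : θ ∈ PI I) (s : F) : θ.eval (MvPolynomial.C s) ∈ I := by
  rw [Polynomial.eval_eq_sum, Polynomial.sum]
  exact Ideal.sum_mem _ fun i _ => Ideal.mul_mem_right _ _ (mem_PI.1 h i)

/-- isotropic curves in a nondegenerate plane are constant -/
lemma iso_dep [CharZero F] {I : Ideal (MvPolynomial (Fin n) F)} {ν : Fin n → F} {m j : ℕ}
    {a : (MvPolynomial (Fin n) F)[X]} (ha : HP a j) (hk : ∀ i, lin ν ^ m * a.coeff i ∈ I)
    (hiso : Polynomial.C (lin ν ^ (m - 1)) * (a * a) ∈ PI I) (hKT : KT I ν m j)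
    (hND : ∀ κ : MvPolynomial (Fin n) F, κ.IsHomogeneous j → lin ν ^ m * κ ∈ I →
      (∀ ζ : MvPolynomial (Fin n) F, ζ.IsHomogeneous j → lin ν ^ m * ζ ∈ I →
        lin ν ^ (m - 1) * (κ * ζ) ∈ I) → κ ∈ I) :
    ∀ i i0, Dep I (a.coeff i) (a.coeff i0) := by
  classical
  by_cases hall : ∀ i, a.coeff i ∈ I
  · exact fun i i0 => Dep.left (hall i)
  push Not at hall
  set r := Nat.find hall with hr
  have hrI : a.coeff r ∉ I := Nat.find_spec hall
  have hlow : ∀ i < r, a.coeff i ∈ I := fun i hi => by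
    have := Nat.find_min hall hi
    push Not at this
    exact this
  set N := lin ν ^ (m - 1) with hN
  have hcoef : ∀ k, ∑ x ∈ Finset.HasAntidiagonal.antidiagonal k, N * (a.coeff x.1 * a.coeff x.2) ∈ I := by
    intro k
    have := mem_PI.1 hiso k
    rwa [Polynomial.coeff_C_mul, Polynomial.coeff_mul, Finset.mul_sum] at this
  have hself : N * (a.coeff r * a.coeff r) ∈ I := by
    have h1 := hcoef (r + r)
    rw [Finset.sum_eq_add_sum_sdiff_singleton_of_mem (i := (r, r)) (by simp)] at h1
    refine (Ideal.add_mem_iff_left I ?_).1 h1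
    refine Ideal.sum_mem _ fun x hx => ?_
    rw [Finset.mem_sdiff, Finset.HasAntidiagonal.mem_antidiagonal, Finset.mem_singleton] at hx
    apply Ideal.mul_mem_left
    by_cases hxr : x.1 < r
    · exact Ideal.mul_mem_right _ _ (hlow _ hxr)
    · have : x.2 < r := by
        rcases Nat.lt_or_ge x.2 r with h | h
        · exact h
        · exfalso
          apply hx.2
          ext
          · simp; omega
          · simp; omega
      exact Ideal.mul_mem_left _ _ (hlow _ this)
  have hex : ∀ i, ∃ c : F, a.coeff i - MvPolynomial.C c * a.coeff r ∈ I := by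
    intro i
    induction i using Nat.strong_induction_on with
    | _ i ih =>
      rcases lt_trichotomy i r with hi | hi | hi
      · exact ⟨0, by simpa using hlow i hi⟩
      · exact ⟨1, by rw [hi]; simp⟩
      · -- orthogonality
        have horth : N * (a.coeff r * a.coeff i) ∈ I := by
          have h1 := hcoef (r + i)
          rw [Finset.sum_eq_add_sum_sdiff_singleton_of_mem (i := (r, i)) (by simp)] at h1
          have hmem2 : ((i, r) : ℕ × ℕ) ∈
              Finset.HasAntidiagonal.antidiagonal (r + i) \ {((r, i) : ℕ × ℕ)} := by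
            rw [Finset.mem_sdiff, Finset.HasAntidiagonal.mem_antidiagonal, Finset.mem_singleton]
            refine ⟨by simp [add_comm], ?_⟩
            intro h
            rw [Prod.mk.injEq] at h
            omega
          rw [Finset.sum_eq_add_sum_sdiff_singleton_of_mem hmem2, ← add_assoc] at h1
          have h2 : N * (a.coeff r * a.coeff i) + N * (a.coeff i * a.coeff r) ∈ I := by
            refine (Ideal.add_mem_iff_left I ?_).1 h1
            refine Ideal.sum_mem _ fun x hx => ?_
            rw [Finset.mem_sdiff, Finset.mem_sdiff, Finset.HasAntidiagonal.mem_antidiagonal,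
              Finset.mem_singleton, Finset.mem_singleton] at hx
            obtain ⟨⟨hx1, hx2⟩, hx3⟩ := hx
            by_cases hxr : x.1 < r
            · exact Ideal.mul_mem_left _ _ (Ideal.mul_mem_right _ _ (hlow _ hxr))
            · by_cases hxr2 : x.2 < r
              · exact Ideal.mul_mem_left _ _ (Ideal.mul_mem_left _ _ (hlow _ hxr2))
              · have hx1r : x.1 ≠ r := by
                  intro h
                  apply hx2
                  ext
                  · exact h
                  · simp; omega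
                have hx1i : x.1 ≠ i := by
                  intro h
                  apply hx3
                  ext
                  · exact h
                  · simp; omega
                obtain ⟨c, hc⟩ := ih x.1 (by omega)
                obtain ⟨d, hd⟩ := ih x.2 (by omega)
                have e1 := Ideal.mul_mem_left I (N * a.coeff x.2) hc
                have e2 := Ideal.mul_mem_left I (N * MvPolynomial.C c * a.coeff r) hd
                have e3 := Ideal.mul_mem_left I (MvPolynomial.C (c * d)) hself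
                have := add_mem (add_mem e1 e2) e3
                convert this using 1
                rw [map_mul]
                ring
          have h3 : MvPolynomial.C (2 : F) * (N * (a.coeff r * a.coeff i)) ∈ I := by
            convert h2 using 1
            simp only [map_ofNat]
            ring
          exact mem_of_C_mul two_ne_zero h3
        by_contra hcon
        apply hrI
        apply hND _ (ha r) (hk r)
        intro ζ hζ hζk
        obtain ⟨x, y, z, hxyz, hmem⟩ := hKT _ _ _ (ha r) (ha i) hζ (hk r) (hk i) hζk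
        have hz : z ≠ 0 := by
          rintro rfl
          rw [map_zero, zero_mul, add_zero] at hmem
          apply hcon
          apply Dep.mul_of _ hrI
          refine ⟨y, x, ?_, by rwa [add_comm]⟩
          rcases hxyz with h | h | h
          · exact Or.inr h
          · exact Or.inl h
          · exact absurd rfl h
        apply mem_of_C_mul hz
        have e1 := Ideal.mul_mem_left I (N * a.coeff r) hmem
        have e2 := Ideal.mul_mem_left I (MvPolynomial.C x) hself
        have e3 := Ideal.mul_mem_left I (MvPolynomial.C y) horth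
        have := sub_mem (sub_mem e1 e2) e3
        convert this using 1
        ring
  intro i i0
  obtain ⟨c, hc⟩ := hex i
  obtain ⟨d, hd⟩ := hex i0
  exact Dep.of_mul hc hd

/-- two solutions are dependent -/
lemma dep_of_KT [CharZero F] {W : Submodule F (Fin n → F)} {v : Fin n → F}
    {g : List (Fin n → F)} {𝓛 : List (List (Fin n → F))} (hci : CI W ((v :: g) :: 𝓛))
    {ν : Fin n → F} {m j : ℕ} (hm : 1 ≤ m)
    (G1 : 1 ≤ j → LI (J W (g :: 𝓛)) ν m (j - 1))
    (G2 : LI (J W (g :: 𝓛)) ν (m - 1) j)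
    (G3 : 1 ≤ j → LI (J W (g :: 𝓛)) ν (m + 1) (j - 1))
    (G4 : g.length ≤ j → LI (J (W ⊔ Submodule.span F {v}) 𝓛) ν m (j - g.length))
    (K2 : KT (J (W ⊔ Submodule.span F {v}) 𝓛) ν m j)
    {a b : (MvPolynomial (Fin n) F)[X]} (ha : HP a j) (hb : HP b j)
    (hka : (mus ν v) ^ m * a ∈ PI (J W ((v :: g) :: 𝓛)))
    (hkb : (mus ν v) ^ m * b ∈ PI (J W ((v :: g) :: 𝓛))) :
    ∃ f h : F[X], (f ≠ 0 ∨ h ≠ 0) ∧ cR f * a + cR h * b ∈ PI (J W ((v :: g) :: 𝓛)) := by
  classical
  set I := J W ((v :: g) :: 𝓛) with hI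
  set I'' := J (W ⊔ Submodule.span F {v}) 𝓛 with hI''
  by_cases hcase : ∃ κ1 κ2 : MvPolynomial (Fin n) F, κ1.IsHomogeneous j ∧ κ2.IsHomogeneous j ∧
      lin ν ^ m * κ1 ∈ I'' ∧ lin ν ^ m * κ2 ∈ I'' ∧ ¬ Dep I'' κ1 κ2
  · obtain ⟨κ1, κ2, hκ1, hκ2, hk1, hk2, hdep⟩ := hcase
    have hex : ∀ q : MvPolynomial (Fin n) F, q.IsHomogeneous j → lin ν ^ m * q ∈ I'' →
        ∃ c : F × F, q - MvPolynomial.C c.1 * κ1 - MvPolynomial.C c.2 * κ2 ∈ I'' := by
      intro q hq hqk
      obtain ⟨x, y, z, hxyz, hmem⟩ := K2 κ1 κ2 q hκ1 hκ2 hq hk1 hk2 hqk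
      have hz : z ≠ 0 := by
        rintro rfl
        rw [map_zero, zero_mul, add_zero] at hmem
        apply hdep
        refine ⟨x, y, ?_, hmem⟩
        rcases hxyz with h | h | h
        · exact Or.inl h
        · exact Or.inr h
        · exact absurd rfl h
      refine ⟨(-(x / z), -(y / z)), mem_of_C_mul hz ?_⟩
      convert hmem using 1
      have e1 : (MvPolynomial.C x : MvPolynomial (Fin n) F)
          = MvPolynomial.C z * MvPolynomial.C (x / z) := by
        rw [← map_mul, mul_div_cancel₀ _ hz]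
      have e2 : (MvPolynomial.C y : MvPolynomial (Fin n) F)
          = MvPolynomial.C z * MvPolynomial.C (y / z) := by
        rw [← map_mul, mul_div_cancel₀ _ hz]
      rw [e1, e2, map_neg, map_neg]
      ring
    -- polynomial coefficients
    have hpoly : ∀ c : (MvPolynomial (Fin n) F)[X], HP c j → (mus ν v) ^ m * c ∈ PI I →
        ∃ c1 c2 : F[X], c - cR c1 * Polynomial.C κ1 - cR c2 * Polynomial.C κ2 ∈ PI I'' := by
      intro c hc hkc
      choose d hd using fun i => hex (c.coeff i) (hc i) (coeff_ker hkc i)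
      refine ⟨∑ i ∈ c.support, Polynomial.monomial i (d i).1,
        ∑ i ∈ c.support, Polynomial.monomial i (d i).2, ?_⟩
      rw [mem_PI]
      intro i
      rw [Polynomial.coeff_sub, Polynomial.coeff_sub, Polynomial.coeff_mul_C,
        Polynomial.coeff_mul_C, cR, cR, Polynomial.coeff_map, Polynomial.coeff_map,
        Polynomial.finsetSum_coeff, Polynomial.finsetSum_coeff]
      simp only [Polynomial.coeff_monomial, Finset.sum_ite_eq']
      split_ifs with hi
      · exact hd i
      · rw [Polynomial.notMem_support_iff.1 hi]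
        simp
    obtain ⟨a1, a2, hab⟩ := hpoly a ha hka
    obtain ⟨b1, b2, hbb⟩ := hpoly b hb hkb
    -- solutions with proportional coefficients vanish
    have hvan : ∀ (f h e : F[X]) (κ : MvPolynomial (Fin n) F),
        cR f * a + cR h * b - cR e * Polynomial.C κ ∈ PI I'' →
        cR f * a + cR h * b ∈ PI I := by
      intro f h e κ hmem
      have hHP : HP (cR f * a + cR h * b) j := by
        refine HP.add ?_ ?_
        · simpa using (HP.cR f).mul ha
        · simpa using (HP.cR h).mul hb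
      refine engineG0 hci hm G1 G2 G3 G4 hHP ?_ ?_
      · have := add_mem (Ideal.mul_mem_left _ (cR f) hka) (Ideal.mul_mem_left _ (cR h) hkb)
        convert this using 1
        ring
      · intro i i0
        have h1 := mem_PI.1 hmem i
        have h2 := mem_PI.1 hmem i0
        rw [Polynomial.coeff_sub, Polynomial.coeff_mul_C, cR, cR, cR, Polynomial.coeff_map] at h1 h2
        exact Dep.of_mul h1 h2
    have hcRsub : ∀ p q : F[X], (cR (p - q) : (MvPolynomial (Fin n) F)[X]) = cR p - cR q :=
      fun p q => by simp [cR]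
    have hcRmul : ∀ p q : F[X], (cR (p * q) : (MvPolynomial (Fin n) F)[X]) = cR p * cR q :=
      fun p q => by simp [cR]
    have hcRneg : ∀ p : F[X], (cR (-p) : (MvPolynomial (Fin n) F)[X]) = -cR p :=
      fun p => by simp [cR]
    have hu := hvan b2 (-a2) (b2 * a1 - a2 * b1) κ1 (by
      have := sub_mem (Ideal.mul_mem_left _ (cR b2) hab) (Ideal.mul_mem_left _ (cR a2) hbb)
      convert this using 1
      rw [hcRsub, hcRmul, hcRmul, hcRneg]
      ring)
    have hv := hvan b1 (-a1) (b1 * a2 - a1 * b2) κ2 (by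
      have := sub_mem (Ideal.mul_mem_left _ (cR b1) hab) (Ideal.mul_mem_left _ (cR a1) hbb)
      convert this using 1
      rw [hcRsub, hcRmul, hcRmul, hcRneg]
      ring)
    by_cases h2 : b2 = 0 ∧ a2 = 0
    · by_cases h1 : b1 = 0 ∧ a1 = 0
      · refine ⟨1, 0, Or.inl one_ne_zero, ?_⟩
        apply hvan 1 0 0 κ1
        rw [h1.2, h2.2] at hab
        have hc0 : (cR 0 : (MvPolynomial (Fin n) F)[X]) = 0 := by simp [cR]
        have hc1 : (cR 1 : (MvPolynomial (Fin n) F)[X]) = 1 := by simp [cR]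
        rw [hc0] at hab
        rw [hc0, hc1]
        convert hab using 1
        ring
      · refine ⟨b1, -a1, ?_, hv⟩
        rw [not_and_or] at h1
        rcases h1 with h | h
        · exact Or.inl h
        · exact Or.inr (neg_ne_zero.2 h)
    · refine ⟨b2, -a2, ?_, hu⟩
      rw [not_and_or] at h2
      rcases h2 with h | h
      · exact Or.inl h
      · exact Or.inr (neg_ne_zero.2 h)
  · push Not at hcase
    refine ⟨1, 0, Or.inl one_ne_zero, ?_⟩
    have hc0 : (cR 0 : (MvPolynomial (Fin n) F)[X]) = 0 := by simp [cR]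
    have hc1 : (cR 1 : (MvPolynomial (Fin n) F)[X]) = 1 := by simp [cR]
    rw [hc0, hc1, one_mul, zero_mul, add_zero]
    exact engineG0 hci hm G1 G2 G3 G4 ha hka fun i i0 =>
      hcase _ _ (ha i) (ha i0) (coeff_ker hka i) (coeff_ker hka i0)

/-- The gluing argument for a reducible quadric with two-dimensional kernel. -/
theorem engineT [CharZero F] {W : Submodule F (Fin n → F)} {v w : Fin n → F}
    {𝓛 : List (List (Fin n → F))} (hci : CI W ([v, w] :: 𝓛))
    {ν : Fin n → F} {m j : ℕ} (hm : 1 ≤ m) (hj : 1 ≤ j) (hmj : 2 * j + m = sg 𝓛 + 1)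
    (G1 : LI (J W ([w] :: 𝓛)) ν m (j - 1))
    (G2 : LI (J W ([w] :: 𝓛)) ν (m - 1) j)
    (G3 : LI (J W ([w] :: 𝓛)) ν (m + 1) (j - 1))
    (G4 : LI (J (W ⊔ Submodule.span F {v}) 𝓛) ν m (j - 1))
    (K2 : KT (J (W ⊔ Submodule.span F {v}) 𝓛) ν m j)
    (N1 : LI (J (W ⊔ Submodule.span F {v}) 𝓛) ν (m - 1) j)
    (N2 : LI (J (W ⊔ Submodule.span F {v}) 𝓛) ν (m + 1) (j - 1)) :
    EX (J W ([v, w] :: 𝓛)) m j := by
  classical
  have hinf : Infinite F := CharZero.infinite F
  by_contra hno
  set I := J W ([v, w] :: 𝓛) with hI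
  set I'' := J (W ⊔ Submodule.span F {v}) 𝓛 with hI''
  have hPLI : ∀ μ u, ¬ PLI I μ u m j := by
    intro μ u h
    obtain ⟨s, hs⟩ := h.finite_bad.infinite_compl.nonempty
    rw [Set.mem_compl_iff, Set.mem_ofPred_eq, not_not] at hs
    exact hno ⟨_, hs⟩
  have hcol : ∀ q, lin w * q ∈ I ↔ q ∈ I'' := by
    intro q
    have := colon_pr (p := q) hci.1.tail hci.2.1
    simpa using this
  have hdep := fun a b ha hb hka hkb => dep_of_KT (a := a) (b := b) hci hm (fun _ => G1) G2
    (fun _ => G3) (fun _ => G4) K2 ha hb hka hkb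
  have hbad := finite_bad_KDm' (KDm_of_dep hdep)
  simp only [Pw_cv_map, ← KD_iff] at hbad
  have h0 := hPLI ν v
  rw [PLI] at h0
  push Not at h0
  obtain ⟨a, ha, hka, haI⟩ := h0
  -- isotropy
  have hiso : (mus ν v) ^ (m - 1) * (a * a) ∈ PI I'' := by
    apply mem_PI_of_eval hbad.infinite_compl
    intro s hs
    rw [Set.mem_compl_iff, Set.mem_ofPred_eq, not_not] at hs
    obtain ⟨b0, hb0, hb0I, hb0k, hb0iso⟩ := iso_point hm hcol (hPLI (ν + s • v) w)
    have hak : lin (ν + s • v) ^ m * a.eval (MvPolynomial.C s) ∈ I := by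
      have := eval_mem hka s
      rwa [Polynomial.eval_mul, Polynomial.eval_pow, eval_mus] at this
    obtain ⟨c, hc⟩ := Dep.mul_of (hs _ _ (ha.eval s) hb0 hak hb0k) hb0I
    have hc'' : a.eval (MvPolynomial.C s) - MvPolynomial.C c * b0 ∈ I'' := J_cons_le_sup hc
    rw [Polynomial.eval_mul, Polynomial.eval_pow, eval_mus, Polynomial.eval_mul]
    have e1 := Ideal.mul_mem_left I'' (lin (ν + s • v) ^ (m - 1) * (a.eval (MvPolynomial.C s) +
      MvPolynomial.C c * b0)) hc''
    have e2 := Ideal.mul_mem_left I'' (MvPolynomial.C (c * c)) hb0iso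
    have := add_mem e1 e2
    convert this using 1
    rw [map_mul]
    ring
  have hiso' : Polynomial.C (lin ν ^ (m - 1)) * (a * a) ∈ PI I'' := by
    have hv'' : lin v ∈ I'' :=
      lin_mem_J (Submodule.mem_sup_right (Submodule.mem_span_singleton_self v))
    have h1 : mus ν v - Polynomial.C (lin ν) ∈ PI I'' := by
      rw [mus, add_sub_cancel_left]
      exact Ideal.mul_mem_left _ _ (Ideal.mem_map_of_mem _ hv'')
    have h2 : mus ν v ^ (m - 1) - Polynomial.C (lin ν) ^ (m - 1) ∈ PI I'' := by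
      obtain ⟨q, hq⟩ := sub_dvd_pow_sub_pow (mus ν v) (Polynomial.C (lin ν)) (m - 1)
      rw [hq]
      exact Ideal.mul_mem_right _ _ h1
    have h3 := sub_mem hiso (Ideal.mul_mem_right (a * a) _ h2)
    rwa [sub_mul, sub_sub_cancel, ← Polynomial.C_pow] at h3
  have hfin := iso_dep ha (coeff_ker hka) hiso' K2 fun κ hκ hκk hζ =>
    nondeg_ker hci.sup hm hj hmj N1 N2 hκ hκk hζ
  exact haI (engineG0 hci hm (fun _ => G1) G2 (fun _ => G3) (fun _ => G4) ha hka hfin)

/-- existence form -/
theorem stepT [CharZero F] {W : Submodule F (Fin n → F)} {v w : Fin n → F}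
    {𝓛 : List (List (Fin n → F))} (hci : CI W ([v, w] :: 𝓛))
    {m j : ℕ} (hm : 1 ≤ m) (hj : 1 ≤ j) (hmj : 2 * j + m = sg 𝓛 + 1)
    (G1 : EX (J W ([w] :: 𝓛)) m (j - 1))
    (G2 : EX (J W ([w] :: 𝓛)) (m - 1) j)
    (G3 : EX (J W ([w] :: 𝓛)) (m + 1) (j - 1))
    (G4 : EX (J (W ⊔ Submodule.span F {v}) 𝓛) m (j - 1))
    (K2 : ET (J (W ⊔ Submodule.span F {v}) 𝓛) m j)
    (N1 : EX (J (W ⊔ Submodule.span F {v}) 𝓛) (m - 1) j)
    (N2 : EX (J (W ⊔ Submodule.span F {v}) 𝓛) (m + 1) (j - 1)) :
    EX (J W ([v, w] :: 𝓛)) m j := by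
  have : Infinite F := CharZero.infinite F
  have O1 := Op_LI (J W ([w] :: 𝓛)) m (j - 1)
  have O2 := Op_LI (J W ([w] :: 𝓛)) (m - 1) j
  have O3 := Op_LI (J W ([w] :: 𝓛)) (m + 1) (j - 1)
  have O4 := Op_LI (J (W ⊔ Submodule.span F {v}) 𝓛) m (j - 1)
  have O5 := Op_KT (J (W ⊔ Submodule.span F {v}) 𝓛) m j
  have O6 := Op_LI (J (W ⊔ Submodule.span F {v}) 𝓛) (m - 1) j
  have O7 := Op_LI (J (W ⊔ Submodule.span F {v}) 𝓛) (m + 1) (j - 1)
  have E6 := O6.common O7 N1 N2
  have E5 := O5.common (O6.and O7) K2 E6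
  have E4 := O4.common (O5.and (O6.and O7)) G4 E5
  have E3 := O3.common (O4.and (O5.and (O6.and O7))) G3 E4
  have E2 := O2.common (O3.and (O4.and (O5.and (O6.and O7)))) G2 E3
  obtain ⟨ν, h1, h2, h3, h4, h5, h6, h7⟩ :=
    O1.common (O2.and (O3.and (O4.and (O5.and (O6.and O7))))) G1 E2
  exact engineT hci hm hj hmj h1 h2 h3 h4 h5 h6 h7

end Pool.Agent.LefProd
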