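import Pool.Agent.LefProd.EngineD

/-!
From `LI 1 e` and `KD t (e+1)` to `LI (t+1) e` when `2 e + t + 1` is at most the socle degree:
the divisor argument combined with the geometry of products of linear forms.
-/

set_option autoImplicit false
set_option linter.unusedSectionVars false

namespace Pool.Agent.LefProd

open MvPolynomial

universe u

variable {F : Type u} [Field F] {n : ℕ}

section matrices

variable {I : Ideal (MvPolynomial (Fin n) F)}

lemma Pm_single (j : ℕ) (l : Fin n) : Pm I (Pi.single l (1 : F)) j = Xi I j l := by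
  ext k i
  rw [Pm, Matrix.sum_apply, Finset.sum_eq_single l]
  · simp
  · intro l' _ hl'
    simp [Pi.single_eq_of_ne hl']
  · simp

lemma Xi_mulVec (j : ℕ) (l : Fin n) (x : ix I j → F) :
    Matrix.mulVec (Xi I j l) x = co I (j + 1) (X l * el I j x) := by
  rw [← Pm_single, ← lin_single, co_mul_lin _ (el_hom x), co_el]

lemma Xi_comm (j : ℕ) (a b : Fin n) :
    Xi I (j + 1) a * Xi I j b = Xi I (j + 1) b * Xi I j a := by
  have key : ∀ (a b : Fin n) (x : ix I j → F), Matrix.mulVec (Xi I (j + 1) a * Xi I j b) x =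
      co I (j + 1 + 1) (X a * (X b * el I j x)) := by
    intro a b x
    rw [← Matrix.mulVec_mulVec, Xi_mulVec j b, ← Pm_single, ← lin_single a, co_mul_lin]
    have := (isHomogeneous_X F b).mul (el_hom (I := I) x)
    rwa [add_comm] at this
  apply Matrix.mulVec_injective
  funext x
  rw [key, key, mul_left_comm]

/-- the generic pencil -/
noncomputable abbrev GP (I : Ideal (MvPolynomial (Fin n) F)) (j : ℕ) :
    Matrix (ix I (j + 1)) (ix I j) (MvPolynomial (Fin n) F) :=
  Pm I (X : Fin n → MvPolynomial (Fin n) F) j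

/-- powers of the generic pencil -/
noncomputable abbrev GW (I : Ideal (MvPolynomial (Fin n) F)) (j t : ℕ) :
    Matrix (ix I (j + t)) (ix I j) (MvPolynomial (Fin n) F) :=
  Pw I (X : Fin n → MvPolynomial (Fin n) F) j t

/-- multiplication by a variable, as a matrix of constants -/
noncomputable abbrev XC (I : Ideal (MvPolynomial (Fin n) F)) (j : ℕ) (l : Fin n) :
    Matrix (ix I (j + 1)) (ix I j) (MvPolynomial (Fin n) F) := (Xi I j l).map C

lemma GP_eq_pen (j : ℕ) : GP I j = pen (Xi I j) := rfl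

lemma Xi_GP_comm (j : ℕ) (l : Fin n) :
    XC I (j + 1) l * GP I j = GP I (j + 1) * XC I j l := by
  rw [GP, GP, Pm, Pm, Matrix.mul_sum, Matrix.sum_mul]
  refine Finset.sum_congr rfl fun l' _ => ?_
  rw [Matrix.mul_smul, Matrix.smul_mul]
  congr 1
  change XC I (j + 1) l * XC I j l' = XC I (j + 1) l' * XC I j l
  rw [XC, XC, XC, XC, ← Matrix.map_mul, ← Matrix.map_mul, Xi_comm]

lemma GP_map_pderiv (j : ℕ) (l : Fin n) : (GP I j).map (pderiv l) = XC I j l := by
  classical
  ext1 k i
  rw [Matrix.map_apply, GP, Pm, Matrix.sum_apply, map_sum, Finset.sum_eq_single l]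
  · rw [Matrix.smul_apply, Matrix.map_apply, smul_eq_mul, pderiv_mul]
    simp [MvPolynomial.algebraMap_eq]
  · intro l' _ hl'
    rw [Matrix.smul_apply, Matrix.map_apply, smul_eq_mul, pderiv_mul]
    simp [MvPolynomial.algebraMap_eq, pderiv_X, hl']
  · simp

lemma map_pderiv_mul {α β γ : Type*} [Fintype β] (l : Fin n)
    (A : Matrix α β (MvPolynomial (Fin n) F)) (B : Matrix β γ (MvPolynomial (Fin n) F)) :
    (A * B).map (pderiv l) = A.map (pderiv l) * B + A * B.map (pderiv l) := by
  ext1 i j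
  rw [Matrix.map_apply, Matrix.mul_apply, map_sum, Matrix.add_apply, Matrix.mul_apply,
    Matrix.mul_apply, ← Finset.sum_add_distrib]
  refine Finset.sum_congr rfl fun k _ => ?_
  rw [pderiv_mul]
  rfl

lemma Xi_GW_comm (e t : ℕ) (l : Fin n) :
    XC I (e + 1 + t) l * (GW I (e + 1) t * GP I e) =
      GP I (e + 1 + t) * (GW I (e + 1) t * XC I e l) := by
  induction t with
  | zero =>
    rw [GW, Pw, Matrix.one_mul, Matrix.one_mul]
    exact Xi_GP_comm e l
  | succ t ih =>
    have h1 : GW I (e + 1) (t + 1) = GP I (e + 1 + t) * GW I (e + 1) t := rfl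
    have h2 : XC I (e + 1 + (t + 1)) l * GP I (e + 1 + t) =
        GP I (e + 1 + (t + 1)) * XC I (e + 1 + t) l := Xi_GP_comm (e + 1 + t) l
    rw [h1, Matrix.mul_assoc (GP I (e + 1 + t)) _ (GP I e), ← Matrix.mul_assoc (XC _ _ _), h2,
      Matrix.mul_assoc, ih, Matrix.mul_assoc (GP I (e + 1 + t)) _ (XC I e l)]

lemma GW_pderiv (e t : ℕ) (l : Fin n) :
    (GW I (e + 1) t).map (pderiv l) * GP I e =
      (t : MvPolynomial (Fin n) F) • (GW I (e + 1) t * XC I e l) := by
  classical
  induction t with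
  | zero =>
    have h0 : (GW I (e + 1) 0).map (pderiv l) = 0 := by
      ext1 i j
      rw [Matrix.map_apply, GW, Pw, Matrix.one_apply]
      split_ifs <;> simp
    rw [h0, Matrix.zero_mul, Nat.cast_zero, zero_smul]
  | succ t ih =>
    have h1 : GW I (e + 1) (t + 1) = GP I (e + 1 + t) * GW I (e + 1) t := rfl
    rw [h1, map_pderiv_mul, Matrix.add_mul, Matrix.mul_assoc, Matrix.mul_assoc, ih,
      GP_map_pderiv, Xi_GW_comm, Matrix.mul_smul, Matrix.mul_assoc, Nat.cast_succ, add_smul,
      one_smul]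
    exact add_comm _ _

end matrices

lemma KDm.of_inj {κ ι T : Type*} [Fintype ι] [CommRing T] [Nontrivial T] {A : Matrix κ ι T}
    (h : Inj A) : KDm A := by
  intro x y hx _
  refine ⟨1, 0, Or.inl one_ne_zero, ?_⟩
  rw [h x hx]
  simp

lemma KDm_of_specialization {T : Type*} {ι κ : Type*} [Fintype ι] [Fintype κ] [DecidableEq ι]
    [DecidableEq κ] [CommRing T] [IsDomain T] [Algebra F T]
    (ε : T →ₐ[F] F) {A : Matrix κ ι T} (h : KDm (A.map ε)) : KDm A := by
  by_cases hA : Inj (A.map ε)
  · obtain ⟨Q, -, hQ⟩ := inj_of_specialization _ hA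
    exact KDm.of_inj hQ
  · obtain ⟨i0, hi0⟩ := exists_aug h hA
    apply KDm_of_aug (i0 := i0)
    have h1 : Inj ((Aug A i0).map ε) := by
      have := Aug_map (ε : T →+* F) A i0
      simp only [RingHom.coe_coe] at this
      rw [this]
      exact hi0
    obtain ⟨Q, -, hQ⟩ := inj_of_specialization _ h1
    exact hQ

/-- iterated socle argument -/
lemma soc_iter {𝓛 : List (List (Fin n → F))} {W : Submodule F (Fin n → F)} (hci : CI W 𝓛) :
    ∀ (k : ℕ) {p : MvPolynomial (Fin n) F} {i : ℕ}, p.IsHomogeneous i → i + k ≤ sg 𝓛 →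
    (∀ l : List (Fin n → F), l.length = k → pr l * p ∈ J W 𝓛) → p ∈ J W 𝓛 := by
  intro k
  induction k with
  | zero =>
    intro p i _ _ h
    simpa using h [] rfl
  | succ k ih =>
    intro p i hp hi h
    apply soc hci hp (by omega)
    intro v
    have h1 : (lin v * p).IsHomogeneous (i + 1) := by
      rw [add_comm]; exact (lin_isHomogeneous v).mul hp
    apply ih h1 (by omega)
    intro l hl
    have := h (v :: l) (by simp [hl])
    rw [pr_cons] at this
    convert this using 1
    ring

lemma transversal_top {L : Type*} [AddCommGroup L] [Module F L] (lam : (Fin n → F) →ₗ[F] L) :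
    ∀ {𝓛 : List (List (Fin n → F))} {W : Submodule F (Fin n → F)}, CI W 𝓛 →
    W ≤ LinearMap.ker lam → (∀ l ∈ 𝓛, ∃ v ∈ l, lam v = 0) → lam = 0 := by
  intro 𝓛
  induction 𝓛 with
  | nil =>
    intro W hci hW _
    have hW' : W = ⊤ := Submodule.eq_top_of_finrank_eq (by simpa using hci.2.2)
    rw [hW', top_le_iff] at hW
    exact LinearMap.ker_eq_top.1 hW
  | cons l 𝓛 ih =>
    intro W hci hW h
    obtain ⟨v, hv, hlam⟩ := h l List.mem_cons_self
    have h1 := hci.2.1 v hv
    apply ih (W := W ⊔ Submodule.span F {v})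
    · refine ⟨hci.1.tail, h1.2, ?_⟩
      rw [finrank_sup h1.1]
      have := hci.2.2
      rw [List.length_cons] at this
      omega
    · rw [sup_le_iff, Submodule.span_le]
      exact ⟨hW, by simpa using hlam⟩
    · exact fun l' hl' => h l' (List.mem_cons_of_mem _ hl')

section point

variable {L : Type u} [Field L] [Algebra F L] {I : Ideal (MvPolynomial (Fin n) F)}

/-- the value of an `L`-vector at a functional -/
noncomputable def val (I : Ideal (MvPolynomial (Fin n) F)) {j : ℕ} (w : ix I j → L)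
    (φ : L →ₗ[F] F) : MvPolynomial (Fin n) F := el I j fun i => φ (w i)

lemma val_hom {j : ℕ} (w : ix I j → L) (φ : L →ₗ[F] F) : (val I w φ).IsHomogeneous j := el_hom _

lemma val_zero_of {j : ℕ} {w : ix I j → L} (h : ∀ φ : L →ₗ[F] F, val I w φ ∈ I) : w = 0 := by
  funext i
  rw [Pi.zero_apply, ← Module.forall_dual_apply_eq_zero_iff F]
  intro φ
  have h1 := (co_eq_zero_iff (val_hom w φ)).2 (h φ)
  rw [val, co_el] at h1
  exact congrFun h1 i

/-- scaling a functional -/
noncomputable def scl (φ : L →ₗ[F] F) (a : L) : L →ₗ[F] F := φ ∘ₗ LinearMap.mulLeft F a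

lemma scl_apply (φ : L →ₗ[F] F) (a x : L) : scl φ a x = φ (a * x) := rfl

lemma scl_scl (φ : L →ₗ[F] F) (a b : L) : scl (scl φ a) b = scl φ (a * b) := by
  ext x
  simp [scl_apply, mul_assoc]

lemma scl_one (φ : L →ₗ[F] F) : scl φ 1 = φ := by
  ext x
  simp [scl_apply]

/-- the linear function with values `lam` -/
noncomputable def lamL (lam : Fin n → L) : (Fin n → F) →ₗ[F] L := Fintype.linearCombination F lam

lemma lin_mul_val {j : ℕ} {w : ix I j → L} {p : ix I (j + 1) → L} {lam : Fin n → L}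
    (h : ∀ l, Matrix.mulVec ((Xi I j l).map (algebraMap F L)) w = lam l • p)
    (v : Fin n → F) (φ : L →ₗ[F] F) :
    lin v * val I w φ - val I p (scl φ (lamL lam v)) ∈ I := by
  have hh : (lin v * val I w φ).IsHomogeneous (j + 1) := by
    rw [add_comm]; exact (lin_isHomogeneous v).mul (val_hom w φ)
  rw [← co_eq_zero_iff (hh.sub (val_hom _ _))]
  have hsub : ∀ p q : MvPolynomial (Fin n) F, co I (j + 1) (p - q) =
      co I (j + 1) p - co I (j + 1) q := by
    intro p q
    funext i
    simp [co]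
  rw [hsub, sub_eq_zero, co_mul_lin v (val_hom w φ), val, val, co_el, co_el]
  funext k
  have h1 : ∀ l, ∑ i, algebraMap F L (Xi I j l k i) * w i = lam l * p k := by
    intro l
    have := congrFun (h l) k
    simpa [Matrix.mulVec, dotProduct] using this
  rw [scl_apply, lamL, Fintype.linearCombination_apply, Finset.sum_mul]
  have h2 : ∀ l, v l • lam l * p k = ∑ i, (v l * Xi I j l k i) • w i := by
    intro l
    rw [smul_mul_assoc, ← h1, Finset.smul_sum]
    refine Finset.sum_congr rfl fun i _ => ?_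
    rw [mul_smul, Algebra.smul_def (Xi I j l k i)]
  simp only [h2]
  rw [map_sum, Matrix.mulVec, dotProduct]
  simp only [map_sum, map_smul, smul_eq_mul, Pm, Matrix.sum_apply, Finset.sum_mul,
    Matrix.smul_apply, Matrix.map_apply, Algebra.algebraMap_self, RingHom.id_apply]
  rw [Finset.sum_comm]

theorem point_obs {𝓛 : List (List (Fin n → F))} {W : Submodule F (Fin n → F)} (hci : CI W 𝓛)
    {e : ℕ} (he : e < sg 𝓛) (hlen : ∀ l ∈ 𝓛, l.length ≤ sg 𝓛 - e) {w : ix (J W 𝓛) e → L}
    {p : ix (J W 𝓛) (e + 1) → L} {lam : Fin n → L}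
    (h : ∀ l, Matrix.mulVec ((Xi (J W 𝓛) e l).map (algebraMap F L)) w = lam l • p) :
    w = 0 := by
  by_contra hw
  have hrel := lin_mul_val h
  set Λ : (Fin n → F) →ₗ[F] L := lamL lam with hΛ
  -- it suffices to kill all `p`-values
  have hp : ¬ ∀ φ : L →ₗ[F] F, val (J W 𝓛) p φ ∈ (J W 𝓛) := by
    intro hp
    apply hw
    apply val_zero_of
    intro φ
    apply soc hci (val_hom w φ) he.ne
    intro v
    have := add_mem (hrel v φ) (hp (scl φ (Λ v)))
    rwa [sub_add_cancel] at this
  have hΛ0 : Λ ≠ 0 := by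
    intro h0
    apply hw
    apply val_zero_of
    intro φ
    apply soc hci (val_hom w φ) he.ne
    intro v
    have := hrel v φ
    rw [h0] at this
    have h1 : val (J W 𝓛) p (scl φ ((0 : (Fin n → F) →ₗ[F] L) v)) = 0 := by
      simp [val, scl_apply, el]
    rwa [h1, sub_zero] at this
  apply hΛ0
  obtain ⟨u, hu⟩ : ∃ u, Λ u ≠ 0 := by
    by_contra hcon
    push Not at hcon
    exact hΛ0 (LinearMap.ext hcon)
  have hrel2 : ∀ v φ, lin v * val (J W 𝓛) w φ - lin u * val (J W 𝓛) w (scl φ (Λ v / Λ u)) ∈ (J W 𝓛) := by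
    intro v φ
    have h1 := hrel v φ
    have h2 := hrel u (scl φ (Λ v / Λ u))
    rw [scl_scl, div_mul_cancel₀ _ hu] at h2
    have := sub_mem h1 h2
    convert this using 1
    ring
  have hrel3 : ∀ (l : List (Fin n → F)) (φ : L →ₗ[F] F), pr l * val (J W 𝓛) w φ -
      lin u ^ l.length * val (J W 𝓛) w (scl φ (l.map fun v => Λ v / Λ u).prod) ∈ (J W 𝓛) := by
    intro l
    induction l with
    | nil => intro φ; simp [scl_one]
    | cons v l ih =>
      intro φ
      rw [pr_cons, List.length_cons, List.map_cons, List.prod_cons, ← scl_scl]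
      have h1 := Ideal.mul_mem_left _ (pr l) (hrel2 v φ)
      have h2 := Ideal.mul_mem_left _ (lin u) (ih (scl φ (Λ v / Λ u)))
      have := add_mem h1 h2
      convert this using 1
      ring
  obtain ⟨φ0, hφ0⟩ : ∃ φ0, lin u ^ (sg 𝓛 - e) * val (J W 𝓛) w φ0 ∉ (J W 𝓛) := by
    by_contra hcon
    push Not at hcon
    apply hw
    apply val_zero_of
    intro φ
    apply soc_iter hci (sg 𝓛 - e) (val_hom w φ) (by omega)
    intro l hl
    have h1 := hrel3 l φ
    rw [hl] at h1
    have := add_mem h1 (hcon (scl φ (l.map fun v => Λ v / Λ u).prod))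
    rwa [sub_add_cancel] at this
  apply transversal_top Λ hci
  · intro v hv
    rw [LinearMap.mem_ker]
    by_contra hv0
    apply hp
    intro φ
    have h1 := hrel v (scl φ (Λ v)⁻¹)
    rw [scl_scl, inv_mul_cancel₀ hv0, scl_one] at h1
    have h2 : lin v * val (J W 𝓛) w (scl φ (Λ v)⁻¹) ∈ (J W 𝓛) := Ideal.mul_mem_right _ _ (lin_mem_J hv)
    have := sub_mem h2 h1
    rwa [sub_sub_cancel] at this
  · intro l hl
    by_contra hcon
    push Not at hcon
    apply hφ0
    set c := (l.map fun v => Λ v / Λ u).prod with hc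
    have hc0 : c ≠ 0 := by
      rw [hc]
      apply List.prod_ne_zero
      rw [List.mem_map]
      rintro ⟨v, hv, h0⟩
      exact div_ne_zero (hcon v hv) hu h0
    have h1 := hrel3 l (scl φ0 c⁻¹)
    rw [← hc, scl_scl, inv_mul_cancel₀ hc0, scl_one] at h1
    have h2 : pr l * val (J W 𝓛) w (scl φ0 c⁻¹) ∈ (J W 𝓛) := Ideal.mul_mem_right _ _ (pr_mem_J hl)
    have h3 := sub_mem h2 h1
    rw [sub_sub_cancel] at h3
    have h4 := hlen l hl
    have h5 := Ideal.mul_mem_left _ (lin u ^ (sg 𝓛 - e - l.length)) h3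
    rw [← mul_assoc, ← pow_add] at h5
    convert h5 using 3
    omega

end point

theorem flatD {𝓛 : List (List (Fin n → F))} {W : Submodule F (Fin n → F)} (hci : CI W 𝓛)
    {e t : ℕ} {l : List (Fin n → F)} (hl : l ∈ 𝓛) (hlen : e + t < l.length) :
    ∃ μ, LI (J W 𝓛) μ t e := by
  classical
  obtain ⟨v, hv⟩ := List.exists_mem_of_ne_nil l (hci.1 l hl)
  have hperm := List.perm_cons_erase hl
  have hci' := hci.perm hperm
  have hnv := hci'.2.1 v hv
  refine ⟨v, ?_⟩
  rw [J_perm hperm]
  intro p hp hmem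
  have hh : (lin v ^ t * p).IsHomogeneous (e + t) := by
    have := ((lin_isHomogeneous v).pow t).mul hp
    rwa [one_mul, add_comm] at this
  have h1 := cons_hom_lt hh hmem hlen
  apply J_mono_cons
  clear hmem hh
  induction t with
  | zero => simpa using h1
  | succ t ih =>
    apply ih (by omega)
    apply nzd hci'.1.tail hnv.1 hnv.2
    rw [← mul_assoc, ← pow_succ']
    exact h1

theorem engineD [CharZero F] {𝓛 : List (List (Fin n → F))} {W : Submodule F (Fin n → F)}
    (hci : CI W 𝓛) {e t : ℕ} (ht : 1 ≤ t) (het : 2 * e + t + 1 ≤ sg 𝓛)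
    (h1 : ∃ ν, LI (J W 𝓛) ν 1 e) (h2 : ∃ ν, KD (J W 𝓛) ν t (e + 1)) :
    ∃ μ, LI (J W 𝓛) μ (t + 1) e := by
  classical
  by_cases hlen : ∀ l ∈ 𝓛, l.length ≤ sg 𝓛 - e
  · by_contra hcon
    set I := J W 𝓛 with hI
    obtain ⟨ν1, h1⟩ := h1
    obtain ⟨ν2, h2⟩ := h2
    -- injectivity of the generic pencil
    have hA : Inj (pen (Xi I e)) := by
      rw [LI_iff] at h1
      have h3 : Inj ((GP I e).map (aeval ν1 : MvPolynomial (Fin n) F →ₐ[F] F)) := by
        rw [GP, Pm_map]
        have h4 : Pw I ν1 e 1 = Pm I ν1 e := by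
          rw [Pw, Pw, Matrix.mul_one]
          rfl
        rw [h4] at h1
        convert h1 using 2
        funext l
        simp
      obtain ⟨Q, -, hQ⟩ := inj_of_specialization _ h3
      exact hQ
    have hB : KDm (GW I (e + 1) t) := by
      rw [KD_iff] at h2
      apply KDm_of_specialization (aeval ν2 : MvPolynomial (Fin n) F →ₐ[F] F)
      rw [GW, Pw_map]
      convert h2 using 2
      funext l
      simp
    by_cases hM : Inj (GW I (e + 1) t * GP I e)
    · apply hcon
      obtain ⟨d, B, hd, hB⟩ := hM.exists_scaled_left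
      obtain ⟨μ, hμ⟩ : ∃ μ : Fin n → F, eval μ d ≠ 0 := by
        by_contra hc
        push Not at hc
        apply hd
        apply MvPolynomial.funext
        intro x
        rw [hc x, map_zero]
      have h3 := inj_map_of_scaled_left (eval μ) hB hμ
      refine ⟨μ, ?_⟩
      intro p hp hmem
      rw [← co_eq_zero_iff hp]
      apply h3
      have h4 : (GW I (e + 1) t * GP I e).map (eval μ) = Pw I μ (e + 1) t * Pm I μ e := by
        rw [Matrix.map_mul]
        have h5 := Pw_map (I := I) (aeval μ : MvPolynomial (Fin n) F →ₐ[F] F) X (e + 1) t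
        have h6 := Pm_map (I := I) (aeval μ : MvPolynomial (Fin n) F →ₐ[F] F) X e
        have h7 : (fun l => (aeval μ : MvPolynomial (Fin n) F →ₐ[F] F) (X l)) = μ := by
          funext l
          simp
        rw [h7] at h5 h6
        rw [← h5, ← h6]
        rfl
      have hh : (lin μ * p).IsHomogeneous (e + 1) := by
        rw [add_comm]; exact (lin_isHomogeneous μ).mul hp
      rw [h4, ← Matrix.mulVec_mulVec, ← co_mul_lin μ hp, ← co_mul_lin_pow μ t hh,
        co_eq_zero_iff]
      · rw [← mul_assoc, ← pow_succ]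
        exact hmem
      · have := ((lin_isHomogeneous μ).pow t).mul hh
        rwa [one_mul, add_comm t] at this
    · rw [Inj] at hM
      push Not at hM
      obtain ⟨w0, hw0, hw0'⟩ := hM
      obtain ⟨L, _, _, w, p, lam, hw, h3⟩ := engineD_pure (Xi I e) (GW I (e + 1) t) t ht (by
        intro l w
        rw [← GP_eq_pen, Matrix.mulVec_mulVec, GW_pderiv, Matrix.smul_mulVec,
          Matrix.mulVec_mulVec]) hA hB hw0' (by
        rw [← GP_eq_pen, Matrix.mulVec_mulVec]
        exact hw0)
      exact hw (point_obs hci (by omega) hlen h3)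
  · push Not at hlen
    obtain ⟨l, hl, hl2⟩ := hlen
    exact flatD hci hl (by omega)

end Pool.Agent.LefProd
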