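import Pool.Agent.LefProd.EngineT

/-!
Four variables with two quadrics (SLP), five variables with three quadrics (WLP), and the even
steps to five and six variables.
-/

set_option autoImplicit false
set_option linter.unusedSectionVars false

namespace Pool.Agent.LefProd

open MvPolynomial

universe u

variable {F : Type u} [Field F] {n : ℕ}

/-- two variables: kernel of dimension at most two one step further -/
theorem two_ET [CharZero F] {𝓛 : List (List (Fin n → F))} {W : Submodule F (Fin n → F)}
    (hW : Module.finrank F W + 2 = n) (hci : CI W 𝓛) {m j : ℕ} (h : 2 * j + m ≤ sg 𝓛 + 2) :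
    ET (J W 𝓛) m j := by
  have : Infinite F := CharZero.infinite F
  cases 𝓛 with
  | nil =>
    exfalso
    have := hci.2.2
    simp at this
    omega
  | cons l 𝓛 =>
    cases l with
    | nil => exact absurd rfl (hci.1 [] List.mem_cons_self)
    | cons v g =>
      rw [sg_cons, List.length_cons] at h
      have hW'' : Module.finrank F ↥(W ⊔ Submodule.span F {v}) + 1 = n := by
        rw [finrank_sup hci.2.1.head.1]; omega
      by_cases hg : g = []
      · subst hg
        rw [J_singleton_cons]
        exact (one_EK hW'' _ _).et
      · have hgl : 1 ≤ g.length := List.length_pos_iff.2 hg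
        apply stepKKT hci
        · intro hj
          apply two_EK hW (hci.tail_list hg)
          rw [sg_cons]
          omega
        · exact one_EK hW'' _ _

/-- three variables, one quadric: kernel of dimension at most two just above the middle -/
theorem three_quadric_ET [CharZero F] {𝓛 : List (List (Fin n → F))} {W : Submodule F (Fin n → F)}
    (hW : Module.finrank F W + 3 = n) {l : List (Fin n → F)} (hl : l.length ≤ 2)
    (hci : CI W (l :: 𝓛)) {m j : ℕ} (h : 2 * j + m ≤ sg (l :: 𝓛) + 1) :
    ET (J W (l :: 𝓛)) m j := by
  have : Infinite F := CharZero.infinite F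
  cases l with
  | nil => exact absurd rfl (hci.1 [] List.mem_cons_self)
  | cons v g =>
    rw [sg_cons, List.length_cons] at h
    rw [List.length_cons] at hl
    have hW'' : Module.finrank F ↥(W ⊔ Submodule.span F {v}) + 2 = n := by
      rw [finrank_sup hci.2.1.head.1]; omega
    by_cases hg : g = []
    · subst hg
      rw [J_singleton_cons]
      exact (two_EK hW'' hci.sup (by simp at h; omega)).et
    · obtain ⟨w, rfl⟩ : ∃ w, g = [w] := by
        apply List.length_eq_one_iff.1
        have := List.length_pos_iff.2 hg
        omega
      have hci' := hci.tail_list hg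
      have hs' : CI (W ⊔ Submodule.span F {w}) 𝓛 := CI.sup hci'
      have hW' : Module.finrank F ↥(W ⊔ Submodule.span F {w}) + 2 = n := by
        rw [finrank_sup hci'.2.1.head.1]; omega
      simp only [List.length_cons, List.length_nil, zero_add, Nat.add_sub_cancel] at h
      apply stepLKT hci
      · intro hj
        rw [J_singleton_cons]
        exact two_EX hW' hs' (by omega)
      · exact two_ET hW'' hci.sup (by omega)

/-- three variables: kernel of dimension at most two of a linear form just above the middle -/
theorem three_ET [CharZero F] {𝓛 : List (List (Fin n → F))} {W : Submodule F (Fin n → F)}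
    (hW : Module.finrank F W + 3 = n) (hci : CI W 𝓛) {j : ℕ} (h : 2 * j ≤ sg 𝓛 + 1) :
    ET (J W 𝓛) 1 j := by
  have : Infinite F := CharZero.infinite F
  cases 𝓛 with
  | nil =>
    exfalso
    have := hci.2.2
    simp at this
    omega
  | cons l 𝓛 =>
    cases l with
    | nil => exact absurd rfl (hci.1 [] List.mem_cons_self)
    | cons v g =>
      rw [sg_cons, List.length_cons] at h
      have hW'' : Module.finrank F ↥(W ⊔ Submodule.span F {v}) + 2 = n := by
        rw [finrank_sup hci.2.1.head.1]; omega
      by_cases hg : g = []
      · subst hg
        rw [J_singleton_cons]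
        exact (two_EK1 hW'' hci.sup _).et
      · have hgl : 1 ≤ g.length := List.length_pos_iff.2 hg
        have hs' : sg (g :: 𝓛) = g.length - 1 + sg 𝓛 := sg_cons _ _
        apply stepKKT hci
        · intro hj
          exact three_EK hW (hci.tail_list hg) (by omega)
        · exact two_EK1 hW'' hci.sup _

/-- four variables, two quadrics: SLP -/
theorem four_slp [CharZero F] {𝓛 : List (List (Fin n → F))} {W : Submodule F (Fin n → F)}
    (hW : Module.finrank F W + 4 = n) {l l2 : List (Fin n → F)} (hl : l.length ≤ 2)
    (hl2 : l2.length ≤ 2) (hci : CI W (l :: l2 :: 𝓛)) {m j : ℕ}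
    (h : 2 * j + m ≤ sg (l :: l2 :: 𝓛)) :
    EX (J W (l :: l2 :: 𝓛)) m j := by
  have : Infinite F := CharZero.infinite F
  cases l with
  | nil => exact absurd rfl (hci.1 [] List.mem_cons_self)
  | cons v g =>
    rw [sg_cons, List.length_cons] at h
    rw [List.length_cons] at hl
    have hW'' : Module.finrank F ↥(W ⊔ Submodule.span F {v}) + 3 = n := by
      rw [finrank_sup hci.2.1.head.1]; omega
    by_cases hg : g = []
    · subst hg
      rw [J_singleton_cons]
      exact three_slp hW'' hl2 hci.sup (by simp only [List.length_nil] at h; omega)
    · obtain ⟨w, rfl⟩ : ∃ w, g = [w] := by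
        apply List.length_eq_one_iff.1
        have := List.length_pos_iff.2 hg
        omega
      have hci' := hci.tail_list hg
      have hs' : CI (W ⊔ Submodule.span F {w}) (l2 :: 𝓛) := CI.sup hci'
      have hW' : Module.finrank F ↥(W ⊔ Submodule.span F {w}) + 3 = n := by
        rw [finrank_sup hci'.2.1.head.1]; omega
      simp only [List.length_cons, List.length_nil, zero_add, Nat.add_sub_cancel] at h
      by_cases hm : m = 0
      · subst hm; exact EX.zero _ _
      · by_cases hmid : 2 * j + m ≤ sg (l2 :: 𝓛)
        · -- the kernel is zero
          apply stepG hci (by omega)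
          · intro hj
            rw [J_singleton_cons]
            exact three_slp hW' hl2 hs' (by omega)
          · rw [J_singleton_cons]
            exact three_slp hW' hl2 hs' (by omega)
          · intro hj
            rw [J_singleton_cons]
            exact three_slp hW' hl2 hs' (by omega)
          · intro hj
            rw [List.length_singleton] at hj ⊢
            exact three_slp hW'' hl2 hci.sup (by omega)
          · exact (three_slp hW'' hl2 hci.sup hmid).ek
        · by_cases hj : j = 0
          · subst hj
            apply stepG hci (by omega)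
            · intro hj; omega
            · rw [J_singleton_cons]
              exact three_slp hW' hl2 hs' (by omega)
            · intro hj; omega
            · intro hj
              rw [List.length_singleton] at hj
              omega
            · -- degree zero is one-dimensional
              refine ⟨0, ?_⟩
              intro p q hp hq _ _
              obtain ⟨c, hc⟩ : ∃ c : F, p = C c :=
                ⟨_, (totalDegree_eq_zero_iff_eq_C).1 ((totalDegree_zero_iff_isHomogeneous _).2 hp)⟩
              obtain ⟨d, hd⟩ : ∃ d : F, q = C d :=
                ⟨_, (totalDegree_eq_zero_iff_eq_C).1 ((totalDegree_zero_iff_isHomogeneous _).2 hq)⟩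
              apply Dep.of_mul (r := 1) (c := c) (d := d)
              · rw [hc]; simp
              · rw [hd]; simp
          · apply stepT hci (by omega) (by omega) (by omega)
            · rw [J_singleton_cons]
              exact three_slp hW' hl2 hs' (by omega)
            · rw [J_singleton_cons]
              exact three_slp hW' hl2 hs' (by omega)
            · rw [J_singleton_cons]
              exact three_slp hW' hl2 hs' (by omega)
            · exact three_slp hW'' hl2 hci.sup (by omega)
            · exact three_quadric_ET hW'' hl2 hci.sup (by omega)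
            · exact three_slp hW'' hl2 hci.sup (by omega)
            · exact three_slp hW'' hl2 hci.sup (by omega)

/-- four variables, one quadric: kernel of dimension at most two in the middle -/
theorem four_ET [CharZero F] {𝓛 : List (List (Fin n → F))} {W : Submodule F (Fin n → F)}
    (hW : Module.finrank F W + 4 = n) {l : List (Fin n → F)} (hl : l.length ≤ 2)
    (hci : CI W (l :: 𝓛)) {j : ℕ} (h : 2 * j ≤ sg (l :: 𝓛)) :
    ET (J W (l :: 𝓛)) 1 j := by
  have : Infinite F := CharZero.infinite F
  cases l with
  | nil => exact absurd rfl (hci.1 [] List.mem_cons_self)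
  | cons v g =>
    rw [sg_cons, List.length_cons] at h
    rw [List.length_cons] at hl
    have hW'' : Module.finrank F ↥(W ⊔ Submodule.span F {v}) + 3 = n := by
      rw [finrank_sup hci.2.1.head.1]; omega
    by_cases hg : g = []
    · subst hg
      rw [J_singleton_cons]
      exact three_ET hW'' hci.sup (by simp only [List.length_nil] at h; omega)
    · obtain ⟨w, rfl⟩ : ∃ w, g = [w] := by
        apply List.length_eq_one_iff.1
        have := List.length_pos_iff.2 hg
        omega
      have hci' := hci.tail_list hg
      have hs' : CI (W ⊔ Submodule.span F {w}) 𝓛 := CI.sup hci'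
      have hW' : Module.finrank F ↥(W ⊔ Submodule.span F {w}) + 3 = n := by
        rw [finrank_sup hci'.2.1.head.1]; omega
      simp only [List.length_cons, List.length_nil, zero_add, Nat.add_sub_cancel] at h
      apply stepLKT hci
      · intro hj
        rw [J_singleton_cons]
        exact three_EX hW' hs' (by omega)
      · exact three_ET hW'' hci.sup (by omega)

/-- five variables, three quadrics: WLP -/
theorem five_wlp [CharZero F] {𝓛 : List (List (Fin n → F))} {W : Submodule F (Fin n → F)}
    (hW : Module.finrank F W + 5 = n) {l l2 l3 : List (Fin n → F)} (hl : l.length ≤ 2)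
    (hl2 : l2.length ≤ 2) (hl3 : l3.length ≤ 2) (hci : CI W (l :: l2 :: l3 :: 𝓛)) {j : ℕ}
    (h : 2 * j + 1 ≤ sg (l :: l2 :: l3 :: 𝓛)) :
    EX (J W (l :: l2 :: l3 :: 𝓛)) 1 j := by
  have : Infinite F := CharZero.infinite F
  cases l with
  | nil => exact absurd rfl (hci.1 [] List.mem_cons_self)
  | cons v g =>
    rw [sg_cons, List.length_cons] at h
    rw [List.length_cons] at hl
    have hW'' : Module.finrank F ↥(W ⊔ Submodule.span F {v}) + 4 = n := by
      rw [finrank_sup hci.2.1.head.1]; omega
    by_cases hg : g = []
    · subst hg
      rw [J_singleton_cons]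
      exact four_slp hW'' hl2 hl3 hci.sup (by simp only [List.length_nil] at h; omega)
    · obtain ⟨w, rfl⟩ : ∃ w, g = [w] := by
        apply List.length_eq_one_iff.1
        have := List.length_pos_iff.2 hg
        omega
      have hci' := hci.tail_list hg
      have hs' : CI (W ⊔ Submodule.span F {w}) (l2 :: l3 :: 𝓛) := CI.sup hci'
      have hW' : Module.finrank F ↥(W ⊔ Submodule.span F {w}) + 4 = n := by
        rw [finrank_sup hci'.2.1.head.1]; omega
      simp only [List.length_cons, List.length_nil, zero_add, Nat.add_sub_cancel] at h
      by_cases hmid : 2 * j + 1 ≤ sg (l2 :: l3 :: 𝓛)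
      · apply stepG hci le_rfl
        · intro hj
          rw [J_singleton_cons]
          exact four_slp hW' hl2 hl3 hs' (by omega)
        · exact EX.zero _ _
        · intro hj
          rw [J_singleton_cons]
          exact four_slp hW' hl2 hl3 hs' (by omega)
        · intro hj
          rw [List.length_singleton] at hj ⊢
          exact four_slp hW'' hl2 hl3 hci.sup (by omega)
        · exact (four_slp hW'' hl2 hl3 hci.sup hmid).ek
      · by_cases hj : j = 0
        · subst hj
          apply stepG hci le_rfl
          · intro hj; omega
          · exact EX.zero _ _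
          · intro hj; omega
          · intro hj
            rw [List.length_singleton] at hj
            omega
          · refine ⟨0, ?_⟩
            intro p q hp hq _ _
            obtain ⟨c, hc⟩ : ∃ c : F, p = C c :=
              ⟨_, (totalDegree_eq_zero_iff_eq_C).1 ((totalDegree_zero_iff_isHomogeneous _).2 hp)⟩
            obtain ⟨d, hd⟩ : ∃ d : F, q = C d :=
              ⟨_, (totalDegree_eq_zero_iff_eq_C).1 ((totalDegree_zero_iff_isHomogeneous _).2 hq)⟩
            apply Dep.of_mul (r := 1) (c := c) (d := d)
            · rw [hc]; simp
            · rw [hd]; simp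
        · apply stepT hci le_rfl (by omega) (by omega)
          · rw [J_singleton_cons]
            exact four_slp hW' hl2 hl3 hs' (by omega)
          · exact EX.zero _ _
          · rw [J_singleton_cons]
            exact four_slp hW' hl2 hl3 hs' (by omega)
          · exact four_slp hW'' hl2 hl3 hci.sup (by omega)
          · exact four_ET hW'' hl2 hci.sup (by omega)
          · exact EX.zero _ _
          · exact four_slp hW'' hl2 hl3 hci.sup (by omega)

/-- the even step: a quadric in front of a class with WLP, even socle degree -/
theorem even_step [CharZero F] {𝓛 : List (List (Fin n → F))} {W : Submodule F (Fin n → F)}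
    {l : List (Fin n → F)} (hl : l.length ≤ 2) (hci : CI W (l :: 𝓛))
    (H : ∀ v ∈ l, ∀ j, 2 * j + 1 ≤ sg 𝓛 → EX (J (W ⊔ Submodule.span F {v}) 𝓛) 1 j)
    (hev : Even (sg (l :: 𝓛)) ∨ l.length = 1) {j : ℕ} (h : 2 * j + 1 ≤ sg (l :: 𝓛)) :
    EX (J W (l :: 𝓛)) 1 j := by
  have : Infinite F := CharZero.infinite F
  cases l with
  | nil => exact absurd rfl (hci.1 [] List.mem_cons_self)
  | cons v g =>
    rw [sg_cons, List.length_cons] at h
    rw [sg_cons, List.length_cons] at hev
    rw [List.length_cons] at hl
    by_cases hg : g = []
    · subst hg
      rw [J_singleton_cons]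
      exact H v List.mem_cons_self _ (by simp only [List.length_nil] at h; omega)
    · obtain ⟨w, rfl⟩ : ∃ w, g = [w] := by
        apply List.length_eq_one_iff.1
        have := List.length_pos_iff.2 hg
        omega
      simp only [List.length_cons, List.length_nil, zero_add, Nat.add_sub_cancel] at h hev
      have hev' : Even (1 + sg 𝓛) := hev.resolve_right (by omega)
      obtain ⟨k, hk⟩ := hev'
      have Hv := H v List.mem_cons_self
      have Hw := H w (by simp)
      apply stepG hci le_rfl
      · intro hj
        rw [J_singleton_cons]
        exact Hw _ (by omega)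
      · exact EX.zero _ _
      · intro hj
        rw [J_singleton_cons]
        have e1 := Hw (j - 1) (by omega)
        have e2 := Hw (j - 1 + 1) (by omega)
        exact e1.comp e2
      · intro hj
        exact Hv _ (by omega)
      · exact (Hv _ (by omega)).ek

/-- five variables, two quadrics, even socle degree: WLP -/
theorem five_even [CharZero F] {𝓛 : List (List (Fin n → F))} {W : Submodule F (Fin n → F)}
    (hW : Module.finrank F W + 5 = n) {l l2 : List (Fin n → F)} (hl : l.length ≤ 2)
    (hl2 : l2.length ≤ 2) (hci : CI W (l :: l2 :: 𝓛))
    (hev : Even (sg (l :: l2 :: 𝓛))) {j : ℕ} (h : 2 * j + 1 ≤ sg (l :: l2 :: 𝓛)) :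
    EX (J W (l :: l2 :: 𝓛)) 1 j := by
  refine even_step hl hci ?_ (Or.inl hev) h
  intro v hv j hj
  have h1 := hci.2.1 v hv
  refine four_quadric ?_ hl2 ⟨hci.1.tail, h1.2, ?_⟩ hj
  · rw [finrank_sup h1.1]; omega
  · rw [finrank_sup h1.1]
    have := hci.2.2
    rw [List.length_cons] at this
    omega

/-- six variables, four quadrics, even socle degree: WLP -/
theorem six_even [CharZero F] {𝓛 : List (List (Fin n → F))} {W : Submodule F (Fin n → F)}
    (hW : Module.finrank F W + 6 = n) {l l2 l3 l4 : List (Fin n → F)} (hl : l.length ≤ 2)
    (hl2 : l2.length ≤ 2) (hl3 : l3.length ≤ 2) (hl4 : l4.length ≤ 2)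
    (hci : CI W (l :: l2 :: l3 :: l4 :: 𝓛))
    (hev : Even (sg (l :: l2 :: l3 :: l4 :: 𝓛))) {j : ℕ}
    (h : 2 * j + 1 ≤ sg (l :: l2 :: l3 :: l4 :: 𝓛)) :
    EX (J W (l :: l2 :: l3 :: l4 :: 𝓛)) 1 j := by
  refine even_step hl hci ?_ (Or.inl hev) h
  intro v hv j hj
  have h1 := hci.2.1 v hv
  refine five_wlp ?_ hl2 hl3 hl4 ⟨hci.1.tail, h1.2, ?_⟩ hj
  · rw [finrank_sup h1.1]; omega
  · rw [finrank_sup h1.1]
    have := hci.2.2
    rw [List.length_cons] at this
    omega

end Pool.Agent.LefProd
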