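import Pool.Agent.LefProd.Open

/-!
The divisor argument: a one-dimensional kernel of `μ ^ (m-1)` together with a kernel of `μ ^ m`
one degree lower produces, over the function field of a divisor, a nonzero element `w` such that
all `x w` (`x` a linear form) are proportional.
-/

set_option autoImplicit false
set_option linter.unusedSectionVars false

namespace Pool.Agent.LefProd

open MvPolynomial

universe u

lemma exists_prim {T : Type*} [CommRing T] [IsDomain T] [UniqueFactorizationMonoid T]
    {κ : Type*} [Fintype κ] {v : κ → T} (hv : v ≠ 0) :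
    ∃ (D : T) (p : κ → T), D ≠ 0 ∧ v = D • p ∧ ∀ a b : T, (∀ k, a ∣ b * p k) → a ∣ b := by
  classical
  let _ : StrongNormalizationMonoid T := UniqueFactorizationMonoid.strongNormalizationMonoid
  let _ : NormalizedGCDMonoid T := UniqueFactorizationMonoid.toNormalizedGCDMonoid T
  obtain ⟨k0, hk0⟩ := Function.ne_iff.1 hv
  obtain ⟨g, hg, hg1⟩ := Finset.extract_gcd v (s := Finset.univ) ⟨k0, Finset.mem_univ _⟩
  refine ⟨Finset.univ.gcd v, g, ?_, ?_, ?_⟩
  · intro h
    rw [Finset.gcd_eq_zero_iff] at h
    exact hk0 (h k0 (Finset.mem_univ _))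
  · funext k
    exact hg k (Finset.mem_univ _)
  · intro a b h
    have h1 : a ∣ Finset.univ.gcd fun k => b * g k := Finset.dvd_gcd fun k _ => h k
    have h2 := (Finset.gcd_mul_left' Finset.univ g b).dvd
    rw [hg1, mul_one] at h2
    exact h1.trans h2

section degree

variable {F : Type u} [Field F] {n : ℕ}

lemma hc_pderiv (l : Fin n) (f : MvPolynomial (Fin n) F) (i : ℕ) :
    homogeneousComponent i (pderiv l f) = pderiv l (homogeneousComponent (i + 1) f) := by
  classical
  induction f using MvPolynomial.induction_on' with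
  | monomial d c =>
    rw [pderiv_monomial, homogeneousComponent_of_mem (isHomogeneous_monomial _ rfl),
      homogeneousComponent_of_mem (isHomogeneous_monomial _ rfl)]
    by_cases hd : d l = 0
    · rw [hd]
      split_ifs
      · simp [pderiv_monomial, hd]
      · simp
      · simp [pderiv_monomial, hd]
      · simp
    · have h1 : (d - Finsupp.single l 1) + Finsupp.single l 1 = d := by
        apply tsub_add_cancel_of_le
        rw [Finsupp.single_le_iff]
        omega
      have h2 : (d - Finsupp.single l 1).degree + 1 = d.degree := by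
        conv_rhs => rw [← h1]
        rw [map_add, Finsupp.degree_single]
      split_ifs with h3 h4 h4
      · rw [pderiv_monomial]
      · omega
      · omega
      · simp
  | add p q hp hq => rw [map_add, map_add, map_add, map_add, hp, hq]

lemma coeff_X_mul_pderiv (l : Fin n) (f : MvPolynomial (Fin n) F) (d : Fin n →₀ ℕ) :
    coeff d (X l * pderiv l f) = (d l : F) * coeff d f := by
  classical
  induction f using MvPolynomial.induction_on' with
  | monomial e c =>
    rw [pderiv_monomial]
    by_cases he : e l = 0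
    · rw [he]
      simp only [Nat.cast_zero, mul_zero, map_zero, coeff_zero, coeff_monomial]
      split_ifs with h
      · rw [← h, he]; simp
      · simp
    · have h1 : Finsupp.single l 1 + (e - Finsupp.single l 1) = e := by
        apply add_tsub_cancel_of_le
        rw [Finsupp.single_le_iff]
        omega
      rw [X, monomial_mul, one_mul, h1, coeff_monomial, coeff_monomial]
      split_ifs with h
      · rw [h]; ring
      · simp
  | add p q hp hq =>
    rw [map_add, mul_add, coeff_add, coeff_add, hp, hq]; ring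

lemma eq_zero_of_euler [CharZero F] {t : ℕ} (ht : 1 ≤ t) {f : MvPolynomial (Fin n) F}
    (h : (t : MvPolynomial (Fin n) F) * f + ∑ l, X l * pderiv l f = 0) : f = 0 := by
  ext d
  have h1 := congrArg (coeff d) h
  rw [coeff_add, coeff_sum] at h1
  simp only [coeff_X_mul_pderiv] at h1
  have h2 : (t : MvPolynomial (Fin n) F) = C (t : F) := by simp
  rw [h2, coeff_C_mul, ← Finset.sum_mul, ← add_mul, coeff_zero] at h1
  rw [coeff_zero]
  refine (mul_eq_zero.1 h1).resolve_left ?_
  rw [← Nat.cast_sum, ← Nat.cast_add]
  exact Nat.cast_ne_zero.2 (by omega)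

lemma hc_totalDegree_ne_zero {f : MvPolynomial (Fin n) F} (hf : f ≠ 0) :
    homogeneousComponent f.totalDegree f ≠ 0 := by
  obtain ⟨d, hd, hd2⟩ := Finset.exists_mem_eq_sup f.support (support_nonempty.2 hf)
    (fun s => s.sum fun _ e => e)
  intro h
  have h1 := congrArg (coeff d) h
  rw [coeff_homogeneousComponent, if_pos, coeff_zero] at h1
  · exact (mem_support_iff.1 hd) h1
  · rw [totalDegree, hd2]
    rfl

end degree

section engine

variable {F : Type u} [Field F] {n : ℕ} {ι κ ρ : Type*} [Fintype ι] [Fintype κ] [Fintype ρ]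
  [DecidableEq ι] [DecidableEq κ] [DecidableEq ρ]

/-- the pencil -/
noncomputable def pen (Y : Fin n → Matrix κ ι F) : Matrix κ ι (MvPolynomial (Fin n) F) :=
  ∑ l, (X l : MvPolynomial (Fin n) F) • (Y l).map C

lemma pen_mulVec (Y : Fin n → Matrix κ ι F) (w : ι → MvPolynomial (Fin n) F) (k : κ) :
    Matrix.mulVec (pen Y) w k = ∑ l, X l * Matrix.mulVec ((Y l).map C) w k := by
  rw [pen, Matrix.sum_mulVec, Finset.sum_apply]
  refine Finset.sum_congr rfl fun l _ => ?_
  rw [Matrix.smul_mulVec]
  rfl

lemma hc_const (M : Matrix κ ι F) (w : ι → MvPolynomial (Fin n) F) (k : κ) (e : ℕ) :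
    homogeneousComponent e (Matrix.mulVec (M.map C) w k) =
      Matrix.mulVec (M.map C) (fun i => homogeneousComponent e (w i)) k := by
  simp only [Matrix.mulVec, dotProduct, map_sum, Matrix.map_apply, homogeneousComponent_C_mul]

lemma pderiv_const (M : Matrix κ ι F) (w : ι → MvPolynomial (Fin n) F) (k : κ) (l : Fin n) :
    pderiv l (Matrix.mulVec (M.map C) w k) =
      Matrix.mulVec (M.map C) (fun i => pderiv l (w i)) k := by
  simp only [Matrix.mulVec, dotProduct, map_sum, Matrix.map_apply, pderiv_C_mul]

lemma pderiv_pen (Y : Fin n → Matrix κ ι F) (w : ι → MvPolynomial (Fin n) F) (k : κ)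
    (l : Fin n) : pderiv l (Matrix.mulVec (pen Y) w k) =
      Matrix.mulVec ((Y l).map C) w k + Matrix.mulVec (pen Y) (fun i => pderiv l (w i)) k := by
  classical
  rw [pen_mulVec, pen_mulVec, map_sum]
  have : ∀ l', pderiv l (X l' * Matrix.mulVec ((Y l').map C) w k) =
      (if l' = l then Matrix.mulVec ((Y l').map C) w k else 0) +
      X l' * Matrix.mulVec ((Y l').map C) (fun i => pderiv l (w i)) k := by
    intro l'
    rw [pderiv_mul, pderiv_const, pderiv_X, Pi.single_apply]
    congr 1
    split_ifs with h <;> simp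
  simp only [this]
  rw [Finset.sum_add_distrib]
  simp

lemma hc_pen (Y : Fin n → Matrix κ ι F) (w : ι → MvPolynomial (Fin n) F) (k : κ) (e : ℕ) :
    homogeneousComponent (e + 1) (Matrix.mulVec (pen Y) w k) =
      Matrix.mulVec (pen Y) (fun i => homogeneousComponent e (w i)) k := by
  rw [pen_mulVec, pen_mulVec, map_sum]
  refine Finset.sum_congr rfl fun l _ => ?_
  rw [hc_mul (isHomogeneous_X F l), if_pos (by omega), Nat.add_sub_cancel, hc_const]

theorem engineD_pure [CharZero F] (Y : Fin n → Matrix κ ι F)
    (B : Matrix ρ κ (MvPolynomial (Fin n) F)) (t : ℕ) (ht : 1 ≤ t)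
    (hcomm : ∀ (l : Fin n) (w : ι → MvPolynomial (Fin n) F),
      Matrix.mulVec (B.map (pderiv l)) (Matrix.mulVec (pen Y) w) =
        (t : MvPolynomial (Fin n) F) • Matrix.mulVec B (Matrix.mulVec ((Y l).map C) w))
    (hA : Inj (pen Y)) (hB : KDm B) {w0 : ι → MvPolynomial (Fin n) F} (hw0 : w0 ≠ 0)
    (hker : Matrix.mulVec B (Matrix.mulVec (pen Y) w0) = 0) :
    ∃ (L : Type u) (_ : Field L) (_ : Algebra F L) (w : ι → L) (p : κ → L) (lam : Fin n → L),
      w ≠ 0 ∧ ∀ l, Matrix.mulVec ((Y l).map (algebraMap F L)) w = lam l • p := by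
  classical
  -- primitive w
  obtain ⟨g, w, hg0, hgw, hw⟩ := exists_prim hw0
  have hwne : w ≠ 0 := by
    rintro rfl
    exact hw0 (by rw [hgw, smul_zero])
  have hkerw : Matrix.mulVec B (Matrix.mulVec (pen Y) w) = 0 := by
    rw [hgw, Matrix.mulVec_smul, Matrix.mulVec_smul] at hker
    exact (smul_eq_zero.1 hker).resolve_left hg0
  have hAw : Matrix.mulVec (pen Y) w ≠ 0 := fun h => hwne (hA w h)
  obtain ⟨D, p, hD0, hDp, hp⟩ := exists_prim hAw
  have hpne : p ≠ 0 := by
    rintro rfl
    exact hAw (by rw [hDp, smul_zero])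
  have hBp : Matrix.mulVec B p = 0 := by
    rw [hDp, Matrix.mulVec_smul] at hkerw
    exact (smul_eq_zero.1 hkerw).resolve_left hD0
  -- kernel vectors are multiples of p
  have hN : ∀ x : κ → (MvPolynomial (Fin n) F), Matrix.mulVec B x = 0 → ∃ N : (MvPolynomial (Fin n) F), x = N • p := by
    intro x hx
    obtain ⟨a, b, hab, h⟩ := hB x p hx hBp
    have ha : a ≠ 0 := by
      rintro rfl
      rw [zero_smul, zero_add] at h
      exact (smul_eq_zero.1 h).elim (fun hb => (hab.resolve_left (by simp)) hb) hpne
    have h1 : ∀ k, a ∣ b * p k := by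
      intro k
      have h2 := congrFun h k
      simp only [Pi.add_apply, Pi.smul_apply, smul_eq_mul, Pi.zero_apply] at h2
      refine ⟨-(x k), ?_⟩
      rw [mul_neg, eq_neg_iff_add_eq_zero, add_comm]
      exact h2
    obtain ⟨b', rfl⟩ := hp a b h1
    refine ⟨-b', ?_⟩
    have h3 : a • (x + b' • p) = 0 := by
      rw [smul_add, smul_smul]; exact h
    have h4 := (smul_eq_zero.1 h3).resolve_left ha
    rw [neg_smul]
    exact eq_neg_of_add_eq_zero_left h4
  -- the vectors u_l
  set dw : Fin n → ι → (MvPolynomial (Fin n) F) := fun l i => pderiv l (w i) with hdw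
  have hder : ∀ l, (fun k => pderiv l (Matrix.mulVec (pen Y) w k)) =
      Matrix.mulVec ((Y l).map C) w + Matrix.mulVec (pen Y) (dw l) := by
    intro l
    funext k
    rw [pderiv_pen]
    rfl
  have hu : ∀ l, Matrix.mulVec B (((t : (MvPolynomial (Fin n) F)) + 1) • Matrix.mulVec ((Y l).map C) w +
      Matrix.mulVec (pen Y) (dw l)) = 0 := by
    intro l
    have h1 : Matrix.mulVec (B.map (pderiv l)) (Matrix.mulVec (pen Y) w) +
        Matrix.mulVec B (fun k => pderiv l (Matrix.mulVec (pen Y) w k)) = 0 := by
      funext r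
      have h2 := congrArg (pderiv l) (congrFun hkerw r)
      rw [Pi.zero_apply, map_zero] at h2
      rw [Pi.add_apply, Pi.zero_apply, ← h2]
      conv_rhs => rw [Matrix.mulVec, dotProduct, map_sum]
      simp only [pderiv_mul]
      rw [Finset.sum_add_distrib]
      rfl
    rw [hcomm, hder] at h1
    rw [← h1, Matrix.mulVec_add, Matrix.mulVec_add, Matrix.mulVec_smul, add_smul, one_smul]
    abel
  choose N hNl using fun l => hN _ (hu l)
  by_cases hDu : IsUnit D
  · -- D is a unit
    exfalso
    obtain ⟨D', hD'⟩ := hDu.exists_left_inv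
    -- all u_l vanish
    have hdeg : ∃ d : ℕ, (fun i => homogeneousComponent d (w i)) ≠ 0 ∧
        ∀ e, d < e → ∀ i, homogeneousComponent e (w i) = 0 := by
      refine ⟨Finset.univ.sup fun i => (w i).totalDegree, ?_, ?_⟩
      · obtain ⟨i1, hi1⟩ := Function.ne_iff.1 hwne
        obtain ⟨i0, -, hi0⟩ := Finset.exists_mem_eq_sup Finset.univ ⟨i1, Finset.mem_univ _⟩
          (fun i => (w i).totalDegree)
        rw [hi0]
        intro h
        by_cases hz : w i0 = 0
        · rw [hz, totalDegree_zero] at hi0 h
          have h1 : (w i1).totalDegree = 0 := by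
            have := Finset.le_sup (f := fun i => (w i).totalDegree) (Finset.mem_univ i1)
            rw [hi0] at this
            exact Nat.le_zero.1 this
          have h2 := hc_totalDegree_ne_zero hi1
          rw [h1] at h2
          exact h2 (congrFun h i1)
        · exact hc_totalDegree_ne_zero hz (congrFun h i0)
      · intro e he i
        apply homogeneousComponent_eq_zero
        exact lt_of_le_of_lt (Finset.le_sup (f := fun i => (w i).totalDegree)
          (Finset.mem_univ i)) he
    obtain ⟨d, hd1, hd2⟩ := hdeg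
    have hAwd : Matrix.mulVec (pen Y) (fun i => homogeneousComponent d (w i)) ≠ 0 :=
      fun h => hd1 (hA _ h)
    obtain ⟨k0, hk0⟩ := Function.ne_iff.1 hAwd
    have hk1 : homogeneousComponent (d + 1) (Matrix.mulVec (pen Y) w k0) ≠ 0 := by
      rw [hc_pen]; exact hk0
    have hk2 : d + 1 ≤ (Matrix.mulVec (pen Y) w k0).totalDegree := by
      by_contra hcon
      exact hk1 (homogeneousComponent_eq_zero _ _ (by omega))
    have hk3 : Matrix.mulVec (pen Y) w k0 ≠ 0 := by
      intro h
      rw [h, map_zero] at hk1
      exact hk1 rfl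
    have hzero : ∀ l, ((t : (MvPolynomial (Fin n) F)) + 1) • Matrix.mulVec ((Y l).map C) w +
        Matrix.mulVec (pen Y) (dw l) = 0 := by
      intro l
      by_contra hne
      have hN0 : N l ≠ 0 := by
        intro h
        rw [hNl l, h, zero_smul] at hne
        exact hne rfl
      have hND : ((t : (MvPolynomial (Fin n) F)) + 1) • Matrix.mulVec ((Y l).map C) w +
          Matrix.mulVec (pen Y) (dw l) = (N l * D') • Matrix.mulVec (pen Y) w := by
        rw [hNl l, hDp, smul_smul, mul_assoc, hD', mul_one]
      have hD'0 : D' ≠ 0 := by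
        rintro rfl
        rw [zero_mul] at hD'
        exact zero_ne_one hD'
      have h1 := congrFun hND k0
      rw [Pi.smul_apply, smul_eq_mul] at h1
      have h2 := totalDegree_mul_of_isDomain (mul_ne_zero hN0 hD'0) hk3
      have h3 : (N l * D') * Matrix.mulVec (pen Y) w k0 ≠ 0 :=
        mul_ne_zero (mul_ne_zero hN0 hD'0) hk3
      have h4 := hc_totalDegree_ne_zero h3
      rw [h2] at h4
      obtain ⟨e, he⟩ : ∃ e, (N l * D').totalDegree + (Matrix.mulVec (pen Y) w k0).totalDegree
          = e + 1 := ⟨_, (Nat.succ_pred_eq_of_pos (by omega)).symm⟩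
      rw [he, ← h1] at h4
      apply h4
      have he1 : d ≤ e := by omega
      rw [Pi.add_apply, map_add, hc_pen, Pi.smul_apply, smul_eq_mul]
      have h5 : ((t : (MvPolynomial (Fin n) F)) + 1) = C ((t : F) + 1) := by simp
      rw [h5, homogeneousComponent_C_mul, hc_const]
      have h6 : (fun i => homogeneousComponent (e + 1) (w i)) = 0 := by
        funext i
        exact hd2 _ (by omega) i
      have h7 : (fun i => homogeneousComponent e (dw l i)) = 0 := by
        funext i
        rw [hdw, hc_pderiv, hd2 _ (by omega) i, map_zero]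
        rfl
      rw [h6, h7, Matrix.mulVec_zero, Matrix.mulVec_zero]
      simp
    -- Euler
    have hE : Matrix.mulVec (pen Y) (((t : (MvPolynomial (Fin n) F)) + 1) • w + ∑ l, (X l : (MvPolynomial (Fin n) F)) • dw l) = 0 := by
      rw [Matrix.mulVec_add, Matrix.mulVec_smul, Matrix.mulVec_sum]
      have h1 : ∑ l, (X l : (MvPolynomial (Fin n) F)) • (((t : (MvPolynomial (Fin n) F)) + 1) • Matrix.mulVec ((Y l).map C) w +
        Matrix.mulVec (pen Y) (dw l)) = 0 := Finset.sum_eq_zero fun l _ => by
          rw [hzero l, smul_zero]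
      rw [← h1]
      simp only [smul_add, Finset.sum_add_distrib, Matrix.mulVec_smul]
      congr 1
      rw [pen, Matrix.sum_mulVec, Finset.smul_sum]
      refine Finset.sum_congr rfl fun l _ => ?_
      rw [Matrix.smul_mulVec, smul_comm]
    have hE2 := hA _ hE
    apply hwne
    funext i
    have h1 := congrFun hE2 i
    simp only [Pi.add_apply, Pi.smul_apply, smul_eq_mul, Finset.sum_apply, Pi.zero_apply] at h1
    have h2 : ((t + 1 : ℕ) : (MvPolynomial (Fin n) F)) * w i + ∑ l, X l * pderiv l (w i) = 0 := by
      rw [← h1]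
      push_cast
      rfl
    exact eq_zero_of_euler (by omega) h2
  · -- a prime divisor of D
    obtain ⟨π, hπ, hπD⟩ := WfDvdMonoid.exists_irreducible_factor hDu hD0
    have hprime : Prime π := UniqueFactorizationMonoid.irreducible_iff_prime.1 hπ
    have : (Ideal.span {π}).IsPrime :=
      (Ideal.span_singleton_prime hprime.ne_zero).2 hprime
    let L := FractionRing ((MvPolynomial (Fin n) F) ⧸ Ideal.span {π})
    let q : (MvPolynomial (Fin n) F) →+* L := (algebraMap ((MvPolynomial (Fin n) F) ⧸ Ideal.span {π}) L).comp (Ideal.Quotient.mk _)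
    have hq : ∀ x, q x = 0 ↔ π ∣ x := by
      intro x
      rw [RingHom.comp_apply, map_eq_zero_iff _ (IsFractionRing.injective _ _),
        Ideal.Quotient.eq_zero_iff_mem, Ideal.mem_span_singleton]
    let _ : Algebra F L := (q.comp C).toAlgebra
    have hqC : ∀ x : F, algebraMap F L x = q (C x) := fun x => rfl
    have htL : q (t : (MvPolynomial (Fin n) F)) ≠ 0 := by
      have h1 : (t : (MvPolynomial (Fin n) F)) = C (t : F) := by simp
      rw [h1, ← hqC, Ne, map_eq_zero]
      exact Nat.cast_ne_zero.2 (by omega)
    refine ⟨L, inferInstance, inferInstance, fun i => q (w i), fun k => q (p k),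
      fun l => (q (N l) - q (pderiv l D)) / q (t : (MvPolynomial (Fin n) F)), ?_, ?_⟩
    · intro h
      apply hπ.not_isUnit
      apply isUnit_of_dvd_one
      apply hw π 1
      intro i
      rw [one_mul, ← hq]
      exact congrFun h i
    · intro l
      -- t X_l w = N p - dD p - D dp
      have h1 : ∀ k, (t : (MvPolynomial (Fin n) F)) * Matrix.mulVec ((Y l).map C) w k =
          (N l - pderiv l D) * p k - D * pderiv l (p k) := by
        intro k
        have h2 := congrFun (hNl l) k
        have h3 := congrFun (hder l) k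
        have h4 : pderiv l (Matrix.mulVec (pen Y) w k) = pderiv l D * p k + D * pderiv l (p k) := by
          rw [hDp, Pi.smul_apply, smul_eq_mul, pderiv_mul]
        simp only [Pi.add_apply, Pi.smul_apply, smul_eq_mul] at h2 h3
        rw [h4] at h3
        linear_combination h2 + h3
      funext k
      have h5 : Matrix.mulVec ((Y l).map (algebraMap F L)) (fun i => q (w i)) k =
          q (Matrix.mulVec ((Y l).map C) w k) := by
        simp only [Matrix.mulVec, dotProduct, map_sum, map_mul, Matrix.map_apply, hqC]
      rw [h5, Pi.smul_apply, smul_eq_mul, div_mul_eq_mul_div, eq_div_iff htL, ← map_mul, mul_comm,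
        h1 k, map_sub, map_mul, map_mul, (hq D).2 hπD, zero_mul, sub_zero, map_sub]

end engine

end Pool.Agent.LefProd
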