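import Pool.Agent.LefProd.Final
import Pool.Agent.LefProd.Types2

/-!
Final forms: lists whose first members have length at most two.
-/

set_option autoImplicit false
set_option linter.unusedSectionVars false

namespace Pool.Agent.LefProd

open MvPolynomial

universe u

variable {F : Type u} [Field F] {n : ℕ}

lemma exists_split {α : Type*} (p : α → Bool) (L : List α) (q : ℕ) (hq : q ≤ L.countP p) :
    ∃ Q R : List α, L.Perm (Q ++ R) ∧ Q.length = q ∧ ∀ x ∈ Q, p x = true := by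
  refine ⟨(L.filter p).take q, (L.filter p).drop q ++ L.filter (fun x => !p x), ?_, ?_, ?_⟩
  · rw [← List.append_assoc, List.take_append_drop]
    exact (List.filter_append_perm p L).symm
  · rw [List.length_take, ← List.countP_eq_length_filter]
    omega
  · intro x hx
    exact (List.mem_filter.1 (List.mem_of_mem_take hx)).2

lemma countP_ofFn {α : Type*} (L : Fin n → α) (p : α → Bool) :
    (List.ofFn L).countP p = (Finset.univ.filter fun i => p (L i) = true).card := by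
  classical
  rw [List.ofFn_eq_map, List.countP_map, List.countP_eq_length_filter]
  rw [← List.toFinset_card_of_nodup ((List.nodup_finRange n).filter _)]
  congr 1
  ext i
  simp

lemma sg_eq_sum (L : Fin n → List (Fin n → F)) :
    sg (List.ofFn L) = ∑ i, ((L i).length - 1) := by
  rw [sg, List.map_ofFn, List.sum_ofFn]
  rfl

theorem reduce_q (f : Fin n → MvPolynomial (Fin n) F) (a : Fin n → ℕ) (ha : ∀ i, 1 ≤ a i)
    (hf : ∀ i, ∃ ℓ : Fin (a i) → MvPolynomial (Fin n) F, (∀ j, (ℓ j).IsHomogeneous 1) ∧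
      f i = ∏ j, ℓ j)
    (hfin : Module.Finite F (MvPolynomial (Fin n) F ⧸ Ideal.span (Set.range f))) (q : ℕ)
    (hq : q ≤ (Finset.univ.filter fun i => a i ≤ 2).card) :
    ∃ 𝓠 𝓡 : List (List (Fin n → F)), 𝓠.length = q ∧ (∀ l ∈ 𝓠, l.length ≤ 2) ∧
      CI ⊥ (𝓠 ++ 𝓡) ∧ Ideal.span (Set.range f) = J ⊥ (𝓠 ++ 𝓡) ∧
      sg (𝓠 ++ 𝓡) = ∑ i, (a i - 1) := by
  classical
  obtain ⟨L, h1, h2, h3⟩ := reduce f a ha hf hfin
  obtain ⟨𝓠, 𝓡, hperm, hlen, hQ⟩ := exists_split
    (fun l : List (Fin n → F) => decide (l.length ≤ 2)) (List.ofFn L) q (by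
      rw [countP_ofFn]
      simpa [h1] using hq)
  refine ⟨𝓠, 𝓡, hlen, fun l hl => by simpa using hQ l hl, h2.perm hperm, ?_, ?_⟩
  · rw [h3, J_perm hperm]
  · rw [← sg_perm hperm, sg_eq_sum]
    simp only [h1]

lemma CI.finrank_add {𝓛 : List (List (Fin n → F))} {W : Submodule F (Fin n → F)}
    (h : CI W 𝓛) : Module.finrank F W + 𝓛.length = n := h.2.2

/-- three or four variables, at most two lists of length more than two -/
theorem slp_small [CharZero F] {𝓠 𝓡 : List (List (Fin n → F))} (hn : n = 3 ∨ n = 4)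
    (hlen : 𝓠.length + 2 = n) (hQ : ∀ l ∈ 𝓠, l.length ≤ 2) (hci : CI ⊥ (𝓠 ++ 𝓡)) {m j : ℕ}
    (h : 2 * j + m ≤ sg (𝓠 ++ 𝓡)) : EX (J ⊥ (𝓠 ++ 𝓡)) m j := by
  rcases hn with hn | hn
  · obtain ⟨l, rfl⟩ := List.length_eq_one_iff.1 (show 𝓠.length = 1 by omega)
    exact three_slp (by rw [finrank_bot]; omega) (hQ l (by simp)) hci h
  · obtain ⟨l, l2, rfl⟩ := List.length_eq_two.1 (show 𝓠.length = 2 by omega)
    exact four_slp (by rw [finrank_bot]; omega) (hQ l (by simp)) (hQ l2 (by simp)) hci h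

/-- at most two lists of length more than two, five or six variables -/
theorem wlp_two [CharZero F] {𝓠 𝓡 : List (List (Fin n → F))}
    (hn : n = 5 ∨ (n = 6 ∧ Even (sg (𝓠 ++ 𝓡))))
    (hlen : 𝓠.length + 2 = n) (hQ : ∀ l ∈ 𝓠, l.length ≤ 2) (hci : CI ⊥ (𝓠 ++ 𝓡)) {j : ℕ}
    (h : 2 * j + 1 ≤ sg (𝓠 ++ 𝓡)) : EX (J ⊥ (𝓠 ++ 𝓡)) 1 j := by
  rcases hn with hn | ⟨hn, hev⟩
  · obtain ⟨l, l2, l3, rfl⟩ := List.length_eq_three.1 (show 𝓠.length = 3 by omega)
    exact five_wlp (by rw [finrank_bot]; omega) (hQ l (by simp)) (hQ l2 (by simp))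
      (hQ l3 (by simp)) hci h
  · have h4 : 𝓠.length = 4 := by omega
    match 𝓠, h4 with
    | [l, l2, l3, l4], _ =>
      exact six_even (by rw [finrank_bot]; omega) (hQ l (by simp)) (hQ l2 (by simp))
        (hQ l3 (by simp)) (hQ l4 (by simp)) hci hev h

/-- at most three lists of length more than two, four or five variables -/
theorem wlp_three [CharZero F] {𝓠 𝓡 : List (List (Fin n → F))}
    (hn : n = 4 ∨ (n = 5 ∧ Even (sg (𝓠 ++ 𝓡))))
    (hlen : 𝓠.length + 3 = n) (hQ : ∀ l ∈ 𝓠, l.length ≤ 2) (hci : CI ⊥ (𝓠 ++ 𝓡)) {j : ℕ}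
    (h : 2 * j + 1 ≤ sg (𝓠 ++ 𝓡)) : EX (J ⊥ (𝓠 ++ 𝓡)) 1 j := by
  rcases hn with hn | ⟨hn, hev⟩
  · obtain ⟨l, rfl⟩ := List.length_eq_one_iff.1 (show 𝓠.length = 1 by omega)
    exact four_quadric (by rw [finrank_bot]; omega) (hQ l (by simp)) hci h
  · obtain ⟨l, l2, rfl⟩ := List.length_eq_two.1 (show 𝓠.length = 2 by omega)
    exact five_even (by rw [finrank_bot]; omega) (hQ l (by simp)) (hQ l2 (by simp)) hci hev h

end Pool.Agent.LefProd
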