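import Mathlib

/-!
Ideals generated by linear forms and products of linear forms; multiplication by an independent
linear form is injective modulo such an ideal, and the two colon ideals of a split generator.
-/

set_option autoImplicit false
set_option linter.unusedSectionVars false

namespace Pool.Agent.LefProd

open MvPolynomial

variable {F : Type*} [Field F] {n : ℕ}

/-- The linear form with coefficient vector `v`. -/
noncomputable def lin : (Fin n → F) →ₗ[F] MvPolynomial (Fin n) F :=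
  Fintype.linearCombination F X

lemma lin_apply (v : Fin n → F) : lin v = ∑ i, v i • (X i : MvPolynomial (Fin n) F) := rfl

lemma lin_single (i : Fin n) : lin (Pi.single i (1 : F)) = X i := by
  rw [lin_apply, Finset.sum_eq_single i]
  · simp
  · intro j _ hj
    simp [Pi.single_eq_of_ne hj]
  · simp

lemma lin_injective : Function.Injective (lin (F := F) (n := n)) := by
  rw [injective_iff_map_eq_zero]
  intro v hv
  funext i
  have := congrArg (coeff (Finsupp.single i 1)) hv
  rw [lin_apply, coeff_sum, Finset.sum_eq_single i] at this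
  · simpa [coeff_smul] using this
  · intro j _ hj
    rw [coeff_smul, coeff_X, if_neg, smul_zero]
    intro h
    exact hj (Finsupp.single_left_injective one_ne_zero h)
  · simp

lemma lin_isHomogeneous (v : Fin n → F) : (lin v).IsHomogeneous 1 := by
  rw [lin_apply]
  refine IsHomogeneous.sum _ _ _ fun i _ => ?_
  rw [smul_eq_C_mul]
  simpa using (isHomogeneous_C (Fin n) (v i)).mul (isHomogeneous_X F i)

/-- The product of the linear forms of a list. -/
noncomputable def pr (l : List (Fin n → F)) : MvPolynomial (Fin n) F := (l.map lin).prod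

@[simp] lemma pr_nil : pr ([] : List (Fin n → F)) = 1 := rfl

@[simp] lemma pr_cons (v : Fin n → F) (l : List (Fin n → F)) : pr (v :: l) = lin v * pr l := by
  simp [pr]

lemma pr_isHomogeneous (l : List (Fin n → F)) : (pr l).IsHomogeneous l.length := by
  induction l with
  | nil => simpa using isHomogeneous_one (Fin n) F
  | cons v l ih =>
    rw [pr_cons, List.length_cons, add_comm]
    exact (lin_isHomogeneous v).mul ih

/-- The ideal generated by the linear forms of `W` and the products of the lists in `𝓛`. -/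
noncomputable def J (W : Submodule F (Fin n → F)) (𝓛 : List (List (Fin n → F))) :
    Ideal (MvPolynomial (Fin n) F) :=
  Ideal.span (lin '' (W : Set (Fin n → F))) ⊔ Ideal.span (pr '' {l | l ∈ 𝓛})

lemma J_cons (W : Submodule F (Fin n → F)) (l : List (Fin n → F))
    (𝓛 : List (List (Fin n → F))) :
    J W (l :: 𝓛) = Ideal.span {pr l} ⊔ J W 𝓛 := by
  have : {l' | l' ∈ l :: 𝓛} = insert l {l' | l' ∈ 𝓛} := by
    ext l'
    simp
  rw [J, this, Set.image_insert_eq, Ideal.span_insert, J]
  simp only [sup_left_comm]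

lemma J_nil (W : Submodule F (Fin n → F)) :
    J W [] = Ideal.span (lin '' (W : Set (Fin n → F))) := by
  simp [J]

lemma J_perm {W : Submodule F (Fin n → F)} {𝓛 𝓛' : List (List (Fin n → F))}
    (h : 𝓛.Perm 𝓛') : J W 𝓛 = J W 𝓛' := by
  have : {l | l ∈ 𝓛} = {l | l ∈ 𝓛'} := by
    ext l
    simp [h.mem_iff]
  rw [J, J, this]

lemma lin_mem_J {W : Submodule F (Fin n → F)} {𝓛 : List (List (Fin n → F))} {v : Fin n → F}
    (hv : v ∈ W) : lin v ∈ J W 𝓛 :=
  Ideal.mem_sup_left (Ideal.subset_span ⟨v, hv, rfl⟩)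

lemma pr_mem_J {W : Submodule F (Fin n → F)} {𝓛 : List (List (Fin n → F))}
    {l : List (Fin n → F)} (hl : l ∈ 𝓛) : pr l ∈ J W 𝓛 :=
  Ideal.mem_sup_right (Ideal.subset_span ⟨l, hl, rfl⟩)

lemma J_le_iff {W : Submodule F (Fin n → F)} {𝓛 : List (List (Fin n → F))}
    {I : Ideal (MvPolynomial (Fin n) F)} :
    J W 𝓛 ≤ I ↔ (∀ v ∈ W, lin v ∈ I) ∧ ∀ l ∈ 𝓛, pr l ∈ I := by
  rw [J, sup_le_iff, Ideal.span_le, Ideal.span_le]
  constructor
  · rintro ⟨h1, h2⟩
    exact ⟨fun v hv => h1 ⟨v, hv, rfl⟩, fun l hl => h2 ⟨l, hl, rfl⟩⟩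
  · rintro ⟨h1, h2⟩
    exact ⟨by rintro _ ⟨v, hv, rfl⟩; exact h1 v hv, by rintro _ ⟨l, hl, rfl⟩; exact h2 l hl⟩

lemma J_sup_span (W : Submodule F (Fin n → F)) (v : Fin n → F)
    (𝓛 : List (List (Fin n → F))) :
    J (W ⊔ Submodule.span F {v}) 𝓛 = Ideal.span {lin v} ⊔ J W 𝓛 := by
  apply le_antisymm
  · rw [J_le_iff]
    constructor
    · intro u hu
      obtain ⟨w, hw, z, hz, rfl⟩ := Submodule.mem_sup.1 hu
      obtain ⟨c, rfl⟩ := Submodule.mem_span_singleton.1 hz
      rw [map_add, map_smul, smul_eq_C_mul]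
      exact add_mem (Ideal.mem_sup_right (lin_mem_J hw))
        (Ideal.mem_sup_left (Ideal.mul_mem_left _ _ (Ideal.subset_span rfl)))
    · intro l hl
      exact Ideal.mem_sup_right (pr_mem_J hl)
  · rw [sup_le_iff, Ideal.span_singleton_le_iff_mem, J_le_iff]
    refine ⟨lin_mem_J (Submodule.mem_sup_right (Submodule.mem_span_singleton_self v)), ?_, ?_⟩
    · intro w hw
      exact lin_mem_J (Submodule.mem_sup_left hw)
    · intro l hl
      exact pr_mem_J hl

lemma J_singleton_cons (W : Submodule F (Fin n → F)) (v : Fin n → F)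
    (𝓛 : List (List (Fin n → F))) :
    J W ([v] :: 𝓛) = J (W ⊔ Submodule.span F {v}) 𝓛 := by
  rw [J_cons, J_sup_span]
  simp

lemma mem_J_cons_iff {W : Submodule F (Fin n → F)} {l : List (Fin n → F)}
    {𝓛 : List (List (Fin n → F))} {p : MvPolynomial (Fin n) F} :
    p ∈ J W (l :: 𝓛) ↔ ∃ a, p - pr l * a ∈ J W 𝓛 := by
  rw [J_cons, Submodule.mem_sup]
  constructor
  · rintro ⟨y, hy, z, hz, rfl⟩
    obtain ⟨a, rfl⟩ := Ideal.mem_span_singleton.1 hy
    exact ⟨a, by simpa using hz⟩
  · rintro ⟨a, ha⟩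
    exact ⟨pr l * a, Ideal.mem_span_singleton.2 ⟨a, rfl⟩, _, ha, by ring⟩

lemma mem_J_sup_iff {W : Submodule F (Fin n → F)} {v : Fin n → F}
    {𝓛 : List (List (Fin n → F))} {p : MvPolynomial (Fin n) F} :
    p ∈ J (W ⊔ Submodule.span F {v}) 𝓛 ↔ ∃ a, p - lin v * a ∈ J W 𝓛 := by
  rw [← J_singleton_cons, mem_J_cons_iff]
  simp

/-- Every transversal of the lists in `𝓛` is linearly independent modulo `W`. -/
def Tr (W : Submodule F (Fin n → F)) : List (List (Fin n → F)) → Prop
  | [] => True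
  | l :: 𝓛 => ∀ v ∈ l, v ∉ W ∧ Tr (W ⊔ Submodule.span F {v}) 𝓛

lemma Tr.mono {W W' : Submodule F (Fin n → F)} (h : W ≤ W') :
    ∀ {𝓛 : List (List (Fin n → F))}, Tr W' 𝓛 → Tr W 𝓛
  | [], _ => trivial
  | _ :: _, H => fun v hv => ⟨fun hW => (H v hv).1 (h hW),
      Tr.mono (sup_le_sup_right h _) (H v hv).2⟩

lemma Tr.tail_list {W : Submodule F (Fin n → F)} {v : Fin n → F} {l : List (Fin n → F)}
    {𝓛 : List (List (Fin n → F))} (h : Tr W ((v :: l) :: 𝓛)) : Tr W (l :: 𝓛) :=
  fun u hu => h u (List.mem_cons_of_mem _ hu)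

lemma Tr.head {W : Submodule F (Fin n → F)} {v : Fin n → F} {l : List (Fin n → F)}
    {𝓛 : List (List (Fin n → F))} (h : Tr W ((v :: l) :: 𝓛)) :
    v ∉ W ∧ Tr (W ⊔ Submodule.span F {v}) 𝓛 :=
  h v List.mem_cons_self

/-- exchange -/
lemma not_mem_exchange {W : Submodule F (Fin n → F)} {u v : Fin n → F} (hv : v ∉ W)
    (hu : u ∉ W ⊔ Submodule.span F {v}) : v ∉ W ⊔ Submodule.span F {u} := by
  intro h
  obtain ⟨w, hw, z, hz, hwz⟩ := Submodule.mem_sup.1 h
  obtain ⟨c, rfl⟩ := Submodule.mem_span_singleton.1 hz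
  have hc : c ≠ 0 := by
    rintro rfl
    apply hv
    rw [← hwz]
    simpa using hw
  apply hu
  have : u = -(c⁻¹ • w) + c⁻¹ • v := by
    rw [← hwz, smul_add, smul_smul, inv_mul_cancel₀ hc]
    simp
  rw [this]
  exact add_mem (Submodule.mem_sup_left (neg_mem (W.smul_mem _ hw)))
    (Submodule.mem_sup_right (Submodule.smul_mem _ _ (Submodule.mem_span_singleton_self v)))

/-- all lists nonempty -/
def NE (𝓛 : List (List (Fin n → F))) : Prop := ∀ l ∈ 𝓛, l ≠ []

lemma Tr.cons_tail {W : Submodule F (Fin n → F)} {l : List (Fin n → F)}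
    {𝓛 : List (List (Fin n → F))} (hl : l ≠ []) (h : Tr W (l :: 𝓛)) : Tr W 𝓛 := by
  obtain ⟨v, hv⟩ := List.exists_mem_of_ne_nil l hl
  exact Tr.mono le_sup_left (h v hv).2

lemma Tr.perm {𝓛 𝓛' : List (List (Fin n → F))} (hp : 𝓛.Perm 𝓛') :
    ∀ {W : Submodule F (Fin n → F)}, NE 𝓛 → Tr W 𝓛 → Tr W 𝓛' := by
  induction hp with
  | nil => intro W _ h; exact h
  | cons x _ ih =>
    intro W hne h v hv
    exact ⟨(h v hv).1, ih (fun l hl => hne l (List.mem_cons_of_mem _ hl)) (h v hv).2⟩
  | swap x y l =>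
    intro W hne h u hu
    have hy : y ≠ [] := hne y List.mem_cons_self
    obtain ⟨v0, hv0⟩ := List.exists_mem_of_ne_nil y hy
    refine ⟨fun huW => ((h v0 hv0).2 u hu).1 (Submodule.mem_sup_left huW), ?_⟩
    intro v hv
    have h1 := h v hv
    have h2 := h1.2 u hu
    refine ⟨not_mem_exchange h1.1 h2.1, ?_⟩
    rw [sup_right_comm]
    exact h2.2
  | trans h1 _ ih1 ih2 =>
    intro W hne h
    exact ih2 (fun l hl => hne l (h1.mem_iff.2 hl)) (ih1 hne h)

/-! ### Multiplication by an independent linear form -/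

section proj

variable (W : Submodule F (Fin n → F))

lemma exists_proj : ∃ π : (Fin n → F) →ₗ[F] (Fin n → F), (∀ w ∈ W, π w = 0) ∧
    (∀ v, v - π v ∈ W) ∧ (∀ v, π v = 0 → v ∈ W) := by
  obtain ⟨W', h⟩ := Submodule.exists_isCompl W
  have hz : ∀ v, W'.projectionOnto W h.symm v = 0 ↔ v ∈ W := fun v =>
    Submodule.projectionOnto_apply_eq_zero_iff h.symm
  refine ⟨W'.subtype ∘ₗ W'.projectionOnto W h.symm, ?_, ?_, ?_⟩
  · intro w hw
    rw [LinearMap.comp_apply, (hz w).2 hw, map_zero]
  · intro v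
    rw [← hz, map_sub, LinearMap.comp_apply, Submodule.subtype_apply,
      Submodule.projectionOnto_apply_left, sub_self]
  · intro v hv
    rw [← hz]
    apply Subtype.ext
    simpa using hv

/-- The algebra endomorphism with `lin v ↦ lin (π v)`. -/
noncomputable def theta (π : (Fin n → F) →ₗ[F] (Fin n → F)) :
    MvPolynomial (Fin n) F →ₐ[F] MvPolynomial (Fin n) F :=
  aeval fun i => lin (π (Pi.single i 1))

lemma theta_lin (π : (Fin n → F) →ₗ[F] (Fin n → F)) (v : Fin n → F) :
    theta π (lin v) = lin (π v) := by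
  conv_lhs => rw [lin_apply, map_sum]
  conv_rhs => rw [pi_eq_sum_univ' v, map_sum, map_sum]
  refine Finset.sum_congr rfl fun i _ => ?_
  rw [map_smul, map_smul, map_smul, theta, aeval_X]

lemma sub_theta_mem {π : (Fin n → F) →ₗ[F] (Fin n → F)} (hπ : ∀ v, v - π v ∈ W)
    (p : MvPolynomial (Fin n) F) : p - theta π p ∈ J W [] := by
  induction p using MvPolynomial.induction_on with
  | C a => simp [theta]
  | add p q hp hq =>
    rw [map_add]
    have : p + q - (theta π p + theta π q) = (p - theta π p) + (q - theta π q) := by ring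
    rw [this]
    exact add_mem hp hq
  | mul_X p i hp =>
    have h1 : (X i : MvPolynomial (Fin n) F) - theta π (X i) ∈ J W [] := by
      rw [← lin_single, theta_lin, ← map_sub]
      exact lin_mem_J (hπ _)
    have : p * X i - theta π (p * X i) = (p - theta π p) * X i
        + theta π p * (X i - theta π (X i)) := by rw [map_mul]; ring
    rw [this]
    exact add_mem (Ideal.mul_mem_right _ _ hp) (Ideal.mul_mem_left _ _ h1)

lemma mem_J_nil_iff {π : (Fin n → F) →ₗ[F] (Fin n → F)} (hπ : ∀ v, v - π v ∈ W)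
    (hπ0 : ∀ w ∈ W, π w = 0) (p : MvPolynomial (Fin n) F) :
    p ∈ J W [] ↔ theta π p = 0 := by
  constructor
  · intro hp
    have : J W [] ≤ RingHom.ker (theta π) := by
      rw [J_le_iff]
      refine ⟨fun w hw => ?_, by simp⟩
      rw [RingHom.mem_ker]
      have := theta_lin π w
      rw [hπ0 w hw, map_zero] at this
      exact this
    exact (RingHom.mem_ker).1 (this hp)
  · intro h
    have := sub_theta_mem W hπ p
    rwa [h, sub_zero] at this

end proj

lemma nzd_nil {W : Submodule F (Fin n → F)} {v : Fin n → F} (hv : v ∉ W)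
    {p : MvPolynomial (Fin n) F} (h : lin v * p ∈ J W []) : p ∈ J W [] := by
  obtain ⟨π, h0, h1, h2⟩ := exists_proj W
  rw [mem_J_nil_iff W h1 h0, map_mul, theta_lin] at h
  rw [mem_J_nil_iff W h1 h0]
  rcases mul_eq_zero.1 h with h | h
  · exfalso
    apply hv
    apply h2
    apply lin_injective
    rw [h, map_zero]
  · exact h

/-- total length -/
def len (𝓛 : List (List (Fin n → F))) : ℕ := (𝓛.map List.length).sum

@[simp] lemma len_nil : len ([] : List (List (Fin n → F))) = 0 := rfl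

@[simp] lemma len_cons (l : List (Fin n → F)) (𝓛 : List (List (Fin n → F))) :
    len (l :: 𝓛) = l.length + len 𝓛 := by simp [len]

lemma NE.tail {l : List (Fin n → F)} {𝓛 : List (List (Fin n → F))} (h : NE (l :: 𝓛)) : NE 𝓛 :=
  fun l' hl' => h l' (List.mem_cons_of_mem _ hl')

lemma nzd_aux : ∀ (N : ℕ) (𝓛 : List (List (Fin n → F))), len 𝓛 ≤ N → NE 𝓛 →
    ∀ (W : Submodule F (Fin n → F)) (v : Fin n → F), v ∉ W → Tr (W ⊔ Submodule.span F {v}) 𝓛 →
    ∀ p : MvPolynomial (Fin n) F, lin v * p ∈ J W 𝓛 → p ∈ J W 𝓛 := by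
  intro N
  induction N with
  | zero =>
    intro 𝓛 hlen hne W v hv _ p hp
    cases 𝓛 with
    | nil => exact nzd_nil hv hp
    | cons l 𝓛 =>
      exfalso
      rw [len_cons] at hlen
      exact hne l List.mem_cons_self (List.length_eq_zero_iff.1 (by omega))
  | succ N ih =>
    intro 𝓛 hlen hne W v hv htr p hp
    cases 𝓛 with
    | nil => exact nzd_nil hv hp
    | cons l 𝓛 =>
      cases l with
      | nil => exact absurd rfl (hne [] List.mem_cons_self)
      | cons ℓ g =>
        have hne' : NE 𝓛 := hne.tail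
        obtain ⟨hℓ, htr'⟩ := htr.head
        have hℓW : ℓ ∉ W := fun h => hℓ (Submodule.mem_sup_left h)
        have hvW : v ∉ W ⊔ Submodule.span F {ℓ} := not_mem_exchange hv hℓ
        have htr'' : Tr ((W ⊔ Submodule.span F {ℓ}) ⊔ Submodule.span F {v}) 𝓛 := by
          rw [sup_right_comm]; exact htr'
        rw [len_cons, List.length_cons] at hlen
        cases g with
        | nil =>
          rw [J_singleton_cons] at hp ⊢
          exact ih 𝓛 (by simp at hlen; omega) hne' _ v hvW htr'' p hp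
        | cons ℓ' g' =>
          set g := ℓ' :: g' with hg
          -- p ∈ J (W + ℓ) 𝓛
          have h1 : lin v * p ∈ J (W ⊔ Submodule.span F {ℓ}) 𝓛 := by
            have : J W ((ℓ :: g) :: 𝓛) ≤ J (W ⊔ Submodule.span F {ℓ}) 𝓛 := by
              rw [J_cons, J_sup_span]
              refine sup_le_sup_right ?_ _
              rw [Ideal.span_singleton_le_span_singleton, pr_cons]
              exact Dvd.intro _ rfl
            exact this hp
          have h2 := ih 𝓛 (by omega) hne' _ v hvW htr'' p h1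
          obtain ⟨p1, hp1⟩ := mem_J_sup_iff.1 h2
          -- lin v * lin ℓ * p1 ∈ J W ((ℓ::g)::𝓛)
          have hle : J W 𝓛 ≤ J W ((ℓ :: g) :: 𝓛) := by
            rw [J_cons]; exact le_sup_right
          have h3 : lin v * (lin ℓ * p1) ∈ J W ((ℓ :: g) :: 𝓛) := by
            have := sub_mem hp (Ideal.mul_mem_left _ (lin v) (hle hp1))
            convert this using 1
            ring
          obtain ⟨h, hh⟩ := mem_J_cons_iff.1 h3
          have h4 : lin ℓ * (lin v * p1 - pr g * h) ∈ J W 𝓛 := by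
            convert hh using 1
            rw [pr_cons ℓ g]
            ring
          have h5 := ih 𝓛 (by omega) hne' W ℓ hℓW
            (Tr.mono (sup_le_sup_right le_sup_left _) htr') _ h4
          have h6 : lin v * p1 ∈ J W (g :: 𝓛) := mem_J_cons_iff.2 ⟨h, h5⟩
          have hne2 : NE (g :: 𝓛) := by
            intro l' hl'
            rcases List.mem_cons.1 hl' with rfl | hl'
            · simp [hg]
            · exact hne' l' hl'
          have h7 := ih (g :: 𝓛) (by rw [len_cons]; omega) hne2 W v hv htr.tail_list p1 h6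
          obtain ⟨h', hh'⟩ := mem_J_cons_iff.1 h7
          rw [mem_J_cons_iff]
          refine ⟨h', ?_⟩
          have := add_mem hp1 (Ideal.mul_mem_left _ (lin ℓ) hh')
          convert this using 1
          rw [pr_cons ℓ g]
          ring

/-- A linear form independent of all transversals is a nonzerodivisor modulo `J W 𝓛`. -/
theorem nzd {W : Submodule F (Fin n → F)} {v : Fin n → F} {𝓛 : List (List (Fin n → F))}
    (hne : NE 𝓛) (hv : v ∉ W) (htr : Tr (W ⊔ Submodule.span F {v}) 𝓛)
    {p : MvPolynomial (Fin n) F} (hp : lin v * p ∈ J W 𝓛) : p ∈ J W 𝓛 :=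
  nzd_aux _ 𝓛 le_rfl hne W v hv htr p hp

/-- colon ideal by a factor -/
theorem colon_lin {W : Submodule F (Fin n → F)} {v : Fin n → F} {g : List (Fin n → F)}
    {𝓛 : List (List (Fin n → F))} (hne : NE 𝓛) (htr : Tr W ((v :: g) :: 𝓛))
    {p : MvPolynomial (Fin n) F} : lin v * p ∈ J W ((v :: g) :: 𝓛) ↔ p ∈ J W (g :: 𝓛) := by
  constructor
  · intro hp
    obtain ⟨h, hh⟩ := mem_J_cons_iff.1 hp
    rw [mem_J_cons_iff]
    refine ⟨h, ?_⟩
    apply nzd hne htr.head.1 htr.head.2
    convert hh using 1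
    rw [pr_cons]
    ring
  · intro hp
    obtain ⟨h, hh⟩ := mem_J_cons_iff.1 hp
    rw [mem_J_cons_iff]
    refine ⟨h, ?_⟩
    have := Ideal.mul_mem_left _ (lin v) hh
    convert this using 1
    rw [pr_cons]
    ring

lemma pr_nzd {W : Submodule F (Fin n → F)} {𝓛 : List (List (Fin n → F))} (hne : NE 𝓛) :
    ∀ {g : List (Fin n → F)}, Tr W (g :: 𝓛) → ∀ {p : MvPolynomial (Fin n) F},
    pr g * p ∈ J W 𝓛 → p ∈ J W 𝓛
  | [], _, p, hp => by simpa using hp
  | v :: g, htr, p, hp => by
    rw [pr_cons, mul_assoc] at hp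
    exact pr_nzd hne htr.tail_list (nzd hne htr.head.1 htr.head.2 hp)

/-- colon ideal by the complementary factor -/
theorem colon_pr {W : Submodule F (Fin n → F)} {v : Fin n → F} {g : List (Fin n → F)}
    {𝓛 : List (List (Fin n → F))} (hne : NE 𝓛) (htr : Tr W ((v :: g) :: 𝓛))
    {p : MvPolynomial (Fin n) F} :
    pr g * p ∈ J W ((v :: g) :: 𝓛) ↔ p ∈ J (W ⊔ Submodule.span F {v}) 𝓛 := by
  constructor
  · intro hp
    obtain ⟨h, hh⟩ := mem_J_cons_iff.1 hp
    rw [mem_J_sup_iff]
    refine ⟨h, ?_⟩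
    apply pr_nzd hne htr.tail_list
    convert hh using 1
    rw [pr_cons]
    ring
  · intro hp
    obtain ⟨h, hh⟩ := mem_J_sup_iff.1 hp
    rw [mem_J_cons_iff]
    refine ⟨h, ?_⟩
    have := Ideal.mul_mem_left _ (pr g) hh
    convert this using 1
    rw [pr_cons]
    ring

end Pool.Agent.LefProd
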