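import Mathlib

/-!
Injectivity of matrices over domains and of their specialisations.
-/

set_option autoImplicit false
set_option linter.unusedSectionVars false

namespace Pool.Agent.LefProd

open Matrix

variable {ι κ : Type*} [Fintype ι] [Fintype κ] [DecidableEq ι] [DecidableEq κ]

/-- `A *ᵥ x = 0` only for `x = 0`. -/
def Inj {T : Type*} [Semiring T] (A : Matrix κ ι T) : Prop := ∀ x : ι → T, A *ᵥ x = 0 → x = 0

lemma Inj.exists_left {K : Type*} [Field K] {A : Matrix κ ι K} (h : Inj A) :
    ∃ B : Matrix ι κ K, B * A = 1 := by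
  obtain ⟨g, hg⟩ := LinearMap.exists_leftInverse_of_injective (Matrix.toLin' A) (by
    rw [LinearMap.ker_eq_bot']
    intro x hx
    exact h x (by simpa using hx))
  refine ⟨LinearMap.toMatrix' g, ?_⟩
  have := congrArg LinearMap.toMatrix' hg
  rw [LinearMap.toMatrix'_comp, LinearMap.toMatrix'_toLin', LinearMap.toMatrix'_id] at this
  exact this

lemma inj_of_left {T : Type*} [CommRing T] [IsDomain T] {A : Matrix κ ι T} {B : Matrix ι κ T}
    {d : T} (hd : d ≠ 0) (h : B * A = d • 1) : Inj A := by
  intro x hx
  have h1 : (B * A) *ᵥ x = 0 := by rw [← Matrix.mulVec_mulVec, hx, Matrix.mulVec_zero]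
  rw [h, Matrix.smul_mulVec, Matrix.one_mulVec] at h1
  funext i
  have := congrFun h1 i
  simpa [hd] using this

/-- If a specialisation is injective, so is the matrix. -/
lemma inj_of_specialization {F T : Type*} [Field F] [CommRing T] [IsDomain T] [Algebra F T]
    (ε : T →ₐ[F] F) {A : Matrix κ ι T} (h : Inj (A.map ε)) :
    ∃ (Q : Matrix ι κ F), ε (Q.map (algebraMap F T) * A).det = 1 ∧
      Inj A := by
  obtain ⟨Q, hQ⟩ := h.exists_left
  have h1 : ε (Q.map (algebraMap F T) * A).det = 1 := by
    have h2 : ε (Q.map (algebraMap F T) * A).det = ((Q.map (algebraMap F T) * A).map ε).det := by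
      have := RingHom.map_det (ε : T →+* F) (Q.map (algebraMap F T) * A)
      simpa [RingHom.mapMatrix_apply] using this
    rw [h2, Matrix.map_mul]
    have h3 : (Q.map (algebraMap F T)).map ε = Q := by
      ext i j
      simp
    rw [h3, hQ, Matrix.det_one]
  refine ⟨Q, h1, ?_⟩
  have hd : (Q.map (algebraMap F T) * A).det ≠ 0 := by
    intro h0
    rw [h0, map_zero] at h1
    exact zero_ne_one h1
  refine inj_of_left (B := (Q.map (algebraMap F T) * A).adjugate * Q.map (algebraMap F T)) hd ?_
  rw [Matrix.mul_assoc, Matrix.adjugate_mul]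

/-- clearing denominators in a left inverse -/
lemma Inj.exists_scaled_left {T : Type*} [CommRing T] [IsDomain T] {A : Matrix κ ι T}
    (h : Inj A) : ∃ (d : T) (B : Matrix ι κ T), d ≠ 0 ∧ B * A = d • 1 := by
  classical
  let K := FractionRing T
  have hinj : Function.Injective (algebraMap T K) := IsFractionRing.injective T K
  have hK : Inj (A.map (algebraMap T K)) := by
    intro x hx
    obtain ⟨b, hb⟩ := IsLocalization.exist_integer_multiples_of_finite (nonZeroDivisors T) x
    choose y hy using hb
    have hb0 : (b : T) ≠ 0 := nonZeroDivisors.ne_zero b.2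
    have h1 : A *ᵥ y = 0 := by
      funext k
      apply hinj
      have h2 := congrFun hx k
      rw [Matrix.mulVec, dotProduct] at h2
      rw [Matrix.mulVec, dotProduct, map_sum, Pi.zero_apply, map_zero]
      have h3 : ∀ i, algebraMap T K (A k i * y i) =
          algebraMap T K (b : T) * (A.map (algebraMap T K) k i * x i) := by
        intro i
        rw [map_mul, hy i, Algebra.smul_def, Matrix.map_apply]
        ring
      simp only [h3]
      rw [← Finset.mul_sum, h2]
      simp
    have h4 := h y h1
    funext i
    have h5 := hy i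
    rw [h4, Pi.zero_apply, map_zero, Algebra.smul_def, eq_comm, mul_eq_zero] at h5
    rcases h5 with h5 | h5
    · exact absurd ((map_eq_zero_iff _ hinj).1 h5) hb0
    · exact h5
  obtain ⟨B, hB⟩ := hK.exists_left
  obtain ⟨b, hb⟩ := IsLocalization.exist_integer_multiples_of_finite (nonZeroDivisors T)
    (fun p : ι × κ => B p.1 p.2)
  choose y hy using hb
  refine ⟨b, Matrix.of fun i k => y (i, k), nonZeroDivisors.ne_zero b.2, ?_⟩
  ext i j
  apply hinj
  have h6 := congrFun (congrFun hB i) j
  rw [Matrix.mul_apply] at h6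
  rw [Matrix.mul_apply, map_sum, Matrix.smul_apply, smul_eq_mul, map_mul]
  have h7 : ∀ k, algebraMap T K (Matrix.of (fun i k => y (i, k)) i k * A k j) =
      algebraMap T K (b : T) * (B i k * A.map (algebraMap T K) k j) := by
    intro k
    rw [map_mul, Matrix.of_apply, hy (i, k), Algebra.smul_def, Matrix.map_apply]
    ring
  simp only [h7]
  rw [← Finset.mul_sum, h6]
  congr 1
  rw [Matrix.one_apply, Matrix.one_apply]
  split_ifs <;> simp

/-- specialisations of an injective matrix at points where the denominator does not vanish -/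
lemma inj_map_of_scaled_left {T S : Type*} [CommRing T] [CommRing S] [IsDomain S]
    (ε : T →+* S) {A : Matrix κ ι T} {B : Matrix ι κ T} {d : T} (h : B * A = d • 1)
    (hd : ε d ≠ 0) : Inj (A.map ε) := by
  refine inj_of_left (B := B.map ε) hd ?_
  rw [← Matrix.map_mul, h]
  ext i j
  simp only [Matrix.map_apply, Matrix.smul_apply, Matrix.one_apply, smul_eq_mul, mul_ite, mul_one,
    mul_zero]
  split_ifs <;> simp

end Pool.Agent.LefProd
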