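import Pool.Agent.LefProd.EngineG
import Pool.Agent.LefProd.MatInj

/-!
Coordinates on the graded pieces modulo an ideal, matrices of multiplication by powers of a
linear form with coefficients in an `F`-algebra, and openness of `LI` and `KD` along lines.
-/

set_option autoImplicit false
set_option linter.unusedSectionVars false

namespace Pool.Agent.LefProd

open MvPolynomial Polynomial

variable {F : Type*} [Field F] {n : ℕ}

/-- coordinates on the degree `j` piece modulo `I` -/
structure Coord (I : Ideal (MvPolynomial (Fin n) F)) (j : ℕ) where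
  N : ℕ
  φ : Fin N → (MvPolynomial (Fin n) F →ₗ[F] F)
  b : Fin N → MvPolynomial (Fin n) F
  bh : ∀ i, (b i).IsHomogeneous j
  φb : ∀ i i', φ i (b i') = if i = i' then 1 else 0
  φI : ∀ p ∈ I, p.IsHomogeneous j → ∀ i, φ i p = 0
  mem : ∀ p, p.IsHomogeneous j → (∀ i, φ i p = 0) → p ∈ I

theorem exists_coord (I : Ideal (MvPolynomial (Fin n) F)) (j : ℕ) : Nonempty (Coord I j) := by
  classical
  let Rj := homogeneousSubmodule (Fin n) F j
  let Nj : Submodule F Rj := Submodule.comap Rj.subtype (I.restrictScalars F)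
  have : Module.Finite F Rj := Module.Finite.iff_fg.2 (homogeneousSubmodule_fg (Fin n) F j)
  let B := Module.finBasis F (Rj ⧸ Nj)
  let hcj : MvPolynomial (Fin n) F →ₗ[F] Rj :=
    LinearMap.codRestrict Rj (homogeneousComponent j) (fun p => homogeneousComponent_mem j p)
  have hself : ∀ p (hp : p ∈ Rj), hcj p = ⟨p, hp⟩ := by
    intro p hp
    apply Subtype.ext
    exact homogeneousComponent_eq_self hp
  have hlift : ∀ i, ∃ p : Rj, Submodule.Quotient.mk (p := Nj) p = B i := fun i =>
    Submodule.Quotient.mk_surjective Nj (B i)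
  choose b hb using hlift
  refine ⟨⟨Module.finrank F (Rj ⧸ Nj), fun i => B.coord i ∘ₗ Nj.mkQ ∘ₗ hcj, fun i => (b i : _),
    fun i => (b i).2, ?_, ?_, ?_⟩⟩
  · intro i i'
    simp only [LinearMap.comp_apply, hself _ (b i').2, Submodule.mkQ_apply]
    rw [show (⟨(b i' : MvPolynomial (Fin n) F), (b i').2⟩ : Rj) = b i' from rfl, hb,
      Module.Basis.coord_apply, Module.Basis.repr_self, Finsupp.single_apply]
    simp [eq_comm]
  · intro p hp hph i
    simp only [LinearMap.comp_apply, hself p hph, Submodule.mkQ_apply]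
    have : (Submodule.Quotient.mk (p := Nj) (⟨p, hph⟩ : Rj)) = 0 := by
      rw [Submodule.Quotient.mk_eq_zero]
      exact hp
    rw [this, map_zero]
  · intro p hph h
    have : (Submodule.Quotient.mk (p := Nj) (⟨p, hph⟩ : Rj)) = 0 := by
      apply B.ext_elem
      intro i
      have := h i
      simp only [LinearMap.comp_apply, hself p hph, Submodule.mkQ_apply,
        Module.Basis.coord_apply] at this
      rw [this, map_zero, Finsupp.zero_apply]
    rw [Submodule.Quotient.mk_eq_zero] at this
    exact this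

/-- a choice of coordinates -/
noncomputable def crd (I : Ideal (MvPolynomial (Fin n) F)) (j : ℕ) : Coord I j :=
  (exists_coord I j).some

/-- the index type of the coordinates -/
abbrev ix (I : Ideal (MvPolynomial (Fin n) F)) (j : ℕ) : Type := Fin (crd I j).N

/-- coordinates of a polynomial -/
noncomputable def co (I : Ideal (MvPolynomial (Fin n) F)) (j : ℕ) (p : MvPolynomial (Fin n) F) :
    ix I j → F := fun i => (crd I j).φ i p

variable {I : Ideal (MvPolynomial (Fin n) F)}

lemma co_eq_zero_iff {j : ℕ} {p : MvPolynomial (Fin n) F} (hp : p.IsHomogeneous j) :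
    co I j p = 0 ↔ p ∈ I := by
  constructor
  · intro h
    exact (crd I j).mem p hp fun i => congrFun h i
  · intro h
    funext i
    exact (crd I j).φI p h hp i

lemma sub_sum_mem {j : ℕ} {p : MvPolynomial (Fin n) F} (hp : p.IsHomogeneous j) :
    p - ∑ i, MvPolynomial.C (co I j p i) * (crd I j).b i ∈ I := by
  have hh : (p - ∑ i, MvPolynomial.C (co I j p i) * (crd I j).b i).IsHomogeneous j := by
    refine hp.sub (IsHomogeneous.sum _ _ _ fun i _ => ?_)
    simpa using (isHomogeneous_C (Fin n) (co I j p i)).mul ((crd I j).bh i)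
  rw [← co_eq_zero_iff hh]
  funext k
  simp only [co, map_sub, map_sum, Pi.zero_apply]
  rw [sub_eq_zero]
  have : ∀ i, (crd I j).φ k (MvPolynomial.C ((crd I j).φ i p) * (crd I j).b i) =
      if k = i then (crd I j).φ i p else 0 := by
    intro i
    rw [← MvPolynomial.smul_eq_C_mul, map_smul, (crd I j).φb]
    split_ifs <;> simp
  simp [this]

/-- the polynomial with given coordinates -/
noncomputable def el (I : Ideal (MvPolynomial (Fin n) F)) (j : ℕ) (x : ix I j → F) :
    MvPolynomial (Fin n) F := ∑ i, MvPolynomial.C (x i) * (crd I j).b i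

lemma el_hom {j : ℕ} (x : ix I j → F) : (el I j x).IsHomogeneous j := by
  refine IsHomogeneous.sum _ _ _ fun i _ => ?_
  simpa using (isHomogeneous_C (Fin n) (x i)).mul ((crd I j).bh i)

lemma co_el {j : ℕ} (x : ix I j → F) : co I j (el I j x) = x := by
  funext k
  simp only [co, el, map_sum]
  have : ∀ i, (crd I j).φ k (MvPolynomial.C (x i) * (crd I j).b i) = if k = i then x i else 0 := by
    intro i
    rw [← MvPolynomial.smul_eq_C_mul, map_smul, (crd I j).φb]
    split_ifs <;> simp
  simp [this]

/-- the matrix of multiplication by the `l`-th variable -/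
noncomputable def Xi (I : Ideal (MvPolynomial (Fin n) F)) (j : ℕ) (l : Fin n) :
    Matrix (ix I (j + 1)) (ix I j) F :=
  Matrix.of fun k i => (crd I (j + 1)).φ k (X l * (crd I j).b i)

/-- the pencil with coefficients `c` -/
noncomputable def Pm (I : Ideal (MvPolynomial (Fin n) F)) {T : Type*} [CommRing T] [Algebra F T]
    (c : Fin n → T) (j : ℕ) : Matrix (ix I (j + 1)) (ix I j) T :=
  ∑ l, c l • (Xi I j l).map (algebraMap F T)

/-- the `m`-th power of the pencil -/
noncomputable def Pw (I : Ideal (MvPolynomial (Fin n) F)) {T : Type*} [CommRing T] [Algebra F T]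
    (c : Fin n → T) (j : ℕ) : (m : ℕ) → Matrix (ix I (j + m)) (ix I j) T
  | 0 => 1
  | m + 1 => Pm I c (j + m) * Pw I c j m

lemma Pm_map {T S : Type*} [CommRing T] [Algebra F T] [CommRing S] [Algebra F S]
    (ε : T →ₐ[F] S) (c : Fin n → T) (j : ℕ) :
    (Pm I c j).map ε = Pm I (fun l => ε (c l)) j := by
  ext k i
  simp [Pm, Matrix.sum_apply]

lemma Pw_map {T S : Type*} [CommRing T] [Algebra F T] [CommRing S] [Algebra F S]
    (ε : T →ₐ[F] S) (c : Fin n → T) (j m : ℕ) :
    (Pw I c j m).map ε = Pw I (fun l => ε (c l)) j m := by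
  induction m with
  | zero => simp [Pw]
  | succ m ih =>
    rw [Pw, Pw, ← Pm_map ε, ← ih]
    exact Matrix.map_mul (f := (ε : T →+* S))

lemma co_mul_lin {j : ℕ} (μ : Fin n → F) {p : MvPolynomial (Fin n) F} (hp : p.IsHomogeneous j) :
    co I (j + 1) (lin μ * p) = Matrix.mulVec (Pm I μ j) (co I j p) := by
  have h1 : co I (j + 1) (lin μ * p) =
      co I (j + 1) (lin μ * ∑ i, MvPolynomial.C (co I j p i) * (crd I j).b i) := by
    have h2 : co I (j + 1) (lin μ * (p - ∑ i, MvPolynomial.C (co I j p i) * (crd I j).b i)) = 0 := by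
      rw [co_eq_zero_iff]
      · exact Ideal.mul_mem_left _ _ (sub_sum_mem hp)
      · rw [add_comm]
        refine (lin_isHomogeneous μ).mul (hp.sub (IsHomogeneous.sum _ _ _ fun i _ => ?_))
        simpa using (isHomogeneous_C (Fin n) (co I j p i)).mul ((crd I j).bh i)
    funext k
    have h3 := congrFun h2 k
    simp only [co, mul_sub, map_sub, Pi.zero_apply, sub_eq_zero] at h3 ⊢
    exact h3
  rw [h1]
  funext k
  simp only [co, Matrix.mulVec, dotProduct, Finset.mul_sum, map_sum]
  refine Finset.sum_congr rfl fun i _ => ?_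
  have h4 : lin μ * (MvPolynomial.C ((crd I j).φ i p) * (crd I j).b i) =
      (crd I j).φ i p • ∑ l, μ l • (X l * (crd I j).b i) := by
    rw [lin_apply, MvPolynomial.smul_eq_C_mul, Finset.sum_mul, Finset.mul_sum]
    refine Finset.sum_congr rfl fun l _ => ?_
    rw [MvPolynomial.smul_eq_C_mul, MvPolynomial.smul_eq_C_mul]
    ring
  rw [h4, map_smul, map_sum, smul_eq_mul, mul_comm]
  congr 1
  simp [Pm, Xi, Matrix.sum_apply]

lemma co_mul_lin_pow {j : ℕ} (μ : Fin n → F) (m : ℕ) {p : MvPolynomial (Fin n) F}
    (hp : p.IsHomogeneous j) :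
    co I (j + m) (lin μ ^ m * p) = Matrix.mulVec (Pw I μ j m) (co I j p) := by
  induction m with
  | zero => simp [Pw]
  | succ m ih =>
    have hh : (lin μ ^ m * p).IsHomogeneous (j + m) := by
      have := ((lin_isHomogeneous μ).pow m).mul hp
      rw [one_mul, add_comm] at this
      exact this
    rw [Pw, ← Matrix.mulVec_mulVec, ← ih, ← co_mul_lin μ hh, pow_succ', mul_assoc]
    rfl

lemma LI_iff {j m : ℕ} {μ : Fin n → F} : LI I μ m j ↔ Inj (Pw I μ j m) := by
  constructor
  · intro h x hx
    have h1 := h (el I j x) (el_hom x) (by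
      rw [← co_eq_zero_iff (j := j + m), co_mul_lin_pow μ m (el_hom x), co_el, hx]
      have := ((lin_isHomogeneous μ).pow m).mul (el_hom x)
      rw [one_mul, add_comm] at this
      exact this)
    rwa [← co_eq_zero_iff (el_hom x), co_el] at h1
  · intro h p hp hmem
    rw [← co_eq_zero_iff hp]
    apply h
    rw [← co_mul_lin_pow μ m hp, co_eq_zero_iff]
    · exact hmem
    · have := ((lin_isHomogeneous μ).pow m).mul hp
      rw [one_mul, add_comm] at this
      exact this

end Pool.Agent.LefProd
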