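import Pool.Agent.LefProd.Types

/-!
Duality: surjectivity of `μ ^ m` from injectivity in the dual degree; artinian ideals generated by
products of linear forms; the weak and strong Lefschetz properties.
-/

set_option autoImplicit false
set_option linter.unusedSectionVars false

namespace Pool.Agent.LefProd

open MvPolynomial

universe u

variable {F : Type u} [Field F] {n : ℕ}

lemma exists_eps {𝓛 : List (List (Fin n → F))} {W : Submodule F (Fin n → F)} (hci : CI W 𝓛) :
    ∃ ε : MvPolynomial (Fin n) F →ₗ[F] F, ∀ p : MvPolynomial (Fin n) F,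
      p.IsHomogeneous (sg 𝓛) → (ε p = 0 ↔ p ∈ J W 𝓛) := by
  obtain ⟨e, he, hed⟩ := top_dim hci
  have heI : e ∉ J W 𝓛 := by
    intro heI
    apply one_notMem hci.1
    apply soc_iter hci (sg 𝓛) (isHomogeneous_one _ _) (by omega)
    intro l hl
    obtain ⟨c, hc⟩ := hed (pr l * 1) (by rw [mul_one, ← hl]; exact pr_isHomogeneous l)
    have := add_mem hc (Ideal.mul_mem_left _ (C c) heI)
    rwa [sub_add_cancel] at this
  obtain ⟨i0, hi0⟩ : ∃ i, (crd (J W 𝓛) (sg 𝓛)).φ i e ≠ 0 := by
    by_contra hcon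
    push Not at hcon
    exact heI ((crd (J W 𝓛) (sg 𝓛)).mem e he hcon)
  refine ⟨(crd (J W 𝓛) (sg 𝓛)).φ i0, fun p hp => ⟨fun h => ?_, fun h => ?_⟩⟩
  · obtain ⟨c, hc⟩ := hed p hp
    have hh : (p - C c * e).IsHomogeneous (sg 𝓛) := by
      have := (isHomogeneous_C (Fin n) c).mul he
      rw [zero_add] at this
      exact hp.sub this
    have h1 := (crd (J W 𝓛) (sg 𝓛)).φI _ hc hh i0
    rw [map_sub, h, ← smul_eq_C_mul, map_smul, zero_sub, neg_eq_zero, smul_eq_mul] at h1
    have hc0 := (mul_eq_zero.1 h1).resolve_right hi0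
    rw [hc0] at hc
    simpa using hc
  · exact (crd (J W 𝓛) (sg 𝓛)).φI _ h hp i0

lemma nondeg {𝓛 : List (List (Fin n → F))} {W : Submodule F (Fin n → F)} (hci : CI W 𝓛)
    {ε : MvPolynomial (Fin n) F →ₗ[F] F}
    (hε : ∀ p : MvPolynomial (Fin n) F, p.IsHomogeneous (sg 𝓛) → (ε p = 0 ↔ p ∈ J W 𝓛))
    {i i' : ℕ} (h : i + i' = sg 𝓛) {p : MvPolynomial (Fin n) F} (hp : p.IsHomogeneous i)
    (hq : ∀ q : MvPolynomial (Fin n) F, q.IsHomogeneous i' → ε (q * p) = 0) : p ∈ J W 𝓛 := by
  apply soc_iter hci i' hp h.le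
  intro l hl
  have hh : (pr l * p).IsHomogeneous (sg 𝓛) := by
    rw [← h, add_comm, ← hl]
    exact (pr_isHomogeneous l).mul hp
  rw [← hε _ hh]
  apply hq
  rw [← hl]
  exact pr_isHomogeneous l

lemma surj_of_inj_transpose {κ ι : Type*} [Fintype ι] [Fintype κ] [DecidableEq ι] [DecidableEq κ]
    {A : Matrix κ ι F} (h : Inj A.transpose) (z : κ → F) : ∃ y, Matrix.mulVec A y = z := by
  obtain ⟨B, hB⟩ := h.exists_left
  refine ⟨Matrix.mulVec B.transpose z, ?_⟩
  have h1 : A * B.transpose = 1 := by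
    have := congrArg Matrix.transpose hB
    rwa [Matrix.transpose_mul, Matrix.transpose_transpose, Matrix.transpose_one] at this
  rw [Matrix.mulVec_mulVec, h1, Matrix.one_mulVec]

lemma lin_pow_mul_hom {μ : Fin n → F} {m j : ℕ} {p : MvPolynomial (Fin n) F}
    (hp : p.IsHomogeneous j) : (lin μ ^ m * p).IsHomogeneous (j + m) := by
  have := ((lin_isHomogeneous μ).pow m).mul hp
  rwa [one_mul, add_comm] at this

/-- surjectivity from injectivity in the dual degree -/
theorem surj_of_LI {𝓛 : List (List (Fin n → F))} {W : Submodule F (Fin n → F)} (hci : CI W 𝓛)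
    {μ : Fin n → F} {m j j' : ℕ} (hj : j + m + j' = sg 𝓛) (h : LI (J W 𝓛) μ m j')
    {q : MvPolynomial (Fin n) F} (hq : q.IsHomogeneous (j + m)) :
    ∃ p : MvPolynomial (Fin n) F, p.IsHomogeneous j ∧ q - lin μ ^ m * p ∈ J W 𝓛 := by
  classical
  set I := J W 𝓛 with hI
  obtain ⟨ε, hε⟩ := exists_eps hci
  have hεI : ∀ p : MvPolynomial (Fin n) F, p ∈ I → p.IsHomogeneous (sg 𝓛) → ε p = 0 :=
    fun p hp hph => (hε p hph).2 hp
  let M1 : Matrix (ix I (j + m)) (ix I j') F :=
    Matrix.of fun k l => ε ((crd I (j + m)).b k * (crd I j').b l)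
  have hM1a : ∀ k l, M1 k l = ε ((crd I (j + m)).b k * (crd I j').b l) := fun _ _ => rfl
  -- expansion in coordinates
  have hexp : ∀ {i i' : ℕ}, i + i' = sg 𝓛 → ∀ {p r : MvPolynomial (Fin n) F},
      p.IsHomogeneous i → r.IsHomogeneous i' →
      ε (p * r) = ∑ k, co I i p k * ε ((crd I i).b k * r) := by
    intro i i' hii p r hp hr
    have h1 := sub_sum_mem (I := I) hp
    have hh : (∑ k, C (co I i p k) * (crd I i).b k).IsHomogeneous i := el_hom _
    have h2 : ε ((p - ∑ k, C (co I i p k) * (crd I i).b k) * r) = 0 := by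
      apply hεI _ (Ideal.mul_mem_right _ _ h1)
      rw [← hii]
      exact (hp.sub hh).mul hr
    rw [sub_mul, map_sub, sub_eq_zero] at h2
    rw [h2, Finset.sum_mul, map_sum]
    refine Finset.sum_congr rfl fun k _ => ?_
    rw [mul_assoc, ← smul_eq_C_mul, map_smul, smul_eq_mul]
  have hM1 : Inj M1.transpose := by
    intro x hx
    have h1 : el I (j + m) x ∈ I := by
      apply nondeg hci hε hj (el_hom x)
      intro q hq
      rw [hexp (i := j') (i' := j + m) (by omega) hq (el_hom x)]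
      apply Finset.sum_eq_zero
      intro l _
      have h2 := congrFun hx l
      rw [Matrix.mulVec, dotProduct, Pi.zero_apply] at h2
      have h3 : ε ((crd I j').b l * el I (j + m) x) = 0 := by
        rw [← h2, el, Finset.mul_sum, map_sum]
        refine Finset.sum_congr rfl fun k _ => ?_
        rw [Matrix.transpose_apply, hM1a, mul_left_comm, ← smul_eq_C_mul, map_smul,
          smul_eq_mul, mul_comm (x k), mul_comm ((crd I j').b l)]
      rw [h3, mul_zero]
    rwa [← co_eq_zero_iff (el_hom x), co_el] at h1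
  have hP : Inj (Pw I μ j m).transpose := by
    intro z hz
    obtain ⟨y, hy⟩ := surj_of_inj_transpose hM1 z
    set r := el I j' y with hr
    have hrh : r.IsHomogeneous j' := el_hom y
    have h1 : lin μ ^ m * r ∈ I := by
      apply nondeg hci hε (i := j' + m) (i' := j) (by omega) (lin_pow_mul_hom hrh)
      intro p hp
      have h2 : p * (lin μ ^ m * r) = (lin μ ^ m * p) * r := by ring
      rw [h2, hexp hj (lin_pow_mul_hom hp) hrh, co_mul_lin_pow μ m hp]
      have h3 : ∀ k, ε ((crd I (j + m)).b k * r) = z k := by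
        intro k
        rw [← hy, Matrix.mulVec, dotProduct, hr, el, Finset.mul_sum, map_sum]
        refine Finset.sum_congr rfl fun l _ => ?_
        rw [hM1a, mul_left_comm, ← smul_eq_C_mul, map_smul, smul_eq_mul,
          mul_comm (y l)]
      simp only [h3]
      have h4 : ∑ k, Matrix.mulVec (Pw I μ j m) (co I j p) k * z k =
          (Matrix.mulVec (Pw I μ j m) (co I j p)) ⬝ᵥ z := rfl
      rw [h4, dotProduct_comm, Matrix.dotProduct_mulVec, ← Matrix.mulVec_transpose, hz,
        zero_dotProduct]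
    have h5 := h r hrh h1
    rw [hr, ← co_eq_zero_iff (el_hom y), co_el] at h5
    rw [← hy, h5, Matrix.mulVec_zero]
  obtain ⟨y, hy⟩ := surj_of_inj_transpose hP (co I (j + m) q)
  refine ⟨el I j y, el_hom y, ?_⟩
  rw [← co_eq_zero_iff (hq.sub (lin_pow_mul_hom (el_hom y)))]
  have hsub : ∀ p q : MvPolynomial (Fin n) F, co I (j + m) (p - q) =
      co I (j + m) p - co I (j + m) q := by
    intro p q
    funext i
    simp [co]
  rw [hsub, co_mul_lin_pow μ m (el_hom y), co_el, hy, sub_self]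

/-! ### Maximal rank -/

/-- Multiplication by `ℓ ^ k` from degree `j` to degree `j + k` of the quotient by `I` is
injective or surjective. -/
def MaxRank (I : Ideal (MvPolynomial (Fin n) F)) (ℓ : MvPolynomial (Fin n) F) (k j : ℕ) : Prop :=
  (∀ p : MvPolynomial (Fin n) F, p.IsHomogeneous j → ℓ ^ k * p ∈ I → p ∈ I) ∨
  (∀ q : MvPolynomial (Fin n) F, q.IsHomogeneous (j + k) →
    ∃ p : MvPolynomial (Fin n) F, p.IsHomogeneous j ∧ q - ℓ ^ k * p ∈ I)

lemma maxRank_of {𝓛 : List (List (Fin n → F))} {W : Submodule F (Fin n → F)} (hci : CI W 𝓛)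
    {μ : Fin n → F} {m : ℕ} (h : ∀ j, 2 * j + m ≤ sg 𝓛 → LI (J W 𝓛) μ m j) (j : ℕ) :
    MaxRank (J W 𝓛) (lin μ) m j := by
  by_cases h1 : 2 * j + m ≤ sg 𝓛
  · exact Or.inl (h j h1)
  · right
    intro q hq
    by_cases h2 : j + m ≤ sg 𝓛
    · exact surj_of_LI hci (j' := sg 𝓛 - (j + m)) (by omega) (h _ (by omega)) hq
    · refine ⟨0, isHomogeneous_zero _ _ _, ?_⟩
      rw [mul_zero, sub_zero]
      exact top_vanish hci hq (by omega)

lemma exists_common [Infinite F] {P : ℕ → (Fin n → F) → Prop} (hO : ∀ i, Op (P i))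
    (hE : ∀ i, ∃ ν, P i ν) : ∀ N : ℕ, ∃ ν, ∀ i < N, P i ν := by
  have hOp : ∀ N : ℕ, Op fun ν => ∀ i < N, P i ν := by
    intro N
    induction N with
    | zero => intro ν _ v; simp
    | succ N ih =>
      intro ν h v
      refine Set.Finite.subset ((ih.and (hO N)) ν ⟨fun i hi => h i (by omega), h N (by omega)⟩ v) ?_
      intro s hs hs'
      apply hs
      intro i hi
      rcases Nat.lt_succ_iff_lt_or_eq.1 hi with hi | rfl
      · exact hs'.1 i hi
      · exact hs'.2
  intro N
  induction N with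
  | zero => exact ⟨0, by simp⟩
  | succ N ih =>
    obtain ⟨ν, h1, h2⟩ := (hOp N).common (hO N) ih (hE N)
    refine ⟨ν, fun i hi => ?_⟩
    rcases Nat.lt_succ_iff_lt_or_eq.1 hi with hi | rfl
    · exact h1 i hi
    · exact h2

/-- WLP in terms of `EX` -/
theorem wlp_of [CharZero F] {𝓛 : List (List (Fin n → F))} {W : Submodule F (Fin n → F)}
    (hci : CI W 𝓛) (h : ∀ j, 2 * j + 1 ≤ sg 𝓛 → EX (J W 𝓛) 1 j) :
    ∃ μ, ∀ j, MaxRank (J W 𝓛) (lin μ) 1 j := by
  have : Infinite F := CharZero.infinite F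
  obtain ⟨μ, hμ⟩ := exists_common (P := fun j ν => 2 * j + 1 ≤ sg 𝓛 → LI (J W 𝓛) ν 1 j)
    (fun j => Op_imp _ (Op_LI _ _ _)) (fun j => ex_imp (h j)) (sg 𝓛 + 1)
  exact ⟨μ, maxRank_of hci fun j hj => hμ j (by omega) hj⟩

/-- SLP in terms of `EX` -/
theorem slp_of [CharZero F] {𝓛 : List (List (Fin n → F))} {W : Submodule F (Fin n → F)}
    (hci : CI W 𝓛) (h : ∀ m j, 2 * j + m ≤ sg 𝓛 → EX (J W 𝓛) m j) :
    ∃ μ, ∀ m j, MaxRank (J W 𝓛) (lin μ) m j := by
  have : Infinite F := CharZero.infinite F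
  obtain ⟨μ, hμ⟩ := exists_common (P := fun j ν => 2 * j ≤ sg 𝓛 →
    LI (J W 𝓛) ν (sg 𝓛 - 2 * j) j)
    (fun j => Op_imp _ (Op_LI _ _ _)) (fun j => ex_imp fun hj => h _ j (by omega)) (sg 𝓛 + 1)
  refine ⟨μ, fun m => maxRank_of hci fun j hj => ?_⟩
  exact (hμ j (by omega) (by omega)).of_le (by omega)

/-! ### Artinian ideals -/

lemma not_finite_of_lt {W : Submodule F (Fin n → F)} (hW : Module.finrank F W < n) :
    ¬ Module.Finite F (MvPolynomial (Fin n) F ⧸ J W []) := by
  classical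
  intro hfin
  obtain ⟨x, hx⟩ := exists_notMem hW
  obtain ⟨lam, hlam0, hlam⟩ := Submodule.exists_le_ker_of_lt_top W
    (lt_top_iff_ne_top.2 (fun h => hx (h ▸ Submodule.mem_top)))
  let f : MvPolynomial (Fin n) F →ₐ[F] Polynomial F :=
    aeval fun i => lam (Pi.single i 1) • (Polynomial.X : Polynomial F)
  have hf : ∀ v, f (lin v) = lam v • (Polynomial.X : Polynomial F) := by
    intro v
    conv_rhs => rw [pi_eq_sum_univ' v]
    rw [lin_apply, map_sum, map_sum, Finset.sum_smul]
    refine Finset.sum_congr rfl fun i _ => ?_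
    rw [map_smul, aeval_X, map_smul, smul_assoc]
  have hker : ∀ a ∈ J W [], f a = 0 := by
    intro a ha
    have hle : J W [] ≤ RingHom.ker f := by
      rw [J_le_iff]
      refine ⟨fun v hv => ?_, by simp⟩
      rw [RingHom.mem_ker, hf, LinearMap.mem_ker.1 (hlam hv), zero_smul]
    exact RingHom.mem_ker.1 (hle ha)
  let g : (MvPolynomial (Fin n) F ⧸ J W []) →ₐ[F] Polynomial F := Ideal.Quotient.liftₐ _ f hker
  obtain ⟨v, hv⟩ : ∃ v, lam v ≠ 0 := by
    by_contra hcon
    push Not at hcon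
    exact hlam0 (LinearMap.ext hcon)
  have hX : g (Ideal.Quotient.mk _ (lin ((lam v)⁻¹ • v))) = Polynomial.X := by
    have h1 : g (Ideal.Quotient.mk _ (lin ((lam v)⁻¹ • v))) = f (lin ((lam v)⁻¹ • v)) := rfl
    rw [h1, hf, map_smul, smul_eq_mul, inv_mul_cancel₀ hv, one_smul]
  have hint : IsIntegral F (Ideal.Quotient.mk (J W []) (lin ((lam v)⁻¹ • v))) :=
    Algebra.IsIntegral.isIntegral _
  have hint2 := hint.map g
  rw [hX] at hint2
  exact Polynomial.transcendental_X F hint2.isAlgebraic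

lemma not_finite_aux : ∀ (𝓛 : List (List (Fin n → F))) (W : Submodule F (Fin n → F)), NE 𝓛 →
    Module.finrank F W + 𝓛.length < n →
    ¬ Module.Finite F (MvPolynomial (Fin n) F ⧸ J W 𝓛) := by
  intro 𝓛
  induction 𝓛 with
  | nil => intro W _ h; exact not_finite_of_lt (by simpa using h)
  | cons l 𝓛 ih =>
    intro W hne h hfin
    cases l with
    | nil => exact absurd rfl (hne [] List.mem_cons_self)
    | cons v g =>
      apply ih (W ⊔ Submodule.span F {v}) hne.tail
      · rw [List.length_cons] at h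
        by_cases hv : v ∈ W
        · have : W ⊔ Submodule.span F {v} = W := by
            rw [sup_eq_left, Submodule.span_singleton_le_iff_mem]; exact hv
          rw [this]; omega
        · rw [finrank_sup hv]; omega
      · have hle : J W ((v :: g) :: 𝓛) ≤ J (W ⊔ Submodule.span F {v}) 𝓛 := J_cons_le_sup
        exact Module.Finite.of_surjective (Ideal.Quotient.factorₐ F hle).toLinearMap
          (Ideal.Quotient.factor_surjective hle)

lemma J_cons_le_sup' {W : Submodule F (Fin n → F)} {v : Fin n → F} {l : List (Fin n → F)}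
    (hv : v ∈ l) {𝓛 : List (List (Fin n → F))} :
    J W (l :: 𝓛) ≤ J (W ⊔ Submodule.span F {v}) 𝓛 := by
  rw [J_cons, J_sup_span]
  refine sup_le_sup_right ?_ _
  rw [Ideal.span_singleton_le_span_singleton, pr]
  exact List.dvd_prod (List.mem_map_of_mem hv)

/-- an artinian ideal generated by the right number of products is a `CI` -/
theorem ci_of_finite : ∀ (𝓛 : List (List (Fin n → F))) (W : Submodule F (Fin n → F)), NE 𝓛 →
    Module.finrank F W + 𝓛.length = n →
    Module.Finite F (MvPolynomial (Fin n) F ⧸ J W 𝓛) → CI W 𝓛 := by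
  intro 𝓛
  induction 𝓛 with
  | nil => intro W hne h _; exact ⟨hne, trivial, h⟩
  | cons l 𝓛 ih =>
    intro W hne h hfin
    refine ⟨hne, ?_, h⟩
    intro v hv
    rw [List.length_cons] at h
    have hfin2 : Module.Finite F (MvPolynomial (Fin n) F ⧸ J (W ⊔ Submodule.span F {v}) 𝓛) :=
      Module.Finite.of_surjective (Ideal.Quotient.factorₐ F (J_cons_le_sup' hv)).toLinearMap
          (Ideal.Quotient.factor_surjective (J_cons_le_sup' hv))
    have hvW : v ∉ W := by
      intro hvW
      have : W ⊔ Submodule.span F {v} = W := by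
        rw [sup_eq_left, Submodule.span_singleton_le_iff_mem]; exact hvW
      rw [this] at hfin2
      exact not_finite_aux 𝓛 W hne.tail (by omega) hfin2
    refine ⟨hvW, ?_⟩
    exact (ih _ hne.tail (by rw [finrank_sup hvW]; omega) hfin2).2.1

lemma exists_lin {p : MvPolynomial (Fin n) F} (hp : p.IsHomogeneous 1) : ∃ v, p = lin v := by
  have h1 : p ∈ homogeneousSubmodule (Fin n) F 1 := hp
  rw [homogeneousSubmodule_one_eq_span_X] at h1
  obtain ⟨c, hc⟩ := (Submodule.mem_span_range_iff_exists_fun F).1 h1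
  exact ⟨c, by rw [lin_apply, hc]⟩

end Pool.Agent.LefProd
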