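import Pool.Agent.LefProd.Soc

/-!
The gluing argument: injectivity of `(ν + s v) ^ m` over polynomials in `s` when the kernel of
`ν ^ m` modulo the factor `v` is at most one-dimensional.
-/

set_option autoImplicit false
set_option linter.unusedSectionVars false

namespace Pool.Agent.LefProd

open MvPolynomial Polynomial

variable {F : Type*} [Field F] {n : ℕ}

/-- coefficients homogeneous of degree `j` -/
def HP (a : (MvPolynomial (Fin n) F)[X]) (j : ℕ) : Prop := ∀ i, (a.coeff i).IsHomogeneous j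

lemma HP.zero (j : ℕ) : HP (0 : (MvPolynomial (Fin n) F)[X]) j := fun i => by
  simpa using isHomogeneous_zero (Fin n) F j

lemma HP.add {a b : (MvPolynomial (Fin n) F)[X]} {j : ℕ} (ha : HP a j) (hb : HP b j) :
    HP (a + b) j := fun i => by
  rw [Polynomial.coeff_add]; exact (ha i).add (hb i)

lemma HP.sub {a b : (MvPolynomial (Fin n) F)[X]} {j : ℕ} (ha : HP a j) (hb : HP b j) :
    HP (a - b) j := fun i => by
  rw [Polynomial.coeff_sub]; exact (ha i).sub (hb i)

lemma HP.mul {a b : (MvPolynomial (Fin n) F)[X]} {i j : ℕ} (ha : HP a i) (hb : HP b j) :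
    HP (a * b) (i + j) := fun k => by
  rw [Polynomial.coeff_mul]
  exact IsHomogeneous.sum _ _ _ fun x _ => (ha x.1).mul (hb x.2)

lemma HP.C {p : MvPolynomial (Fin n) F} {j : ℕ} (hp : p.IsHomogeneous j) :
    HP (Polynomial.C p) j := fun i => by
  rw [Polynomial.coeff_C]
  split_ifs
  · exact hp
  · exact isHomogeneous_zero _ _ _

lemma HP.X : HP (Polynomial.X : (MvPolynomial (Fin n) F)[X]) 0 := fun i => by
  rw [Polynomial.coeff_X]
  split_ifs
  · exact isHomogeneous_one _ _
  · exact isHomogeneous_zero _ _ _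

lemma HP.derivative {a : (MvPolynomial (Fin n) F)[X]} {j : ℕ} (ha : HP a j) :
    HP (Polynomial.derivative a) j := fun i => by
  rw [Polynomial.coeff_derivative]
  have h1 : (((i : MvPolynomial (Fin n) F) + 1)).IsHomogeneous 0 := by
    have : ((i : MvPolynomial (Fin n) F) + 1) = MvPolynomial.C ((i : F) + 1) := by
      simp
    rw [this]
    exact isHomogeneous_C _ _
  simpa using (ha (i + 1)).mul h1

/-- constants -/
noncomputable def cR (c : F[X]) : (MvPolynomial (Fin n) F)[X] := c.map MvPolynomial.C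

lemma HP.cR (c : F[X]) : HP (cR c : (MvPolynomial (Fin n) F)[X]) 0 := fun i => by
  rw [LefProd.cR, Polynomial.coeff_map]
  exact isHomogeneous_C _ _

/-- the extension of an ideal to polynomials in `s` -/
noncomputable abbrev PI (I : Ideal (MvPolynomial (Fin n) F)) :
    Ideal (MvPolynomial (Fin n) F)[X] := I.map Polynomial.C

lemma mem_PI {I : Ideal (MvPolynomial (Fin n) F)} {a : (MvPolynomial (Fin n) F)[X]} :
    a ∈ PI I ↔ ∀ i, a.coeff i ∈ I := Ideal.mem_map_C_iff

lemma PI_mono {I I' : Ideal (MvPolynomial (Fin n) F)} (h : I ≤ I') : PI I ≤ PI I' :=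
  Ideal.map_mono h

lemma derivative_mem {I : Ideal (MvPolynomial (Fin n) F)} {a : (MvPolynomial (Fin n) F)[X]}
    (h : a ∈ PI I) : Polynomial.derivative a ∈ PI I := by
  rw [mem_PI] at h ⊢
  intro i
  rw [Polynomial.coeff_derivative]
  exact Ideal.mul_mem_right _ _ (h _)

lemma C_mul_mem {I I' : Ideal (MvPolynomial (Fin n) F)} {q : MvPolynomial (Fin n) F}
    (h : ∀ p, q * p ∈ I ↔ p ∈ I') {a : (MvPolynomial (Fin n) F)[X]} :
    Polynomial.C q * a ∈ PI I ↔ a ∈ PI I' := by
  rw [mem_PI, mem_PI]
  refine forall_congr' fun i => ?_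
  rw [Polynomial.coeff_C_mul, h]

/-- `ν + s v` -/
noncomputable def mus (ν v : Fin n → F) : (MvPolynomial (Fin n) F)[X] :=
  Polynomial.C (lin ν) + Polynomial.X * Polynomial.C (lin v)

lemma HP.mus (ν v : Fin n → F) : HP (mus ν v) 1 := by
  refine (HP.C (lin_isHomogeneous ν)).add ?_
  simpa using HP.X.mul (HP.C (lin_isHomogeneous v))

lemma HP.pow {a : (MvPolynomial (Fin n) F)[X]} {j : ℕ} (ha : HP a j) (m : ℕ) :
    HP (a ^ m) (j * m) := by
  induction m with
  | zero => simpa using HP.C (isHomogeneous_one (Fin n) F)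
  | succ m ih => rw [pow_succ, Nat.mul_succ]; exact ih.mul ha

lemma derivative_mus (ν v : Fin n → F) :
    Polynomial.derivative (mus ν v) = Polynomial.C (lin v) := by
  simp [LefProd.mus]

lemma coeff_zero_mus_pow (ν v : Fin n → F) (m : ℕ) :
    ((mus ν v) ^ m).coeff 0 = lin ν ^ m := by
  rw [Polynomial.coeff_zero_eq_eval_zero, Polynomial.eval_pow]
  simp [LefProd.mus]

/-- Polynomial version of `LI`. -/
def PLI (I : Ideal (MvPolynomial (Fin n) F)) (ν v : Fin n → F) (m j : ℕ) : Prop :=
  ∀ a : (MvPolynomial (Fin n) F)[X], HP a j → (mus ν v) ^ m * a ∈ PI I → a ∈ PI I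

lemma LI.pli {I : Ideal (MvPolynomial (Fin n) F)} {ν : Fin n → F} {m j : ℕ} (h : LI I ν m j)
    (v : Fin n → F) : PLI I ν v m j := by
  intro a ha hmem
  rw [mem_PI] at hmem ⊢
  intro i
  induction i using Nat.strong_induction_on with
  | _ i ih =>
    apply h _ (ha i)
    have := hmem i
    rw [Polynomial.coeff_mul, Finset.Nat.sum_antidiagonal_eq_sum_range_succ_mk,
      Finset.sum_range_succ'] at this
    simp only [Nat.sub_zero, coeff_zero_mus_pow] at this
    have h2 : ∑ k ∈ Finset.range i, ((mus ν v) ^ m).coeff (k + 1) * a.coeff (i - (k + 1)) ∈ I := by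
      refine Ideal.sum_mem _ fun k hk => Ideal.mul_mem_left _ _ (ih _ ?_)
      rw [Finset.mem_range] at hk
      omega
    exact (Ideal.add_mem_iff_right I h2).1 this

lemma cR_mul_mem {I : Ideal (MvPolynomial (Fin n) F)} {c : F[X]} (hc : c ≠ 0)
    {a : (MvPolynomial (Fin n) F)[X]} (h : cR c * a ∈ PI I) : a ∈ PI I := by
  classical
  rw [mem_PI] at h ⊢
  set k := c.natTrailingDegree with hk
  have hck : c.coeff k ≠ 0 := by
    have := (Polynomial.trailingCoeff_nonzero_iff_nonzero (p := c)).2 hc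
    exact this
  intro i
  induction i using Nat.strong_induction_on with
  | _ i ih =>
    have h1 := h (k + i)
    rw [Polynomial.coeff_mul, Finset.sum_eq_add_sum_sdiff_singleton_of_mem
      (i := (k, i)) (by simp)] at h1
    have h2 : ∑ x ∈ Finset.HasAntidiagonal.antidiagonal (k + i) \ {(k, i)}, (cR c : (MvPolynomial (Fin n) F)[X]).coeff x.1
        * a.coeff x.2 ∈ I := by
      refine Ideal.sum_mem _ fun x hx => ?_
      rw [Finset.mem_sdiff, Finset.HasAntidiagonal.mem_antidiagonal, Finset.mem_singleton] at hx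
      by_cases hxi : x.2 < i
      · exact Ideal.mul_mem_left _ _ (ih _ hxi)
      · have hx1 : x.1 < k := by
          rcases lt_or_eq_of_le (not_lt.1 hxi) with h3 | h3
          · omega
          · exfalso
            apply hx.2
            ext
            · simp; omega
            · simp; omega
        rw [LefProd.cR, Polynomial.coeff_map, Polynomial.coeff_eq_zero_of_lt_natTrailingDegree
          (hk ▸ hx1), map_zero, zero_mul]
        exact I.zero_mem
    have h3 := (Ideal.add_mem_iff_left I h2).1 h1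
    simp only [LefProd.cR, Polynomial.coeff_map] at h3
    have := Ideal.mul_mem_left I (MvPolynomial.C (c.coeff k)⁻¹) h3
    rwa [← mul_assoc, ← map_mul, inv_mul_cancel₀ hck, map_one, one_mul] at this

/-- choose coefficientwise -/
lemma lift {I : Ideal (MvPolynomial (Fin n) F)} {q : MvPolynomial (Fin n) F}
    {a : (MvPolynomial (Fin n) F)[X]} {j : ℕ}
    (h : ∀ i, ∃ w : MvPolynomial (Fin n) F, w.IsHomogeneous j ∧ a.coeff i - q * w ∈ I) :
    ∃ w : (MvPolynomial (Fin n) F)[X], HP w j ∧ a - Polynomial.C q * w ∈ PI I := by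
  classical
  choose w hw1 hw2 using h
  refine ⟨∑ i ∈ a.support, Polynomial.monomial i (w i), ?_, ?_⟩
  · intro i
    rw [Polynomial.finsetSum_coeff]
    refine IsHomogeneous.sum _ _ _ fun k _ => ?_
    rw [Polynomial.coeff_monomial]
    split_ifs
    · exact hw1 k
    · exact isHomogeneous_zero _ _ _
  · rw [mem_PI]
    intro i
    rw [Polynomial.coeff_sub, Polynomial.coeff_C_mul, Polynomial.finsetSum_coeff]
    simp only [Polynomial.coeff_monomial, Finset.sum_ite_eq']
    split_ifs with hi
    · exact hw2 i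
    · rw [Polynomial.notMem_support_iff.1 hi]
      simp

/-- The gluing argument, for one solution whose coefficients are proportional modulo the
second colon ideal. -/
theorem engineG0 [CharZero F] {W : Submodule F (Fin n → F)} {v : Fin n → F}
    {g : List (Fin n → F)} {𝓛 : List (List (Fin n → F))} (hci : CI W ((v :: g) :: 𝓛))
    {ν : Fin n → F} {m j : ℕ} (hm : 1 ≤ m)
    (G1 : 1 ≤ j → LI (J W (g :: 𝓛)) ν m (j - 1))
    (G2 : LI (J W (g :: 𝓛)) ν (m - 1) j)
    (G3 : 1 ≤ j → LI (J W (g :: 𝓛)) ν (m + 1) (j - 1))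
    (G4 : g.length ≤ j → LI (J (W ⊔ Submodule.span F {v}) 𝓛) ν m (j - g.length))
    {a : (MvPolynomial (Fin n) F)[X]} (ha : HP a j)
    (H : (mus ν v) ^ m * a ∈ PI (J W ((v :: g) :: 𝓛)))
    (G5 : ∀ i i0, ∃ x y : F, (x ≠ 0 ∨ y ≠ 0) ∧
      MvPolynomial.C x * a.coeff i + MvPolynomial.C y * a.coeff i0 ∈
        J (W ⊔ Submodule.span F {v}) 𝓛) :
    a ∈ PI (J W ((v :: g) :: 𝓛)) := by
  classical
  set I := J W ((v :: g) :: 𝓛) with hI
  set I' := J W (g :: 𝓛) with hI'
  set I'' := J (W ⊔ Submodule.span F {v}) 𝓛 with hI''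
  have hII' : I ≤ I' := J_cons_le_tail
  have hII'' : I ≤ I'' := J_cons_le_sup
  have hcl : ∀ p, lin v * p ∈ I ↔ p ∈ I' := fun p => colon_lin hci.1.tail hci.2.1
  have hcp : ∀ p, pr g * p ∈ I ↔ p ∈ I'' := fun p => colon_pr hci.1.tail hci.2.1
  have hv'' : lin v ∈ I'' :=
    lin_mem_J (Submodule.mem_sup_right (Submodule.mem_span_singleton_self v))
  set M := mus ν v with hM
  -- decomposition of elements of `I''`
  have hdec : ∀ b : (MvPolynomial (Fin n) F)[X], HP b j → b ∈ PI I'' →
      ∃ w : (MvPolynomial (Fin n) F)[X], (1 ≤ j → HP w (j - 1)) ∧ (j = 0 → w = 0) ∧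
        b - Polynomial.C (lin v) * w ∈ PI I := by
    intro b hb hbI
    rw [mem_PI] at hbI
    rcases Nat.eq_zero_or_pos j with hj | hj
    · subst hj
      refine ⟨0, by omega, fun _ => rfl, ?_⟩
      rw [mul_zero, sub_zero, mem_PI]
      intro i
      exact J_mono_cons (sup_hom_zero (hb i) (hbI i))
    · obtain ⟨w, hw1, hw2⟩ := lift (I := I) (q := lin v) (a := b) (j := j - 1) (fun i => by
        obtain ⟨x, hx1, hx2⟩ := sup_hom (hb i) (hbI i) hj
        exact ⟨x, hx1, J_mono_cons hx2⟩)
      exact ⟨w, fun _ => hw1, by omega, hw2⟩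
  -- step 1
  have hMν : ∀ b : (MvPolynomial (Fin n) F)[X], M ^ m * b ∈ PI I'' →
      Polynomial.C (lin ν ^ m) * b ∈ PI I'' := by
    intro b hb
    have h1 : M - Polynomial.C (lin ν) ∈ PI I'' := by
      rw [hM, mus, add_sub_cancel_left]
      exact Ideal.mul_mem_left _ _ (Ideal.mem_map_of_mem _ hv'')
    have h2 : M ^ m - Polynomial.C (lin ν) ^ m ∈ PI I'' := by
      obtain ⟨q, hq⟩ := sub_dvd_pow_sub_pow M (Polynomial.C (lin ν)) m
      rw [hq]
      exact Ideal.mul_mem_right _ _ h1
    have h3 := sub_mem hb (Ideal.mul_mem_right b _ h2)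
    rw [sub_mul, sub_sub_cancel] at h3
    rwa [Polynomial.C_pow]
  have H1 : ∀ i, lin ν ^ m * a.coeff i ∈ I'' := by
    intro i
    have := mem_PI.1 (hMν a (PI_mono hII'' H)) i
    rwa [Polynomial.coeff_C_mul] at this
  by_cases hA : ∀ i, a.coeff i ∈ I''
  · -- case A
    obtain ⟨w, hw1, hw0, hw2⟩ := hdec a ha (mem_PI.2 hA)
    have h1 : Polynomial.C (lin v) * (M ^ m * w) ∈ PI I := by
      have := sub_mem H (Ideal.mul_mem_left _ (M ^ m) hw2)
      convert this using 1
      ring
    rw [C_mul_mem hcl] at h1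
    have h2 : w ∈ PI I' := by
      rcases Nat.eq_zero_or_pos j with hj | hj
      · rw [hw0 hj]; exact zero_mem _
      · exact (G1 hj).pli v w (hw1 hj) h1
    have h3 := (C_mul_mem hcl).2 h2
    have := add_mem h3 hw2
    simpa using this
  · -- case B
    push Not at hA
    obtain ⟨i0, hp⟩ := hA
    set p := a.coeff i0 with hpdef
    have hconst : ∀ (x : F) (q : MvPolynomial (Fin n) F) (I0 : Ideal (MvPolynomial (Fin n) F)),
        x ≠ 0 → MvPolynomial.C x * q ∈ I0 → q ∈ I0 := by
      intro x q I0 hx hq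
      have := Ideal.mul_mem_left I0 (MvPolynomial.C x⁻¹) hq
      rwa [← mul_assoc, ← map_mul, inv_mul_cancel₀ hx, map_one, one_mul] at this
    have hex : ∀ i, ∃ c : F, a.coeff i - MvPolynomial.C c * p ∈ I'' := by
      intro i
      obtain ⟨x, y, hxy, hmem⟩ := G5 i i0
      have hx : x ≠ 0 := by
        rintro rfl
        rw [map_zero, zero_mul, zero_add] at hmem
        exact hp (hconst y p I'' (hxy.resolve_left (by simp)) hmem)
      refine ⟨-(y / x), hconst x _ I'' hx ?_⟩
      convert hmem using 1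
      have : (MvPolynomial.C y : MvPolynomial (Fin n) F)
          = MvPolynomial.C x * MvPolynomial.C (y / x) := by
        rw [← map_mul, mul_div_cancel₀ _ hx]
      rw [this, map_neg]
      ring
    choose c0 hc0 using hex
    set c : F[X] := ∑ i ∈ a.support, Polynomial.monomial i (c0 i) with hcdef
    have hccoeff : ∀ i, i ∈ a.support → c.coeff i = c0 i := by
      intro i hi
      rw [hcdef, Polynomial.finsetSum_coeff]
      simp only [Polynomial.coeff_monomial, Finset.sum_ite_eq', if_pos hi]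
    have hccoeff' : ∀ i, i ∉ a.support → c.coeff i = 0 := by
      intro i hi
      rw [hcdef, Polynomial.finsetSum_coeff]
      simp only [Polynomial.coeff_monomial, Finset.sum_ite_eq', if_neg hi]
    have hi0 : i0 ∈ a.support := by
      rw [Polynomial.mem_support_iff]
      intro h0
      apply hp
      rw [hpdef, h0]
      exact zero_mem _
    have hc : c ≠ 0 := by
      intro h0
      have h1 := hccoeff i0 hi0
      rw [h0, Polynomial.coeff_zero] at h1
      have h2 := hc0 i0
      rw [← h1, map_zero, zero_mul, sub_zero] at h2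
      exact hp h2
    have hb : a - cR c * Polynomial.C p ∈ PI I'' := by
      rw [mem_PI]
      intro i
      rw [Polynomial.coeff_sub, Polynomial.coeff_mul_C, cR, Polynomial.coeff_map]
      by_cases hi : i ∈ a.support
      · rw [hccoeff i hi]; exact hc0 i
      · rw [hccoeff' i hi, Polynomial.notMem_support_iff.1 hi]
        simp
    have hpj : p.IsHomogeneous j := ha i0
    have hbHP : HP (a - cR c * Polynomial.C p) j := by
      refine ha.sub ?_
      simpa using (HP.cR c).mul (HP.C hpj)
    obtain ⟨w, hw1, hw0, hw2⟩ := hdec _ hbHP hb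
    set a1 := cR c * Polynomial.C p + Polynomial.C (lin v) * w with ha1
    have haa1 : a - a1 ∈ PI I := by
      convert hw2 using 1
      rw [ha1]
      ring
    have H2 : M ^ m * a1 ∈ PI I := by
      have := sub_mem H (Ideal.mul_mem_left _ (M ^ m) haa1)
      convert this using 1
      ring
    have ha1HP : HP a1 j := by
      have h1 : HP (Polynomial.C (lin v) * w) j := by
        rcases Nat.eq_zero_or_pos j with hj | hj
        · rw [hw0 hj, mul_zero]; exact HP.zero _
        · have := (HP.C (lin_isHomogeneous v)).mul (hw1 hj)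
          rwa [Nat.add_sub_cancel' hj] at this
      refine HP.add ?_ h1
      simpa using (HP.cR c).mul (HP.C hpj)
    -- derivative
    have H3 := derivative_mem H2
    set Z := cR c * Polynomial.derivative w - Polynomial.derivative (cR c) * w with hZ
    have hda1 : Polynomial.derivative a1 = Polynomial.derivative (cR c) * Polynomial.C p
        + Polynomial.C (lin v) * Polynomial.derivative w := by
      rw [ha1, Polynomial.derivative_add, Polynomial.derivative_mul, Polynomial.derivative_mul]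
      simp
    have hdM : Polynomial.derivative (M ^ m * a1) =
        (m : (MvPolynomial (Fin n) F)[X]) * M ^ (m - 1) * Polynomial.C (lin v) * a1
          + M ^ m * Polynomial.derivative a1 := by
      rw [Polynomial.derivative_mul, Polynomial.derivative_pow, hM, derivative_mus]
      simp
    rw [hdM, hda1] at H3
    have H4 : Polynomial.C (lin v) * (M ^ (m - 1) *
        ((m : (MvPolynomial (Fin n) F)[X]) * (cR c * a1) + M * Z)) ∈ PI I := by
      have h1 := sub_mem (Ideal.mul_mem_left _ (cR c) H3)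
        (Ideal.mul_mem_left _ (Polynomial.derivative (cR c)) H2)
      convert h1 using 1
      have hMm : M ^ m = M ^ (m - 1) * M := by
        rw [← pow_succ, Nat.sub_add_cancel hm]
      rw [hMm, hZ, ha1]
      ring
    rw [C_mul_mem hcl] at H4
    have hZHP : 1 ≤ j → HP Z (j - 1) := by
      intro hj
      refine HP.sub ?_ ?_
      · simpa using (HP.cR c).mul (hw1 hj).derivative
      · simpa using (HP.cR c).derivative.mul (hw1 hj)
    have hZ0 : j = 0 → Z = 0 := by
      intro hj
      rw [hZ, hw0 hj]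
      simp
    have hcm : ((m : (MvPolynomial (Fin n) F)[X]) * cR c) = cR (Polynomial.C (m : F) * c) := by
      simp [cR]
    have hHP : HP ((m : (MvPolynomial (Fin n) F)[X]) * (cR c * a1) + M * Z) j := by
      refine HP.add ?_ ?_
      · rw [← mul_assoc, hcm]
        simpa using (HP.cR _).mul ha1HP
      · rcases Nat.eq_zero_or_pos j with hj | hj
        · rw [hZ0 hj, mul_zero]; exact HP.zero _
        · have := (HP.mus ν v).mul (hZHP hj)
          rwa [Nat.add_sub_cancel' hj] at this
    have H5 := G2.pli v _ hHP H4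
    have H6 : M ^ (m + 1) * Z ∈ PI I' := by
      have h1 := sub_mem (Ideal.mul_mem_left _ (M ^ m) H5)
        (Ideal.mul_mem_left _ ((m : (MvPolynomial (Fin n) F)[X]) * cR c) (PI_mono hII' H2))
      convert h1 using 1
      ring
    have H7 : Z ∈ PI I' := by
      rcases Nat.eq_zero_or_pos j with hj | hj
      · rw [hZ0 hj]; exact zero_mem _
      · exact (G3 hj).pli v _ (hZHP hj) H6
    have H8 : a1 ∈ PI I' := by
      have h1 := sub_mem H5 (Ideal.mul_mem_left _ M H7)
      rw [add_sub_cancel_right, ← mul_assoc, hcm] at h1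
      refine cR_mul_mem ?_ h1
      refine mul_ne_zero ?_ hc
      rw [Ne, Polynomial.C_eq_zero]
      exact Nat.cast_ne_zero.2 (by omega)
    have H9 : a ∈ PI I' := by
      have := add_mem (PI_mono hII' haa1) H8
      simpa using this
    -- last step
    by_cases hlt : j < g.length
    · rw [mem_PI] at H9 ⊢
      intro i
      exact J_mono_cons (cons_hom_lt (ha i) (H9 i) hlt)
    · obtain ⟨b, hb1, hb2⟩ := lift (I := I) (q := pr g) (a := a) (j := j - g.length) (fun i => by
        obtain ⟨x, hx1, hx2⟩ := cons_hom (ha i) (mem_PI.1 H9 i) (not_lt.1 hlt)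
        exact ⟨x, hx1, J_mono_cons hx2⟩)
      have h1 : Polynomial.C (pr g) * (M ^ m * b) ∈ PI I := by
        have := sub_mem H (Ideal.mul_mem_left _ (M ^ m) hb2)
        convert this using 1
        ring
      rw [C_mul_mem hcp] at h1
      have h2 := (G4 (not_lt.1 hlt)).pli v b hb1 h1
      have h3 := (C_mul_mem hcp).2 h2
      have := add_mem h3 hb2
      simpa using this

lemma coeff_ker {W : Submodule F (Fin n → F)} {v : Fin n → F}
    {g : List (Fin n → F)} {𝓛 : List (List (Fin n → F))} {ν : Fin n → F} {m : ℕ}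
    {a : (MvPolynomial (Fin n) F)[X]}
    (H : (mus ν v) ^ m * a ∈ PI (J W ((v :: g) :: 𝓛))) (i : ℕ) :
    lin ν ^ m * a.coeff i ∈ J (W ⊔ Submodule.span F {v}) 𝓛 := by
  have hv'' : lin v ∈ J (W ⊔ Submodule.span F {v}) 𝓛 :=
    lin_mem_J (Submodule.mem_sup_right (Submodule.mem_span_singleton_self v))
  have h1 : mus ν v - Polynomial.C (lin ν) ∈ PI (J (W ⊔ Submodule.span F {v}) 𝓛) := by
    rw [mus, add_sub_cancel_left]
    exact Ideal.mul_mem_left _ _ (Ideal.mem_map_of_mem _ hv'')
  have h2 : mus ν v ^ m - Polynomial.C (lin ν) ^ m ∈ PI (J (W ⊔ Submodule.span F {v}) 𝓛) := by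
    obtain ⟨q, hq⟩ := sub_dvd_pow_sub_pow (mus ν v) (Polynomial.C (lin ν)) m
    rw [hq]
    exact Ideal.mul_mem_right _ _ h1
  have h3 := sub_mem (PI_mono J_cons_le_sup H) (Ideal.mul_mem_right a _ h2)
  rw [sub_mul, sub_sub_cancel, ← Polynomial.C_pow] at h3
  have := mem_PI.1 h3 i
  rwa [Polynomial.coeff_C_mul] at this

/-- The gluing argument. -/
theorem engineG [CharZero F] {W : Submodule F (Fin n → F)} {v : Fin n → F}
    {g : List (Fin n → F)} {𝓛 : List (List (Fin n → F))} (hci : CI W ((v :: g) :: 𝓛))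
    {ν : Fin n → F} {m j : ℕ} (hm : 1 ≤ m)
    (G1 : 1 ≤ j → LI (J W (g :: 𝓛)) ν m (j - 1))
    (G2 : LI (J W (g :: 𝓛)) ν (m - 1) j)
    (G3 : 1 ≤ j → LI (J W (g :: 𝓛)) ν (m + 1) (j - 1))
    (G4 : g.length ≤ j → LI (J (W ⊔ Submodule.span F {v}) 𝓛) ν m (j - g.length))
    (G5 : KD (J (W ⊔ Submodule.span F {v}) 𝓛) ν m j) :
    PLI (J W ((v :: g) :: 𝓛)) ν v m j := by
  intro a ha H
  exact engineG0 hci hm G1 G2 G3 G4 ha H fun i i0 =>
    G5 _ _ (ha i) (ha i0) (coeff_ker H i) (coeff_ker H i0)

end Pool.Agent.LefProd
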