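import Pool.Agent.LefProd.Dual

/-!
Translation from families of products of linear forms to lists.
-/

set_option autoImplicit false
set_option linter.unusedSectionVars false

namespace Pool.Agent.LefProd

open MvPolynomial

universe u

variable {F : Type u} [Field F] {n : ℕ}

lemma sg_add_length {𝓛 : List (List (Fin n → F))} (hne : NE 𝓛) :
    sg 𝓛 + 𝓛.length = len 𝓛 := by
  induction 𝓛 with
  | nil => rfl
  | cons l 𝓛 ih =>
    have h1 := List.length_pos_iff.2 (hne l List.mem_cons_self)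
    rw [sg_cons, len_cons, List.length_cons, ← ih hne.tail]
    omega

theorem reduce (f : Fin n → MvPolynomial (Fin n) F) (a : Fin n → ℕ) (ha : ∀ i, 1 ≤ a i)
    (hf : ∀ i, ∃ ℓ : Fin (a i) → MvPolynomial (Fin n) F, (∀ j, (ℓ j).IsHomogeneous 1) ∧
      f i = ∏ j, ℓ j)
    (hfin : Module.Finite F (MvPolynomial (Fin n) F ⧸ Ideal.span (Set.range f))) :
    ∃ L : Fin n → List (Fin n → F), (∀ i, (L i).length = a i) ∧ CI ⊥ (List.ofFn L) ∧
      Ideal.span (Set.range f) = J ⊥ (List.ofFn L) := by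
  choose ℓ hℓ hfℓ using hf
  choose v hv using fun i j => exists_lin (hℓ i j)
  let L : Fin n → List (Fin n → F) := fun i => List.ofFn (v i)
  have hpr : ∀ i, pr (L i) = f i := by
    intro i
    rw [pr, List.map_ofFn, List.prod_ofFn, hfℓ i]
    refine Finset.prod_congr rfl fun j _ => ?_
    rw [Function.comp_apply, hv i j]
  have hI : Ideal.span (Set.range f) = J ⊥ (List.ofFn L) := by
    apply le_antisymm
    · rw [Ideal.span_le]
      rintro _ ⟨i, rfl⟩
      rw [← hpr]
      exact pr_mem_J ((List.mem_ofFn' _ _).2 ⟨i, rfl⟩)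
    · rw [J_le_iff]
      constructor
      · intro w hw
        rw [Submodule.mem_bot] at hw
        rw [hw, map_zero]
        exact Ideal.zero_mem _
      · intro l hl
        obtain ⟨i, rfl⟩ := (List.mem_ofFn' _ _).1 hl
        rw [hpr]
        exact Ideal.subset_span ⟨i, rfl⟩
  have hlen : ∀ i, (L i).length = a i := fun i => List.length_ofFn
  refine ⟨L, hlen, ?_, hI⟩
  apply ci_of_finite
  · intro l hl
    obtain ⟨i, rfl⟩ := (List.mem_ofFn' _ _).1 hl
    intro h0
    have h1 := hlen i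
    rw [h0, List.length_nil] at h1
    have := ha i
    omega
  · rw [finrank_bot, List.length_ofFn, zero_add]
  · rw [← hI]; exact hfin

lemma len_ofFn (L : Fin n → List (Fin n → F)) : len (List.ofFn L) = ∑ i, (L i).length := by
  rw [len, List.map_ofFn, List.sum_ofFn]
  rfl

theorem reduce_one (f : Fin n → MvPolynomial (Fin n) F) (a : Fin n → ℕ) (ha : ∀ i, 1 ≤ a i)
    (hf : ∀ i, ∃ ℓ : Fin (a i) → MvPolynomial (Fin n) F, (∀ j, (ℓ j).IsHomogeneous 1) ∧
      f i = ∏ j, ℓ j)
    (hfin : Module.Finite F (MvPolynomial (Fin n) F ⧸ Ideal.span (Set.range f))) (i0 : Fin n) :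
    ∃ (l : List (Fin n → F)) (𝓛 : List (List (Fin n → F))), l.length = a i0 ∧
      CI ⊥ (l :: 𝓛) ∧ Ideal.span (Set.range f) = J ⊥ (l :: 𝓛) ∧
      sg (l :: 𝓛) + n = ∑ i, a i := by
  classical
  obtain ⟨L, h1, h2, h3⟩ := reduce f a ha hf hfin
  have hmem : L i0 ∈ List.ofFn L := (List.mem_ofFn' _ _).2 ⟨i0, rfl⟩
  have hperm := List.perm_cons_erase hmem
  refine ⟨L i0, (List.ofFn L).erase (L i0), h1 i0, h2.perm hperm, ?_, ?_⟩
  · rw [h3, J_perm hperm]
  · rw [← sg_perm hperm]
    have h4 := sg_add_length h2.1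
    rw [List.length_ofFn, len_ofFn] at h4
    simp only [h1] at h4
    exact h4

end Pool.Agent.LefProd
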