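import Pool.Agent.LefProd.Dual

/-!
Kernels of dimension at most two: openness, peeling, and orthogonality.
-/

set_option autoImplicit false
set_option linter.unusedSectionVars false

namespace Pool.Agent.LefProd

open MvPolynomial Polynomial

universe u

variable {F : Type u} [Field F] {n : ℕ}

/-- the kernel of `μ ^ m` in degree `j` modulo `I` is at most two-dimensional. -/
def KT (I : Ideal (MvPolynomial (Fin n) F)) (μ : Fin n → F) (m j : ℕ) : Prop :=
  ∀ p q r : MvPolynomial (Fin n) F, p.IsHomogeneous j → q.IsHomogeneous j → r.IsHomogeneous j →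
    lin μ ^ m * p ∈ I → lin μ ^ m * q ∈ I → lin μ ^ m * r ∈ I →
    ∃ a b c : F, (a ≠ 0 ∨ b ≠ 0 ∨ c ≠ 0) ∧
      MvPolynomial.C a * p + MvPolynomial.C b * q + MvPolynomial.C c * r ∈ I

lemma KD.kt {I : Ideal (MvPolynomial (Fin n) F)} {μ : Fin n → F} {m j : ℕ} (h : KD I μ m j) :
    KT I μ m j := by
  intro p q r hp hq _ h1 h2 _
  obtain ⟨a, b, hab, hmem⟩ := h p q hp hq h1 h2
  refine ⟨a, b, 0, ?_, by simpa using hmem⟩
  rcases hab with h | h
  · exact Or.inl h
  · exact Or.inr (Or.inl h)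

/-- kernel at most two-dimensional, for matrices -/
def KTm {κ ι T : Type*} [Fintype ι] [CommRing T] (A : Matrix κ ι T) : Prop :=
  ∀ x y z : ι → T, Matrix.mulVec A x = 0 → Matrix.mulVec A y = 0 → Matrix.mulVec A z = 0 →
    ∃ a b c : T, (a ≠ 0 ∨ b ≠ 0 ∨ c ≠ 0) ∧ a • x + b • y + c • z = 0

lemma KTm_of_aug {κ ι T : Type*} [Fintype ι] [DecidableEq ι] [CommRing T] [IsDomain T]
    {A : Matrix κ ι T} {i0 : ι} (h : KDm (Aug A i0)) : KTm A := by
  -- reduce to a vector with nonzero coordinate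
  have key : ∀ x y z : ι → T, Matrix.mulVec A x = 0 → Matrix.mulVec A y = 0 →
      Matrix.mulVec A z = 0 → x i0 ≠ 0 →
      ∃ a b c : T, (a ≠ 0 ∨ b ≠ 0 ∨ c ≠ 0) ∧ a • x + b • y + c • z = 0 := by
    intro x y z hx hy hz hx0
    have h1 : Matrix.mulVec (Aug A i0) (x i0 • y - y i0 • x) = 0 := by
      rw [Aug_mulVec]
      constructor
      · rw [Matrix.mulVec_sub, Matrix.mulVec_smul, Matrix.mulVec_smul, hx, hy]; simp
      · simp [mul_comm]
    have h2 : Matrix.mulVec (Aug A i0) (x i0 • z - z i0 • x) = 0 := by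
      rw [Aug_mulVec]
      constructor
      · rw [Matrix.mulVec_sub, Matrix.mulVec_smul, Matrix.mulVec_smul, hx, hz]; simp
      · simp [mul_comm]
    obtain ⟨p, q, hpq, h3⟩ := h _ _ h1 h2
    refine ⟨-(p * y i0) - q * z i0, p * x i0, q * x i0, ?_, ?_⟩
    · rcases hpq with h | h
      · exact Or.inr (Or.inl (mul_ne_zero h hx0))
      · exact Or.inr (Or.inr (mul_ne_zero h hx0))
    · rw [← h3]
      funext k
      simp only [Pi.add_apply, Pi.smul_apply, Pi.sub_apply, smul_eq_mul]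
      ring
  intro x y z hx hy hz
  by_cases hx0 : x i0 = 0
  · by_cases hy0 : y i0 = 0
    · obtain ⟨a, b, hab, h3⟩ := h x y ((Aug_mulVec A i0 x).2 ⟨hx, hx0⟩)
        ((Aug_mulVec A i0 y).2 ⟨hy, hy0⟩)
      refine ⟨a, b, 0, ?_, by rw [zero_smul, add_zero]; exact h3⟩
      rcases hab with h | h
      · exact Or.inl h
      · exact Or.inr (Or.inl h)
    · obtain ⟨a, b, c, habc, h3⟩ := key y x z hy hx hz hy0
      refine ⟨b, a, c, ?_, ?_⟩
      · rcases habc with h | h | h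
        · exact Or.inr (Or.inl h)
        · exact Or.inl h
        · exact Or.inr (Or.inr h)
      · rw [← h3, add_comm (b • x)]
  · exact key x y z hx hy hz hx0

lemma exists_aug_KTm {κ ι : Type*} [Fintype ι] [DecidableEq ι] {A : Matrix κ ι F} (h : KTm A)
    (hn : ¬ Inj A) : ∃ i0, KDm (Aug A i0) := by
  rw [Inj] at hn
  push Not at hn
  obtain ⟨y, hy, hy0⟩ := hn
  obtain ⟨i0, hi0⟩ := Function.ne_iff.1 hy0
  refine ⟨i0, fun x z hx hz => ?_⟩
  rw [Aug_mulVec] at hx hz
  obtain ⟨a, b, c, habc, h1⟩ := h x y z hx.1 hy hz.1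
  have h2 := congrFun h1 i0
  simp only [Pi.add_apply, Pi.smul_apply, hx.2, hz.2, mul_zero, zero_add, Pi.zero_apply,
    smul_eq_mul, add_zero] at h2
  have hb : b = 0 := (mul_eq_zero.1 h2).resolve_right hi0
  rw [hb, zero_smul, add_zero] at h1
  refine ⟨a, c, ?_, h1⟩
  rcases habc with h | h | h
  · exact Or.inl h
  · exact absurd hb h
  · exact Or.inr h

lemma KDm.ktm {κ ι T : Type*} [Fintype ι] [CommRing T] {A : Matrix κ ι T} (h : KDm A) :
    KTm A := by
  intro x y z hx hy _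
  obtain ⟨a, b, hab, h3⟩ := h x y hx hy
  refine ⟨a, b, 0, ?_, by rw [zero_smul, add_zero]; exact h3⟩
  rcases hab with h | h
  · exact Or.inl h
  · exact Or.inr (Or.inl h)

/-- If a specialisation at `0` has small kernel then so have almost all specialisations. -/
lemma finite_bad_KDm {κ ι : Type*} [Fintype κ] [Fintype ι] [DecidableEq κ] [DecidableEq ι]
    {A : Matrix κ ι F[X]} (h : KDm (A.map (Polynomial.aeval (0 : F) : F[X] →ₐ[F] F))) :
    {s : F | ¬ KDm (A.map (Polynomial.aeval s : F[X] →ₐ[F] F))}.Finite := by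
  classical
  by_cases hI : Inj (A.map (Polynomial.aeval (0 : F) : F[X] →ₐ[F] F))
  · obtain ⟨Q, -, hQ⟩ := inj_of_specialization _ hI
    refine Set.Finite.subset (finite_bad_of_inj hQ) ?_
    intro s hs hs'
    exact hs (KDm.of_inj hs')
  · obtain ⟨i0, hi0⟩ := exists_aug h hI
    have h1 : Inj ((Aug A i0).map (Polynomial.aeval (0 : F) : F[X] →ₐ[F] F)) := by
      have := Aug_map ((Polynomial.aeval (0 : F) : F[X] →ₐ[F] F) : F[X] →+* F) A i0
      simp only [RingHom.coe_coe] at this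
      rw [this]
      exact hi0
    obtain ⟨Q, -, hQ⟩ := inj_of_specialization _ h1
    refine Set.Finite.subset (finite_bad_of_inj hQ) ?_
    intro s hs hs'
    apply hs
    apply KDm_of_aug (i0 := i0)
    have := Aug_map ((Polynomial.aeval s : F[X] →ₐ[F] F) : F[X] →+* F) A i0
    simp only [RingHom.coe_coe] at this
    rw [this] at hs'
    exact hs'

lemma finite_bad_KTm {κ ι : Type*} [Fintype κ] [Fintype ι] [DecidableEq κ] [DecidableEq ι]
    {A : Matrix κ ι F[X]} (h : KTm (A.map (Polynomial.aeval (0 : F) : F[X] →ₐ[F] F))) :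
    {s : F | ¬ KTm (A.map (Polynomial.aeval s : F[X] →ₐ[F] F))}.Finite := by
  classical
  by_cases hI : Inj (A.map (Polynomial.aeval (0 : F) : F[X] →ₐ[F] F))
  · obtain ⟨Q, -, hQ⟩ := inj_of_specialization _ hI
    refine Set.Finite.subset (finite_bad_of_inj hQ) ?_
    intro s hs hs'
    exact hs (KDm.of_inj hs').ktm
  · obtain ⟨i0, hi0⟩ := exists_aug_KTm h hI
    have h1 : KDm ((Aug A i0).map (Polynomial.aeval (0 : F) : F[X] →ₐ[F] F)) := by
      have := Aug_map ((Polynomial.aeval (0 : F) : F[X] →ₐ[F] F) : F[X] →+* F) A i0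
      simp only [RingHom.coe_coe] at this
      rw [this]
      exact hi0
    refine Set.Finite.subset (finite_bad_KDm h1) ?_
    intro s hs hs'
    apply hs
    apply KTm_of_aug (i0 := i0)
    have := Aug_map ((Polynomial.aeval s : F[X] →ₐ[F] F) : F[X] →+* F) A i0
    simp only [RingHom.coe_coe] at this
    rw [this] at hs'
    exact hs'

lemma pow_mem_iff {I : Ideal (MvPolynomial (Fin n) F)} {j m : ℕ} {μ : Fin n → F}
    {p : MvPolynomial (Fin n) F} (hp : p.IsHomogeneous j) :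
    lin μ ^ m * p ∈ I ↔ Matrix.mulVec (Pw I μ j m) (co I j p) = 0 := by
  rw [← co_mul_lin_pow μ m hp, co_eq_zero_iff (lin_pow_mul_hom hp)]

lemma C_mul_hom {j : ℕ} (a : F) {p : MvPolynomial (Fin n) F} (hp : p.IsHomogeneous j) :
    (MvPolynomial.C a * p).IsHomogeneous j := by
  have h1 := (isHomogeneous_C (Fin n) a).mul hp
  rwa [zero_add] at h1

lemma KT_iff {I : Ideal (MvPolynomial (Fin n) F)} {j m : ℕ} {μ : Fin n → F} :
    KT I μ m j ↔ KTm (Pw I μ j m) := by
  have hcomb : ∀ (a b c : F) (p q r : MvPolynomial (Fin n) F),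
      co I j (MvPolynomial.C a * p + MvPolynomial.C b * q + MvPolynomial.C c * r) =
        a • co I j p + b • co I j q + c • co I j r := by
    intro a b c p q r
    funext i
    simp only [co, map_add, Pi.add_apply, Pi.smul_apply, ← MvPolynomial.smul_eq_C_mul, map_smul]
  constructor
  · intro h x y z hx hy hz
    obtain ⟨a, b, c, habc, hmem⟩ := h (el I j x) (el I j y) (el I j z) (el_hom x) (el_hom y)
      (el_hom z) ((pow_mem_iff (el_hom x)).2 (by rw [co_el, hx]))
      ((pow_mem_iff (el_hom y)).2 (by rw [co_el, hy]))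
      ((pow_mem_iff (el_hom z)).2 (by rw [co_el, hz]))
    refine ⟨a, b, c, habc, ?_⟩
    rwa [← co_eq_zero_iff (((C_mul_hom a (el_hom x)).add (C_mul_hom b (el_hom y))).add
      (C_mul_hom c (el_hom z))), hcomb, co_el, co_el, co_el] at hmem
  · intro h p q r hp hq hr h1 h2 h3
    obtain ⟨a, b, c, habc, hmem⟩ := h (co I j p) (co I j q) (co I j r) ((pow_mem_iff hp).1 h1)
      ((pow_mem_iff hq).1 h2) ((pow_mem_iff hr).1 h3)
    refine ⟨a, b, c, habc, ?_⟩
    rwa [← co_eq_zero_iff (((C_mul_hom a hp).add (C_mul_hom b hq)).add (C_mul_hom c hr)), hcomb]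

lemma Op_KT (I : Ideal (MvPolynomial (Fin n) F)) (m j : ℕ) : Op fun μ => KT I μ m j := by
  intro ν h v
  have h0 : Pw I (ν + (0 : F) • v) j m = Pw I ν j m := by simp
  have h1 : KTm ((Pw I (cv ν v) j m).map (Polynomial.aeval (0 : F) : F[X] →ₐ[F] F)) := by
    rw [Pw_cv_map, h0]
    exact KT_iff.1 h
  refine Set.Finite.subset (finite_bad_KTm h1) ?_
  intro s hs hs'
  rw [Pw_cv_map] at hs'
  exact hs (KT_iff.2 hs')

/-- some linear form has `μ ^ m` with kernel of dimension at most two in degree `j` -/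
def ET (I : Ideal (MvPolynomial (Fin n) F)) (m j : ℕ) : Prop := ∃ ν, KT I ν m j

lemma EK.et {I : Ideal (MvPolynomial (Fin n) F)} {m j : ℕ} (h : EK I m j) : ET I m j := by
  obtain ⟨ν, h⟩ := h
  exact ⟨ν, h.kt⟩

/-- an element of the kernel which lies in the second colon ideal comes from the first -/
lemma peel {W : Submodule F (Fin n → F)} {v : Fin n → F}
    {g : List (Fin n → F)} {𝓛 : List (List (Fin n → F))} (hci : CI W ((v :: g) :: 𝓛))
    {ν : Fin n → F} {m j : ℕ} {p : MvPolynomial (Fin n) F} (hp : p.IsHomogeneous j)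
    (h : lin ν ^ m * p ∈ J W ((v :: g) :: 𝓛)) (h2 : p ∈ J (W ⊔ Submodule.span F {v}) 𝓛) :
    ∃ r : MvPolynomial (Fin n) F, (1 ≤ j → r.IsHomogeneous (j - 1)) ∧ (j = 0 → r = 0) ∧
      lin ν ^ m * r ∈ J W (g :: 𝓛) ∧ p - lin v * r ∈ J W ((v :: g) :: 𝓛) := by
  rcases Nat.eq_zero_or_pos j with hj | hj
  · subst hj
    refine ⟨0, by omega, fun _ => rfl, by simp, ?_⟩
    rw [mul_zero, sub_zero]
    exact J_mono_cons (sup_hom_zero hp h2)
  · obtain ⟨r, hr1, hr2⟩ := sup_hom hp h2 hj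
    refine ⟨r, fun _ => hr1, by omega, ?_, J_mono_cons hr2⟩
    rw [← colon_lin hci.1.tail hci.2.1]
    have := sub_mem h (Ideal.mul_mem_left _ (lin ν ^ m) (J_mono_cons hr2))
    convert this using 1
    ring

/-- peeling, `1 + 1` -/
theorem stepKKT [Infinite F] {W : Submodule F (Fin n → F)} {v : Fin n → F}
    {g : List (Fin n → F)} {𝓛 : List (List (Fin n → F))} (hci : CI W ((v :: g) :: 𝓛))
    {m j : ℕ}
    (G1 : 1 ≤ j → EK (J W (g :: 𝓛)) m (j - 1))
    (G5 : EK (J (W ⊔ Submodule.span F {v}) 𝓛) m j) :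
    ET (J W ((v :: g) :: 𝓛)) m j := by
  obtain ⟨ν, h1, h2⟩ := (Op_imp (1 ≤ j) (Op_KD (J W (g :: 𝓛)) m (j - 1))).common
    (Op_KD (J (W ⊔ Submodule.span F {v}) 𝓛) m j) (ex_imp G1) G5
  refine ⟨ν, ?_⟩
  intro p1 p2 p3 hp1 hp2 hp3 hm1 hm2 hm3
  set I := J W ((v :: g) :: 𝓛) with hI
  set I'' := J (W ⊔ Submodule.span F {v}) 𝓛 with hI''
  have hle : I ≤ I'' := J_cons_le_sup
  -- two elements of the kernel in `I''` are dependent modulo `I`
  have key : ∀ u1 u2 : MvPolynomial (Fin n) F, u1.IsHomogeneous j → u2.IsHomogeneous j →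
      lin ν ^ m * u1 ∈ I → lin ν ^ m * u2 ∈ I → u1 ∈ I'' → u2 ∈ I'' →
      ∃ x y : F, (x ≠ 0 ∨ y ≠ 0) ∧ MvPolynomial.C x * u1 + MvPolynomial.C y * u2 ∈ I := by
    intro u1 u2 hu1 hu2 hk1 hk2 hi1 hi2
    obtain ⟨r1, hr1, hr10, hrk1, hur1⟩ := peel hci hu1 hk1 hi1
    obtain ⟨r2, hr2, hr20, hrk2, hur2⟩ := peel hci hu2 hk2 hi2
    rcases Nat.eq_zero_or_pos j with hj | hj
    · refine ⟨1, 0, Or.inl one_ne_zero, ?_⟩
      rw [hr10 hj, mul_zero, sub_zero] at hur1
      simpa using hur1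
    · obtain ⟨x, y, hxy, hmem⟩ := h1 hj r1 r2 (hr1 hj) (hr2 hj) hrk1 hrk2
      refine ⟨x, y, hxy, ?_⟩
      rw [← colon_lin hci.1.tail hci.2.1] at hmem
      have := add_mem (add_mem (Ideal.mul_mem_left _ (MvPolynomial.C x) hur1)
        (Ideal.mul_mem_left _ (MvPolynomial.C y) hur2)) hmem
      convert this using 1
      ring
  have hconst : ∀ (x : F) (q : MvPolynomial (Fin n) F) (I0 : Ideal (MvPolynomial (Fin n) F)),
      x ≠ 0 → MvPolynomial.C x * q ∈ I0 → q ∈ I0 := by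
    intro x q I0 hx hq
    have := Ideal.mul_mem_left I0 (MvPolynomial.C x⁻¹) hq
    rwa [← mul_assoc, ← map_mul, inv_mul_cancel₀ hx, map_one, one_mul] at this
  by_cases hp1I : p1 ∈ I''
  · obtain ⟨b, c, hbc, hmem⟩ := h2 p2 p3 hp2 hp3 (hle hm2) (hle hm3)
    obtain ⟨x, y, hxy, hmem2⟩ := key p1 (MvPolynomial.C b * p2 + MvPolynomial.C c * p3) hp1
      ((C_mul_hom b hp2).add (C_mul_hom c hp3)) hm1 (by
        have := add_mem (Ideal.mul_mem_left _ (MvPolynomial.C b) hm2)
          (Ideal.mul_mem_left _ (MvPolynomial.C c) hm3)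
        convert this using 1
        ring) hp1I hmem
    refine ⟨x, y * b, y * c, ?_, ?_⟩
    · by_cases hx : x = 0
      · have hy := hxy.resolve_left (by simp [hx])
        rcases hbc with h | h
        · exact Or.inr (Or.inl (mul_ne_zero hy h))
        · exact Or.inr (Or.inr (mul_ne_zero hy h))
      · exact Or.inl hx
    · convert hmem2 using 1
      simp only [map_mul]
      ring
  · -- p2, p3 are multiples of p1 modulo I''
    have hex : ∀ q : MvPolynomial (Fin n) F, q.IsHomogeneous j → lin ν ^ m * q ∈ I →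
        ∃ c : F, q - MvPolynomial.C c * p1 ∈ I'' := by
      intro q hq hqm
      obtain ⟨x, y, hxy, hmem⟩ := h2 q p1 hq hp1 (hle hqm) (hle hm1)
      have hx : x ≠ 0 := by
        rintro rfl
        rw [map_zero, zero_mul, zero_add] at hmem
        exact hp1I (hconst y p1 I'' (hxy.resolve_left (by simp)) hmem)
      refine ⟨-(y / x), hconst x _ I'' hx ?_⟩
      convert hmem using 1
      have : (MvPolynomial.C y : MvPolynomial (Fin n) F)
          = MvPolynomial.C x * MvPolynomial.C (y / x) := by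
        rw [← map_mul, mul_div_cancel₀ _ hx]
      rw [this, map_neg]
      ring
    obtain ⟨c2, hc2⟩ := hex p2 hp2 hm2
    obtain ⟨c3, hc3⟩ := hex p3 hp3 hm3
    have hk : ∀ (c : F) (q : MvPolynomial (Fin n) F), lin ν ^ m * q ∈ I →
        lin ν ^ m * (q - MvPolynomial.C c * p1) ∈ I := by
      intro c q hq
      have := sub_mem hq (Ideal.mul_mem_left _ (MvPolynomial.C c) hm1)
      convert this using 1
      ring
    obtain ⟨x, y, hxy, hmem⟩ := key _ _ (hp2.sub (C_mul_hom c2 hp1)) (hp3.sub (C_mul_hom c3 hp1))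
      (hk c2 p2 hm2) (hk c3 p3 hm3) hc2 hc3
    refine ⟨-(x * c2) - y * c3, x, y, ?_, ?_⟩
    · rcases hxy with h | h
      · exact Or.inr (Or.inl h)
      · exact Or.inr (Or.inr h)
    · convert hmem using 1
      simp only [map_sub, map_neg, map_mul]
      ring

/-- peeling, `0 + 2` -/
theorem stepLKT [Infinite F] {W : Submodule F (Fin n → F)} {v : Fin n → F}
    {g : List (Fin n → F)} {𝓛 : List (List (Fin n → F))} (hci : CI W ((v :: g) :: 𝓛))
    {m j : ℕ}
    (G1 : 1 ≤ j → EX (J W (g :: 𝓛)) m (j - 1))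
    (G5 : ET (J (W ⊔ Submodule.span F {v}) 𝓛) m j) :
    ET (J W ((v :: g) :: 𝓛)) m j := by
  obtain ⟨ν, h1, h2⟩ := (Op_imp (1 ≤ j) (Op_LI (J W (g :: 𝓛)) m (j - 1))).common
    (Op_KT (J (W ⊔ Submodule.span F {v}) 𝓛) m j) (ex_imp G1) G5
  refine ⟨ν, ?_⟩
  intro p1 p2 p3 hp1 hp2 hp3 hm1 hm2 hm3
  obtain ⟨a, b, c, habc, hmem⟩ := h2 p1 p2 p3 hp1 hp2 hp3 (J_cons_le_sup hm1)
    (J_cons_le_sup hm2) (J_cons_le_sup hm3)
  refine ⟨a, b, c, habc, ?_⟩
  have hk : lin ν ^ m * (MvPolynomial.C a * p1 + MvPolynomial.C b * p2 + MvPolynomial.C c * p3) ∈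
      J W ((v :: g) :: 𝓛) := by
    have := add_mem (add_mem (Ideal.mul_mem_left _ (MvPolynomial.C a) hm1)
      (Ideal.mul_mem_left _ (MvPolynomial.C b) hm2)) (Ideal.mul_mem_left _ (MvPolynomial.C c) hm3)
    convert this using 1
    ring
  obtain ⟨r, hr, hr0, hrk, hur⟩ := peel hci
    (((C_mul_hom a hp1).add (C_mul_hom b hp2)).add (C_mul_hom c hp3)) hk hmem
  rcases Nat.eq_zero_or_pos j with hj | hj
  · rw [hr0 hj, mul_zero, sub_zero] at hur
    exact hur
  · have h3 := h1 hj r (hr hj) hrk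
    rw [← colon_lin hci.1.tail hci.2.1] at h3
    have := add_mem hur h3
    rwa [sub_add_cancel] at this

/-! ### Orthogonality -/

/-- An element orthogonal to the kernel of `ν ^ m` is a multiple of `ν ^ m`. -/
theorem perp_ker {𝓛 : List (List (Fin n → F))} {W : Submodule F (Fin n → F)} (hci : CI W 𝓛)
    {ε : MvPolynomial (Fin n) F →ₗ[F] F}
    (hε : ∀ p : MvPolynomial (Fin n) F, p.IsHomogeneous (sg 𝓛) → (ε p = 0 ↔ p ∈ J W 𝓛))
    {ν : Fin n → F} {m j r : ℕ} (hj : r + m + j = sg 𝓛) {θ : MvPolynomial (Fin n) F}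
    (hθ : θ.IsHomogeneous (r + m))
    (h : ∀ ζ : MvPolynomial (Fin n) F, ζ.IsHomogeneous j → lin ν ^ m * ζ ∈ J W 𝓛 →
      ε (θ * ζ) = 0) :
    ∃ ρ : MvPolynomial (Fin n) F, ρ.IsHomogeneous r ∧ θ - lin ν ^ m * ρ ∈ J W 𝓛 := by
  classical
  set I := J W 𝓛 with hI
  have hεI : ∀ p : MvPolynomial (Fin n) F, p ∈ I → p.IsHomogeneous (sg 𝓛) → ε p = 0 :=
    fun p hp hph => (hε p hph).2 hp
  -- the functional
  let elL : (ix I j → F) →ₗ[F] MvPolynomial (Fin n) F :=
    ∑ i, LinearMap.smulRight (LinearMap.proj i) ((crd I j).b i)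
  have helL : ∀ x, elL x = el I j x := by
    intro x
    simp only [elL, LinearMap.sum_apply, LinearMap.smulRight_apply, LinearMap.proj_apply, el,
      MvPolynomial.smul_eq_C_mul]
  let f : (ix I j → F) →ₗ[F] F := ε ∘ₗ LinearMap.mulLeft F θ ∘ₗ elL
  have hf : ∀ x, f x = ε (θ * el I j x) := by
    intro x
    simp only [f, LinearMap.comp_apply, LinearMap.mulLeft_apply, helL]
  have hker : f ∈ (LinearMap.ker (Matrix.mulVecLin (Pw I ν j m))).dualAnnihilator := by
    rw [Submodule.mem_dualAnnihilator]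
    intro x hx
    rw [hf]
    apply h _ (el_hom x)
    rw [pow_mem_iff (el_hom x), co_el]
    simpa using hx
  rw [← LinearMap.range_dualMap_eq_dualAnnihilator_ker] at hker
  obtain ⟨g, hg⟩ := hker
  -- represent `g`
  let M1 : Matrix (ix I (j + m)) (ix I r) F :=
    Matrix.of fun k l => ε ((crd I (j + m)).b k * (crd I r).b l)
  have hM1a : ∀ k l, M1 k l = ε ((crd I (j + m)).b k * (crd I r).b l) := fun _ _ => rfl
  have hexp : ∀ {i i' : ℕ}, i + i' = sg 𝓛 → ∀ {p r : MvPolynomial (Fin n) F},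
      p.IsHomogeneous i → r.IsHomogeneous i' →
      ε (p * r) = ∑ k, co I i p k * ε ((crd I i).b k * r) := by
    intro i i' hii p r hp hr
    have h1 := sub_sum_mem (I := I) hp
    have hh : (∑ k, MvPolynomial.C (co I i p k) * (crd I i).b k).IsHomogeneous i := el_hom _
    have h2 : ε ((p - ∑ k, MvPolynomial.C (co I i p k) * (crd I i).b k) * r) = 0 := by
      apply hεI _ (Ideal.mul_mem_right _ _ h1)
      rw [← hii]
      exact (hp.sub hh).mul hr
    rw [sub_mul, map_sub, sub_eq_zero] at h2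
    rw [h2, Finset.sum_mul, map_sum]
    refine Finset.sum_congr rfl fun k _ => ?_
    rw [mul_assoc, ← MvPolynomial.smul_eq_C_mul, map_smul, smul_eq_mul]
  have hM1 : Inj M1.transpose := by
    intro x hx
    have h1 : el I (j + m) x ∈ I := by
      apply nondeg hci hε (i := j + m) (i' := r) (by omega) (el_hom x)
      intro q hq
      rw [hexp (i := r) (i' := j + m) (by omega) hq (el_hom x)]
      apply Finset.sum_eq_zero
      intro l _
      have h2 := congrFun hx l
      rw [Matrix.mulVec, dotProduct, Pi.zero_apply] at h2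
      have h3 : ε ((crd I r).b l * el I (j + m) x) = 0 := by
        rw [← h2, el, Finset.mul_sum, map_sum]
        refine Finset.sum_congr rfl fun k _ => ?_
        rw [Matrix.transpose_apply, hM1a, mul_left_comm, ← MvPolynomial.smul_eq_C_mul, map_smul,
          smul_eq_mul, mul_comm (x k), mul_comm ((crd I r).b l)]
      rw [h3, mul_zero]
    rwa [← co_eq_zero_iff (el_hom x), co_el] at h1
  obtain ⟨y, hy⟩ := surj_of_inj_transpose hM1 fun k => g (Pi.single k 1)
  refine ⟨el I r y, el_hom y, ?_⟩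
  have hρh : (lin ν ^ m * el I r y).IsHomogeneous (r + m) := lin_pow_mul_hom (el_hom y)
  apply nondeg hci hε (i := r + m) (i' := j) hj (hθ.sub hρh)
  intro ζ hζ
  have hfζ : ε (θ * ζ) = f (co I j ζ) := by
    rw [hf]
    have h1 := sub_sum_mem (I := I) hζ
    have hh : (el I j (co I j ζ)).IsHomogeneous j := el_hom _
    have h2 : ε (θ * (ζ - el I j (co I j ζ))) = 0 := by
      apply hεI _ (Ideal.mul_mem_left _ _ h1)
      rw [← hj]
      exact hθ.mul (hζ.sub hh)
    rw [mul_sub, map_sub, sub_eq_zero] at h2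
    exact h2
  have h4 : ε (lin ν ^ m * ζ * el I r y) = g (co I (j + m) (lin ν ^ m * ζ)) := by
    rw [hexp (i := j + m) (i' := r) (by omega) (lin_pow_mul_hom hζ) (el_hom y)]
    rw [pi_eq_sum_univ' (co I (j + m) (lin ν ^ m * ζ)), map_sum]
    simp only [Finset.sum_apply, Pi.smul_apply, smul_eq_mul]
    refine Finset.sum_congr rfl fun k _ => ?_
    rw [map_smul, smul_eq_mul]
    have h5 : ∑ x, co I (j + m) (lin ν ^ m * ζ) x * (Pi.single x (1 : F) : ix I (j + m) → F) k =
        co I (j + m) (lin ν ^ m * ζ) k := by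
      rw [Finset.sum_eq_single k]
      · simp
      · intro b _ hb
        rw [Pi.single_eq_of_ne hb.symm, mul_zero]
      · simp
    rw [h5]
    congr 1
    rw [← congrFun hy k, Matrix.mulVec, dotProduct, el, Finset.mul_sum, map_sum]
    refine Finset.sum_congr rfl fun l _ => ?_
    rw [hM1a, mul_left_comm, ← MvPolynomial.smul_eq_C_mul, map_smul, smul_eq_mul, mul_comm (y l)]
  have h5 : g (co I (j + m) (lin ν ^ m * ζ)) = f (co I j ζ) := by
    rw [← hg, LinearMap.dualMap_apply, co_mul_lin_pow ν m hζ]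
    rfl
  rw [mul_sub, map_sub, mul_comm ζ θ, hfζ, ← h5, ← h4, sub_eq_zero]
  congr 1
  ring

/-- the form on the kernel of `ν ^ m` is nondegenerate -/
theorem nondeg_ker {𝓛 : List (List (Fin n → F))} {W : Submodule F (Fin n → F)} (hci : CI W 𝓛)
    {ν : Fin n → F} {m j : ℕ} (hm : 1 ≤ m) (hj : 1 ≤ j) (hmj : 2 * j + m = sg 𝓛 + 1)
    (h1 : LI (J W 𝓛) ν (m - 1) j) (h2 : LI (J W 𝓛) ν (m + 1) (j - 1))
    {κ : MvPolynomial (Fin n) F} (hκ : κ.IsHomogeneous j) (hk : lin ν ^ m * κ ∈ J W 𝓛)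
    (h : ∀ ζ : MvPolynomial (Fin n) F, ζ.IsHomogeneous j → lin ν ^ m * ζ ∈ J W 𝓛 →
      lin ν ^ (m - 1) * (κ * ζ) ∈ J W 𝓛) : κ ∈ J W 𝓛 := by
  obtain ⟨ε, hε⟩ := exists_eps hci
  obtain ⟨j', rfl⟩ : ∃ j', j = j' + 1 := ⟨j - 1, by omega⟩
  obtain ⟨m', rfl⟩ : ∃ m', m = m' + 1 := ⟨m - 1, by omega⟩
  simp only [Nat.add_sub_cancel] at h h1 h2 ⊢
  have hθ : (lin ν ^ m' * κ).IsHomogeneous (j' + (m' + 1)) := by
    have := lin_pow_mul_hom (m := m') (μ := ν) hκ
    convert this using 1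
    omega
  obtain ⟨ρ, hρ, hmem⟩ := perp_ker hci hε (ν := ν) (m := m' + 1) (j := j' + 1) (r := j')
    (by omega) hθ (by
      intro ζ hζ hζk
      have h3 := h ζ hζ hζk
      rw [← mul_assoc] at h3
      refine (hε _ ?_).2 h3
      have := hθ.mul hζ
      convert this using 1
      omega)
  have h4 : (lin ν * ρ).IsHomogeneous (j' + 1) := by
    rw [add_comm]; exact (lin_isHomogeneous ν).mul hρ
  have h5 : κ - lin ν * ρ ∈ J W 𝓛 := by
    apply h1 _ (hκ.sub h4)
    convert hmem using 1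
    ring
  have h6 : ρ ∈ J W 𝓛 := by
    apply h2 ρ hρ
    have := sub_mem hk (Ideal.mul_mem_left _ (lin ν ^ (m' + 1)) h5)
    convert this using 1
    ring
  have := add_mem h5 (Ideal.mul_mem_left _ (lin ν) h6)
  rwa [sub_add_cancel] at this

end Pool.Agent.LefProd
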