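import Pool.Agent.LefProd.Coord

/-!
Openness of `LI` and `KD` along lines; existence of common good points.
-/

set_option autoImplicit false
set_option linter.unusedSectionVars false

namespace Pool.Agent.LefProd

open MvPolynomial Polynomial

variable {F : Type*} [Field F] {n : ℕ} {I : Ideal (MvPolynomial (Fin n) F)}

/-- coordinates of a polynomial with polynomial coefficients -/
noncomputable def cop (I : Ideal (MvPolynomial (Fin n) F)) (j : ℕ)
    (a : (MvPolynomial (Fin n) F)[X]) : ix I j → F[X] :=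
  fun i => ∑ k ∈ a.support, Polynomial.monomial k (co I j (a.coeff k) i)

lemma coeff_cop (j : ℕ) (a : (MvPolynomial (Fin n) F)[X]) (i : ix I j) (k : ℕ) :
    (cop I j a i).coeff k = co I j (a.coeff k) i := by
  rw [cop, Polynomial.finsetSum_coeff]
  simp only [Polynomial.coeff_monomial, Finset.sum_ite_eq']
  split_ifs with h
  · rfl
  · rw [Polynomial.notMem_support_iff.1 h]
    simp [co]

lemma cop_eq_zero_iff {j : ℕ} {a : (MvPolynomial (Fin n) F)[X]} (ha : HP a j) :
    cop I j a = 0 ↔ a ∈ PI I := by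
  rw [mem_PI]
  constructor
  · intro h k
    rw [← co_eq_zero_iff (ha k)]
    funext i
    rw [← coeff_cop, h]
    simp
  · intro h
    funext i
    ext k
    rw [coeff_cop, (co_eq_zero_iff (ha k)).2 (h k)]
    simp

/-- the coefficient vector of `ν + s v` -/
noncomputable def cv (ν v : Fin n → F) : Fin n → F[X] :=
  fun l => Polynomial.C (ν l) + Polynomial.X * Polynomial.C (v l)

lemma Pm_cv (ν v : Fin n → F) (j : ℕ) (k : ix I (j + 1)) (i : ix I j) :
    Pm I (cv ν v) j k i = Polynomial.C (Pm I ν j k i) + Polynomial.X * Polynomial.C (Pm I v j k i) := by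
  simp only [Pm, Matrix.sum_apply, Matrix.smul_apply, Matrix.map_apply, cv, smul_eq_mul,
    Polynomial.algebraMap_apply, Algebra.algebraMap_self, RingHom.id_apply, map_sum, map_mul,
    Finset.mul_sum]
  rw [← Finset.sum_add_distrib]
  refine Finset.sum_congr rfl fun l _ => ?_
  ring

lemma cop_mus {j : ℕ} (ν v : Fin n → F) {a : (MvPolynomial (Fin n) F)[X]} (ha : HP a j) :
    cop I (j + 1) (mus ν v * a) = Matrix.mulVec (Pm I (cv ν v) j) (cop I j a) := by
  funext k
  ext d
  rw [coeff_cop, Matrix.mulVec, dotProduct, Polynomial.finsetSum_coeff]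
  simp only [Pm_cv]
  have hadd : ∀ p q : MvPolynomial (Fin n) F, co I (j + 1) (p + q) k =
      co I (j + 1) p k + co I (j + 1) q k := by
    intro p q
    simp [co]
  cases d with
  | zero =>
    have h1 : (mus ν v * a).coeff 0 = lin ν * a.coeff 0 := by
      rw [Polynomial.mul_coeff_zero]
      congr 1
      simpa using coeff_zero_mus_pow ν v 1
    rw [h1, co_mul_lin ν (ha 0), Matrix.mulVec, dotProduct]
    refine Finset.sum_congr rfl fun i _ => ?_
    rw [Polynomial.mul_coeff_zero, coeff_cop]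
    simp
  | succ d =>
    have h1 : (mus ν v * a).coeff (d + 1) = lin ν * a.coeff (d + 1) + lin v * a.coeff d := by
      rw [mus, add_mul, Polynomial.coeff_add, Polynomial.coeff_C_mul, mul_assoc,
        Polynomial.coeff_X_mul, Polynomial.coeff_C_mul]
    rw [h1, hadd, co_mul_lin ν (ha _), co_mul_lin v (ha _), Matrix.mulVec, Matrix.mulVec,
      dotProduct, dotProduct, ← Finset.sum_add_distrib]
    refine Finset.sum_congr rfl fun i _ => ?_
    rw [add_mul, Polynomial.coeff_add, Polynomial.coeff_C_mul, mul_assoc,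
      Polynomial.coeff_X_mul, Polynomial.coeff_C_mul, coeff_cop, coeff_cop]

lemma cop_mus_pow {j : ℕ} (ν v : Fin n → F) (m : ℕ) {a : (MvPolynomial (Fin n) F)[X]}
    (ha : HP a j) :
    cop I (j + m) ((mus ν v) ^ m * a) = Matrix.mulVec (Pw I (cv ν v) j m) (cop I j a) := by
  induction m with
  | zero => simp [Pw]
  | succ m ih =>
    have hh : HP ((mus ν v) ^ m * a) (j + m) := by
      have := ((HP.mus ν v).pow m).mul ha
      rwa [one_mul, add_comm] at this
    rw [Pw, ← Matrix.mulVec_mulVec, ← ih, ← cop_mus ν v hh, pow_succ', mul_assoc]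
    rfl

/-- polynomial vector to polynomial -/
noncomputable def elp (I : Ideal (MvPolynomial (Fin n) F)) (j : ℕ) (x : ix I j → F[X]) :
    (MvPolynomial (Fin n) F)[X] := ∑ i, cR (x i) * Polynomial.C ((crd I j).b i)

lemma coeff_elp (j : ℕ) (x : ix I j → F[X]) (k : ℕ) :
    (elp I j x).coeff k = el I j (fun i => (x i).coeff k) := by
  rw [elp, Polynomial.finsetSum_coeff, el]
  refine Finset.sum_congr rfl fun i _ => ?_
  rw [Polynomial.coeff_mul_C, cR, Polynomial.coeff_map]

lemma elp_HP (j : ℕ) (x : ix I j → F[X]) : HP (elp I j x) j := fun k => by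
  rw [coeff_elp]; exact el_hom _

lemma cop_elp (j : ℕ) (x : ix I j → F[X]) : cop I j (elp I j x) = x := by
  funext i
  ext k
  rw [coeff_cop, coeff_elp, co_el]

lemma PLI.inj {ν v : Fin n → F} {m j : ℕ} (h : PLI I ν v m j) : Inj (Pw I (cv ν v) j m) := by
  intro x hx
  have h1 : elp I j x ∈ PI I := by
    apply h _ (elp_HP j x)
    rw [← cop_eq_zero_iff (j := j + m), cop_mus_pow ν v m (elp_HP j x), cop_elp, hx]
    have := ((HP.mus ν v).pow m).mul (elp_HP (I := I) j x)
    rwa [one_mul, add_comm] at this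
  rwa [← cop_eq_zero_iff (elp_HP j x), cop_elp] at h1

lemma Pw_cv_map (ν v : Fin n → F) (j m : ℕ) (s : F) :
    (Pw I (cv ν v) j m).map (Polynomial.aeval s : F[X] →ₐ[F] F) = Pw I (ν + s • v) j m := by
  rw [Pw_map]
  congr 1
  funext l
  simp only [cv, Polynomial.coe_aeval_eq_eval, Polynomial.eval_add, Polynomial.eval_C,
    Polynomial.eval_mul, Polynomial.eval_X, Pi.add_apply, Pi.smul_apply, smul_eq_mul]

lemma finite_bad_of_inj {κ ι : Type*} [Fintype κ] [Fintype ι] [DecidableEq κ] [DecidableEq ι]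
    {A : Matrix κ ι F[X]} (h : Inj A) :
    {s : F | ¬ Inj (A.map (Polynomial.aeval s : F[X] →ₐ[F] F))}.Finite := by
  classical
  obtain ⟨d, B, hd, hB⟩ := h.exists_scaled_left
  refine Set.Finite.subset (d.roots.toFinset.finite_toSet) ?_
  intro s hs
  rw [Set.mem_ofPred_eq] at hs
  by_contra hcon
  apply hs
  refine inj_map_of_scaled_left ((Polynomial.aeval s : F[X] →ₐ[F] F) : F[X] →+* F) hB ?_
  intro h0
  apply hcon
  simp only [Multiset.mem_toFinset, Finset.mem_coe]
  rw [Polynomial.mem_roots hd, Polynomial.IsRoot]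
  simpa [Polynomial.coe_aeval_eq_eval] using h0

theorem PLI.finite_bad {ν v : Fin n → F} {m j : ℕ} (h : PLI I ν v m j) :
    {s : F | ¬ LI I (ν + s • v) m j}.Finite := by
  have := finite_bad_of_inj h.inj
  simp only [Pw_cv_map] at this
  simpa only [LI_iff] using this

/-- openness along lines -/
def Op (P : (Fin n → F) → Prop) : Prop := ∀ ν, P ν → ∀ v, {s : F | ¬ P (ν + s • v)}.Finite

lemma Op_LI (I : Ideal (MvPolynomial (Fin n) F)) (m j : ℕ) : Op fun μ => LI I μ m j :=
  fun _ h v => (h.pli v).finite_bad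

lemma Op.and {P Q : (Fin n → F) → Prop} (hP : Op P) (hQ : Op Q) : Op fun μ => P μ ∧ Q μ := by
  intro ν h v
  refine Set.Finite.subset ((hP ν h.1 v).union (hQ ν h.2 v)) ?_
  intro s hs
  rw [Set.mem_ofPred_eq, not_and_or] at hs
  exact hs

lemma Op.common [Infinite F] {P Q : (Fin n → F) → Prop} (hP : Op P) (hQ : Op Q)
    (h1 : ∃ ν, P ν) (h2 : ∃ ν, Q ν) : ∃ ν, P ν ∧ Q ν := by
  obtain ⟨ν1, h1⟩ := h1
  obtain ⟨ν2, h2⟩ := h2
  have f1 := hP ν1 h1 (ν2 - ν1)
  have f2 := hQ ν2 h2 (ν1 - ν2)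
  have f3 : {s : F | ¬ Q (ν1 + s • (ν2 - ν1))}.Finite := by
    refine Set.Finite.subset (f2.image fun s => 1 - s) ?_
    intro s hs
    refine ⟨1 - s, ?_, by simp⟩
    rw [Set.mem_ofPred_eq] at hs ⊢
    convert hs using 2
    ext i
    simp only [Pi.add_apply, Pi.smul_apply, Pi.sub_apply, smul_eq_mul]
    ring
  obtain ⟨s, hs⟩ := (f1.union f3).infinite_compl.nonempty
  rw [Set.mem_compl_iff, Set.mem_union, not_or, Set.mem_ofPred_eq, Set.mem_ofPred_eq, not_not,
    not_not] at hs
  exact ⟨_, hs.1, hs.2⟩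

lemma Op.true : Op fun _ : Fin n → F => True := fun _ _ _ => by simp

/-- augmented by a coordinate -/
noncomputable def Aug {κ ι T : Type*} [DecidableEq ι] [Semiring T] (A : Matrix κ ι T) (i0 : ι) :
    Matrix (κ ⊕ Unit) ι T := Matrix.fromRows A (Matrix.of fun _ i => if i = i0 then 1 else 0)

lemma Aug_mulVec {κ ι T : Type*} [Fintype ι] [DecidableEq ι] [Semiring T] (A : Matrix κ ι T)
    (i0 : ι) (x : ι → T) : Matrix.mulVec (Aug A i0) x = 0 ↔ Matrix.mulVec A x = 0 ∧ x i0 = 0 := by
  rw [Aug, Matrix.fromRows_mulVec]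
  constructor
  · intro h
    constructor
    · funext k
      exact congrFun h (Sum.inl k)
    · have := congrFun h (Sum.inr ())
      simpa [Matrix.mulVec, dotProduct] using this
  · rintro ⟨h1, h2⟩
    funext k
    rcases k with k | k
    · exact congrFun h1 k
    · simpa [Matrix.mulVec, dotProduct] using h2

lemma Aug_map {κ ι T S : Type*} [DecidableEq ι] [Semiring T] [Semiring S] (f : T →+* S)
    (A : Matrix κ ι T) (i0 : ι) : (Aug A i0).map f = Aug (A.map f) i0 := by
  ext k i
  rcases k with k | k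
  · simp [Aug]
  · simp only [Aug, Matrix.map_apply, Matrix.fromRows_apply_inr, Matrix.of_apply]
    split_ifs <;> simp

/-- kernel at most one-dimensional -/
def KDm {κ ι T : Type*} [Fintype ι] [CommRing T] (A : Matrix κ ι T) : Prop :=
  ∀ x y : ι → T, Matrix.mulVec A x = 0 → Matrix.mulVec A y = 0 →
    ∃ a b : T, (a ≠ 0 ∨ b ≠ 0) ∧ a • x + b • y = 0

lemma KDm_of_aug {κ ι T : Type*} [Fintype ι] [DecidableEq ι] [CommRing T] [Nontrivial T]
    {A : Matrix κ ι T} {i0 : ι} (h : Inj (Aug A i0)) : KDm A := by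
  intro x y hx hy
  by_cases hxy : x i0 = 0 ∧ y i0 = 0
  · refine ⟨1, 0, Or.inl one_ne_zero, ?_⟩
    rw [h x ((Aug_mulVec A i0 x).2 ⟨hx, hxy.1⟩)]
    simp
  · refine ⟨y i0, -(x i0), ?_, ?_⟩
    · rw [not_and_or] at hxy
      rcases hxy with h | h
      · right; simpa using h
      · left; exact h
    · apply h
      rw [Aug_mulVec]
      constructor
      · rw [Matrix.mulVec_add, Matrix.mulVec_smul, Matrix.mulVec_smul, hx, hy]
        simp
      · simp
        ring

lemma exists_aug {κ ι : Type*} [Fintype ι] [DecidableEq ι] {A : Matrix κ ι F} (h : KDm A)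
    (hn : ¬ Inj A) : ∃ i0, Inj (Aug A i0) := by
  rw [Inj] at hn
  push Not at hn
  obtain ⟨y, hy, hy0⟩ := hn
  obtain ⟨i0, hi0⟩ := Function.ne_iff.1 hy0
  refine ⟨i0, fun x hx => ?_⟩
  rw [Aug_mulVec] at hx
  obtain ⟨a, b, hab, h1⟩ := h x y hx.1 hy
  have h2 := congrFun h1 i0
  simp only [Pi.add_apply, Pi.smul_apply, hx.2, mul_zero, zero_add, Pi.zero_apply,
    smul_eq_mul] at h2
  have hb : b = 0 := (mul_eq_zero.1 h2).resolve_right hi0
  rw [hb, zero_smul, add_zero] at h1
  have ha : a ≠ 0 := hab.resolve_right (by simp [hb])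
  exact (smul_eq_zero.1 h1).resolve_left ha

lemma KD_iff {j m : ℕ} {μ : Fin n → F} : KD I μ m j ↔ KDm (Pw I μ j m) := by
  have hpow : ∀ p : MvPolynomial (Fin n) F, p.IsHomogeneous j →
      (lin μ ^ m * p ∈ I ↔ Matrix.mulVec (Pw I μ j m) (co I j p) = 0) := by
    intro p hp
    rw [← co_mul_lin_pow μ m hp, co_eq_zero_iff]
    have := ((lin_isHomogeneous μ).pow m).mul hp
    rw [one_mul, add_comm] at this
    exact this
  have hcomb : ∀ (a b : F) (p q : MvPolynomial (Fin n) F),
      co I j (MvPolynomial.C a * p + MvPolynomial.C b * q) = a • co I j p + b • co I j q := by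
    intro a b p q
    funext i
    simp only [co, map_add, Pi.add_apply, Pi.smul_apply, ← MvPolynomial.smul_eq_C_mul, map_smul]
  have hhom : ∀ (a b : F) (p q : MvPolynomial (Fin n) F), p.IsHomogeneous j →
      q.IsHomogeneous j → (MvPolynomial.C a * p + MvPolynomial.C b * q).IsHomogeneous j := by
    intro a b p q hp hq
    have h1 := (isHomogeneous_C (Fin n) a).mul hp
    have h2 := (isHomogeneous_C (Fin n) b).mul hq
    rw [zero_add] at h1 h2
    exact h1.add h2
  constructor
  · intro h x y hx hy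
    obtain ⟨a, b, hab, hmem⟩ := h (el I j x) (el I j y) (el_hom x) (el_hom y)
      ((hpow _ (el_hom x)).2 (by rw [co_el, hx])) ((hpow _ (el_hom y)).2 (by rw [co_el, hy]))
    refine ⟨a, b, hab, ?_⟩
    rwa [← co_eq_zero_iff (hhom a b _ _ (el_hom x) (el_hom y)), hcomb, co_el, co_el] at hmem
  · intro h p q hp hq h1 h2
    obtain ⟨a, b, hab, hmem⟩ := h (co I j p) (co I j q) ((hpow p hp).1 h1) ((hpow q hq).1 h2)
    refine ⟨a, b, hab, ?_⟩
    rwa [← co_eq_zero_iff (hhom a b _ _ hp hq), hcomb]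

lemma Op_KD (I : Ideal (MvPolynomial (Fin n) F)) (m j : ℕ) : Op fun μ => KD I μ m j := by
  classical
  intro ν h v
  by_cases hLI : LI I ν m j
  · refine Set.Finite.subset (Op_LI I m j ν hLI v) ?_
    intro s hs hs'
    exact hs hs'.kd
  · rw [LI_iff] at hLI
    obtain ⟨i0, hi0⟩ := exists_aug (KD_iff.1 h) hLI
    have h0 : Pw I (ν + (0 : F) • v) j m = Pw I ν j m := by simp
    have h1 : Inj ((Aug (Pw I (cv ν v) j m) i0).map (Polynomial.aeval (0 : F) : F[X] →ₐ[F] F)) := by
      have := Aug_map ((Polynomial.aeval (0 : F) : F[X] →ₐ[F] F) : F[X] →+* F)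
        (Pw I (cv ν v) j m) i0
      have h2 := Pw_cv_map (I := I) ν v j m 0
      rw [h0] at h2
      simp only [RingHom.coe_coe] at this
      rw [this, h2]
      exact hi0
    obtain ⟨Q, -, hQ⟩ := inj_of_specialization _ h1
    refine Set.Finite.subset (finite_bad_of_inj hQ) ?_
    intro s hs hs'
    apply hs
    rw [KD_iff]
    apply KDm_of_aug (i0 := i0)
    have := Aug_map ((Polynomial.aeval s : F[X] →ₐ[F] F) : F[X] →+* F)
        (Pw I (cv ν v) j m) i0
    simp only [RingHom.coe_coe] at this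
    rw [this, Pw_cv_map] at hs'
    exact hs'

end Pool.Agent.LefProd
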