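import Pool.Agent.LefProd.Basic

/-!
Homogeneity of the ideals `J W 𝓛`, their socle and top degree.
-/

set_option autoImplicit false
set_option linter.unusedSectionVars false

namespace Pool.Agent.LefProd

open MvPolynomial

variable {F : Type*} [Field F] {n : ℕ}

attribute [local instance] MvPolynomial.gradedAlgebra

lemma J_isHomogeneous (W : Submodule F (Fin n → F)) (𝓛 : List (List (Fin n → F))) :
    (J W 𝓛).IsHomogeneous (homogeneousSubmodule (Fin n) F) := by
  rw [J, ← Ideal.span_union]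
  apply Ideal.homogeneous_span
  rintro _ (⟨v, _, rfl⟩ | ⟨l, _, rfl⟩)
  · exact ⟨1, lin_isHomogeneous v⟩
  · exact ⟨l.length, pr_isHomogeneous l⟩

lemma hc_mem {W : Submodule F (Fin n → F)} {𝓛 : List (List (Fin n → F))}
    {p : MvPolynomial (Fin n) F} (hp : p ∈ J W 𝓛) (i : ℕ) :
    homogeneousComponent i p ∈ J W 𝓛 :=
  homogeneousComponent_mem_of_mem (J_isHomogeneous W 𝓛) hp i

lemma hc_mul {q a : MvPolynomial (Fin n) F} {d : ℕ} (hq : q.IsHomogeneous d) (i : ℕ) :
    homogeneousComponent i (q * a) =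
      if d ≤ i then q * homogeneousComponent (i - d) a else 0 := by
  conv_lhs => rw [← sum_homogeneousComponent a, Finset.mul_sum, map_sum]
  have h1 : ∀ k, homogeneousComponent i (q * homogeneousComponent k a) =
      if i = d + k then q * homogeneousComponent k a else 0 := fun k =>
    homogeneousComponent_of_mem (hq.mul (homogeneousComponent_isHomogeneous k a))
  simp only [h1]
  split_ifs with h
  · by_cases hk : i - d < a.totalDegree + 1
    · rw [Finset.sum_eq_single (i - d)]
      · rw [if_pos (by omega)]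
      · intro b _ hb
        rw [if_neg (by omega)]
      · intro hh
        exact absurd (Finset.mem_range.2 hk) hh
    · rw [homogeneousComponent_eq_zero _ _ (by omega : a.totalDegree < i - d), mul_zero]
      apply Finset.sum_eq_zero
      intro b hb
      rw [Finset.mem_range] at hb
      rw [if_neg (by omega)]
  · apply Finset.sum_eq_zero
    intro b _
    rw [if_neg (by omega)]

lemma cons_hom {W : Submodule F (Fin n → F)} {l : List (Fin n → F)}
    {𝓛 : List (List (Fin n → F))} {p : MvPolynomial (Fin n) F} {j : ℕ} (hp : p.IsHomogeneous j)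
    (h : p ∈ J W (l :: 𝓛)) (hl : l.length ≤ j) :
    ∃ a, a.IsHomogeneous (j - l.length) ∧ p - pr l * a ∈ J W 𝓛 := by
  obtain ⟨a, ha⟩ := mem_J_cons_iff.1 h
  refine ⟨homogeneousComponent (j - l.length) a, homogeneousComponent_isHomogeneous _ _, ?_⟩
  have := hc_mem ha j
  rwa [map_sub, homogeneousComponent_eq_self hp, hc_mul (pr_isHomogeneous l), if_pos hl] at this

lemma cons_hom_lt {W : Submodule F (Fin n → F)} {l : List (Fin n → F)}
    {𝓛 : List (List (Fin n → F))} {p : MvPolynomial (Fin n) F} {j : ℕ} (hp : p.IsHomogeneous j)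
    (h : p ∈ J W (l :: 𝓛)) (hl : j < l.length) : p ∈ J W 𝓛 := by
  obtain ⟨a, ha⟩ := mem_J_cons_iff.1 h
  have := hc_mem ha j
  rwa [map_sub, homogeneousComponent_eq_self hp, hc_mul (pr_isHomogeneous l),
    if_neg (by omega), sub_zero] at this

lemma sup_hom {W : Submodule F (Fin n → F)} {v : Fin n → F}
    {𝓛 : List (List (Fin n → F))} {p : MvPolynomial (Fin n) F} {j : ℕ} (hp : p.IsHomogeneous j)
    (h : p ∈ J (W ⊔ Submodule.span F {v}) 𝓛) (hj : 1 ≤ j) :
    ∃ a, a.IsHomogeneous (j - 1) ∧ p - lin v * a ∈ J W 𝓛 := by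
  rw [← J_singleton_cons] at h
  simpa using cons_hom hp h hj

lemma sup_hom_zero {W : Submodule F (Fin n → F)} {v : Fin n → F}
    {𝓛 : List (List (Fin n → F))} {p : MvPolynomial (Fin n) F} (hp : p.IsHomogeneous 0)
    (h : p ∈ J (W ⊔ Submodule.span F {v}) 𝓛) : p ∈ J W 𝓛 := by
  rw [← J_singleton_cons] at h
  exact cons_hom_lt hp h (by simp)

/-- The socle degree `∑ (length - 1)`. -/
def sg (𝓛 : List (List (Fin n → F))) : ℕ := (𝓛.map fun l => l.length - 1).sum

@[simp] lemma sg_nil : sg ([] : List (List (Fin n → F))) = 0 := rfl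

@[simp] lemma sg_cons (l : List (Fin n → F)) (𝓛 : List (List (Fin n → F))) :
    sg (l :: 𝓛) = (l.length - 1) + sg 𝓛 := by simp [sg]

lemma sg_perm {𝓛 𝓛' : List (List (Fin n → F))} (h : 𝓛.Perm 𝓛') : sg 𝓛 = sg 𝓛' :=
  (h.map _).sum_eq

lemma J_mono_cons {W : Submodule F (Fin n → F)} {l : List (Fin n → F)}
    {𝓛 : List (List (Fin n → F))} : J W 𝓛 ≤ J W (l :: 𝓛) := by
  rw [J_cons]; exact le_sup_right

lemma J_mono_sup {W : Submodule F (Fin n → F)} {v : Fin n → F}
    {𝓛 : List (List (Fin n → F))} : J W 𝓛 ≤ J (W ⊔ Submodule.span F {v}) 𝓛 := by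
  rw [J_sup_span]; exact le_sup_right

lemma J_cons_le_sup {W : Submodule F (Fin n → F)} {v : Fin n → F} {g : List (Fin n → F)}
    {𝓛 : List (List (Fin n → F))} : J W ((v :: g) :: 𝓛) ≤ J (W ⊔ Submodule.span F {v}) 𝓛 := by
  rw [J_cons, J_sup_span]
  refine sup_le_sup_right ?_ _
  rw [Ideal.span_singleton_le_span_singleton, pr_cons]
  exact Dvd.intro _ rfl

lemma J_cons_le_tail {W : Submodule F (Fin n → F)} {v : Fin n → F} {g : List (Fin n → F)}
    {𝓛 : List (List (Fin n → F))} : J W ((v :: g) :: 𝓛) ≤ J W (g :: 𝓛) := by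
  rw [J_cons, J_cons]
  refine sup_le_sup_right ?_ _
  rw [Ideal.span_singleton_le_span_singleton, pr_cons]
  exact Dvd.intro_left _ rfl

lemma one_notMem {W : Submodule F (Fin n → F)} {𝓛 : List (List (Fin n → F))} (hne : NE 𝓛) :
    (1 : MvPolynomial (Fin n) F) ∉ J W 𝓛 := by
  have h : J W 𝓛 ≤ RingHom.ker (constantCoeff : MvPolynomial (Fin n) F →+* F) := by
    rw [J_le_iff]
    constructor
    · intro v _
      rw [RingHom.mem_ker, constantCoeff_eq]
      exact (lin_isHomogeneous v).coeff_eq_zero (by simp)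
    · intro l hl
      rw [RingHom.mem_ker, constantCoeff_eq]
      apply (pr_isHomogeneous l).coeff_eq_zero
      intro h0
      apply hne l hl
      apply List.length_eq_zero_iff.1
      rw [← h0]
      simp
  intro h1
  have := h h1
  rw [RingHom.mem_ker, map_one] at this
  exact one_ne_zero this

/-- dimension condition of a complete intersection -/
def CI (W : Submodule F (Fin n → F)) (𝓛 : List (List (Fin n → F))) : Prop :=
  NE 𝓛 ∧ Tr W 𝓛 ∧ Module.finrank F W + 𝓛.length = n

lemma finrank_sup {W : Submodule F (Fin n → F)} {v : Fin n → F} (hv : v ∉ W) :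
    Module.finrank F ↥(W ⊔ Submodule.span F {v}) = Module.finrank F W + 1 := by
  have h1 := Submodule.finrank_sup_add_finrank_inf_eq W (Submodule.span F {v})
  have hv0 : v ≠ 0 := fun h => hv (h ▸ W.zero_mem)
  have h2 : W ⊓ Submodule.span F {v} = ⊥ := by
    rw [eq_bot_iff]
    rintro x ⟨hx1, hx2⟩
    obtain ⟨c, rfl⟩ := Submodule.mem_span_singleton.1 hx2
    by_cases hc : c = 0
    · simp [hc]
    · exact absurd ((W.smul_mem_iff hc).1 hx1) hv
  rw [h2, finrank_bot, finrank_span_singleton hv0] at h1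
  omega

lemma CI.sup {W : Submodule F (Fin n → F)} {v : Fin n → F} {g : List (Fin n → F)}
    {𝓛 : List (List (Fin n → F))} (h : CI W ((v :: g) :: 𝓛)) :
    CI (W ⊔ Submodule.span F {v}) 𝓛 := by
  obtain ⟨h1, h2, h3⟩ := h
  refine ⟨h1.tail, h2.head.2, ?_⟩
  rw [finrank_sup h2.head.1]
  rw [List.length_cons] at h3
  omega

lemma CI.tail_list {W : Submodule F (Fin n → F)} {v : Fin n → F} {g : List (Fin n → F)}
    {𝓛 : List (List (Fin n → F))} (h : CI W ((v :: g) :: 𝓛)) (hg : g ≠ []) :
    CI W (g :: 𝓛) := by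
  obtain ⟨h1, h2, h3⟩ := h
  refine ⟨?_, h2.tail_list, by simpa using h3⟩
  intro l hl
  rcases List.mem_cons.1 hl with rfl | hl
  · exact hg
  · exact h1.tail l hl

lemma CI.perm {W : Submodule F (Fin n → F)} {𝓛 𝓛' : List (List (Fin n → F))}
    (hp : 𝓛.Perm 𝓛') (h : CI W 𝓛) : CI W 𝓛' :=
  ⟨fun l hl => h.1 l (hp.mem_iff.2 hl), Tr.perm hp h.1 h.2.1, by rw [← hp.length_eq]; exact h.2.2⟩

lemma mem_top_of_pos {p : MvPolynomial (Fin n) F} {i : ℕ} (hp : p.IsHomogeneous i) (hi : i ≠ 0)
    {W : Submodule F (Fin n → F)} (hW : Module.finrank F W = n) : p ∈ J W [] := by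
  have hW' : W = ⊤ := Submodule.eq_top_of_finrank_eq (by simpa using hW)
  subst hW'
  obtain ⟨π, h0, h1, h2⟩ := exists_proj (⊤ : Submodule F (Fin n → F))
  rw [mem_J_nil_iff _ h1 h0]
  have hπ : (fun i => lin (π (Pi.single i (1 : F)))) = (0 : Fin n → MvPolynomial (Fin n) F) := by
    funext i
    rw [h0 _ trivial, map_zero]
    rfl
  rw [theta, hπ, aeval_zero, constantCoeff_eq, hp.coeff_eq_zero, map_zero]
  simpa using hi.symm

theorem soc_aux : ∀ (N : ℕ) (𝓛 : List (List (Fin n → F))), len 𝓛 ≤ N →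
    ∀ (W : Submodule F (Fin n → F)), CI W 𝓛 → ∀ (p : MvPolynomial (Fin n) F) (i : ℕ),
    p.IsHomogeneous i → i ≠ sg 𝓛 → (∀ v, lin v * p ∈ J W 𝓛) → p ∈ J W 𝓛 := by
  intro N
  induction N with
  | zero =>
    intro 𝓛 hlen W hci p i hp hi h
    cases 𝓛 with
    | nil => exact mem_top_of_pos hp hi (by simpa using hci.2.2)
    | cons l 𝓛 =>
      exfalso
      rw [len_cons] at hlen
      exact hci.1 l List.mem_cons_self (List.length_eq_zero_iff.1 (by omega))
  | succ N ih =>
    intro 𝓛 hlen W hci p i hp hi h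
    cases 𝓛 with
    | nil => exact mem_top_of_pos hp hi (by simpa using hci.2.2)
    | cons l 𝓛 =>
      cases l with
      | nil => exact absurd rfl (hci.1 [] List.mem_cons_self)
      | cons v g =>
        rw [len_cons, List.length_cons] at hlen
        by_cases hg : g = []
        · subst hg
          rw [J_singleton_cons] at h ⊢
          exact ih 𝓛 (by simp at hlen; omega) _ hci.sup p i hp (by simpa using hi) h
        · have h1 : p ∈ J W (g :: 𝓛) := (colon_lin hci.1.tail hci.2.1).1 (h v)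
          rw [sg_cons, List.length_cons] at hi
          by_cases hlt : i < g.length
          · exact J_mono_cons (cons_hom_lt hp h1 hlt)
          · obtain ⟨a, ha, hpa⟩ := cons_hom hp h1 (not_lt.1 hlt)
            have h2 : a ∈ J (W ⊔ Submodule.span F {v}) 𝓛 := by
              refine ih 𝓛 (by omega) _ hci.sup a _ ha (by omega) ?_
              intro u
              rw [← colon_pr hci.1.tail hci.2.1]
              have := sub_mem (h u) (Ideal.mul_mem_left _ (lin u) (J_mono_cons hpa))
              convert this using 1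
              ring
            have h3 := (colon_pr hci.1.tail hci.2.1).2 h2
            have := add_mem h3 (J_mono_cons hpa)
            simpa using this

/-- The socle of `R/J W 𝓛` lives in degree `sg 𝓛`. -/
theorem soc {𝓛 : List (List (Fin n → F))} {W : Submodule F (Fin n → F)} (hci : CI W 𝓛)
    {p : MvPolynomial (Fin n) F} {i : ℕ} (hp : p.IsHomogeneous i) (hi : i ≠ sg 𝓛)
    (h : ∀ v, lin v * p ∈ J W 𝓛) : p ∈ J W 𝓛 :=
  soc_aux _ 𝓛 le_rfl W hci p i hp hi h

theorem top_aux : ∀ (N : ℕ) (𝓛 : List (List (Fin n → F))), len 𝓛 ≤ N →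
    ∀ (W : Submodule F (Fin n → F)), CI W 𝓛 → ∀ (p : MvPolynomial (Fin n) F) (i : ℕ),
    p.IsHomogeneous i → sg 𝓛 < i → p ∈ J W 𝓛 := by
  intro N
  induction N with
  | zero =>
    intro 𝓛 hlen W hci p i hp hi
    cases 𝓛 with
    | nil => exact mem_top_of_pos hp (by simpa using hi.ne') (by simpa using hci.2.2)
    | cons l 𝓛 =>
      exfalso
      rw [len_cons] at hlen
      exact hci.1 l List.mem_cons_self (List.length_eq_zero_iff.1 (by omega))
  | succ N ih =>
    intro 𝓛 hlen W hci p i hp hi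
    cases 𝓛 with
    | nil => exact mem_top_of_pos hp (by simpa using hi.ne') (by simpa using hci.2.2)
    | cons l 𝓛 =>
      cases l with
      | nil => exact absurd rfl (hci.1 [] List.mem_cons_self)
      | cons v g =>
        rw [len_cons, List.length_cons] at hlen
        rw [sg_cons, List.length_cons] at hi
        by_cases hg : g = []
        · subst hg
          rw [J_singleton_cons]
          exact ih 𝓛 (by simp at hlen; omega) _ hci.sup p i hp (by simpa using hi)
        · have hgl : 1 ≤ g.length := List.length_pos_iff.2 hg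
          have h1 := ih 𝓛 (by omega) _ hci.sup p i hp (by omega)
          obtain ⟨a, ha, hpa⟩ := sup_hom hp h1 (by omega)
          have h2 : a ∈ J W (g :: 𝓛) :=
            ih (g :: 𝓛) (by rw [len_cons]; omega) _ (hci.tail_list hg) a _ ha
              (by rw [sg_cons]; omega)
          have h3 := (colon_lin hci.1.tail hci.2.1).2 h2
          have := add_mem h3 (J_mono_cons hpa)
          simpa using this

/-- `R/J W 𝓛` vanishes above degree `sg 𝓛`. -/
theorem top_vanish {𝓛 : List (List (Fin n → F))} {W : Submodule F (Fin n → F)} (hci : CI W 𝓛)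
    {p : MvPolynomial (Fin n) F} {i : ℕ} (hp : p.IsHomogeneous i) (hi : sg 𝓛 < i) : p ∈ J W 𝓛 :=
  top_aux _ 𝓛 le_rfl W hci p i hp hi

theorem top_dim_aux : ∀ (N : ℕ) (𝓛 : List (List (Fin n → F))), len 𝓛 ≤ N →
    ∀ (W : Submodule F (Fin n → F)), CI W 𝓛 → ∃ e : MvPolynomial (Fin n) F,
    e.IsHomogeneous (sg 𝓛) ∧ ∀ p : MvPolynomial (Fin n) F,
    p.IsHomogeneous (sg 𝓛) → ∃ c : F, p - C c * e ∈ J W 𝓛 := by
  have hbase : ∀ (W : Submodule F (Fin n → F)), ∃ e : MvPolynomial (Fin n) F,
    e.IsHomogeneous (sg ([] : List (List (Fin n → F)))) ∧ ∀ p : MvPolynomial (Fin n) F,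
    p.IsHomogeneous (sg ([] : List (List (Fin n → F)))) → ∃ c : F, p - C c * e ∈ J W [] := by
    intro W
    refine ⟨1, isHomogeneous_one _ _, fun p hp => ?_⟩
    obtain ⟨c, hc⟩ : ∃ c : F, p = C c :=
      ⟨_, (totalDegree_eq_zero_iff_eq_C).1 ((totalDegree_zero_iff_isHomogeneous _).2 hp)⟩
    exact ⟨c, by simp [hc]⟩
  intro N
  induction N with
  | zero =>
    intro 𝓛 hlen W hci
    cases 𝓛 with
    | nil => exact hbase W
    | cons l 𝓛 =>
      exfalso
      rw [len_cons] at hlen
      exact hci.1 l List.mem_cons_self (List.length_eq_zero_iff.1 (by omega))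
  | succ N ih =>
    intro 𝓛 hlen W hci
    cases 𝓛 with
    | nil => exact hbase W
    | cons l 𝓛 =>
      cases l with
      | nil => exact absurd rfl (hci.1 [] List.mem_cons_self)
      | cons v g =>
        rw [len_cons, List.length_cons] at hlen
        by_cases hg : g = []
        · subst hg
          rw [J_singleton_cons]
          simpa using ih 𝓛 (by simp at hlen; omega) _ hci.sup
        · have hgl : 1 ≤ g.length := List.length_pos_iff.2 hg
          obtain ⟨e, he, hep⟩ := ih (g :: 𝓛) (by rw [len_cons]; omega) _ (hci.tail_list hg)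
          have hs : sg ((v :: g) :: 𝓛) = 1 + sg (g :: 𝓛) := by
            rw [sg_cons, sg_cons, List.length_cons]; omega
          refine ⟨lin v * e, ?_, ?_⟩
          · rw [hs]
            exact (lin_isHomogeneous v).mul he
          · intro p hp
            have h1 := top_vanish hci.sup hp (by rw [hs, sg_cons]; omega)
            obtain ⟨a, ha, hpa⟩ := sup_hom hp h1 (by rw [hs]; omega)
            obtain ⟨c, hc⟩ := hep a (by rwa [hs, Nat.add_sub_cancel_left] at ha)
            refine ⟨c, ?_⟩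
            have h3 := (colon_lin hci.1.tail hci.2.1).2 hc
            have := add_mem h3 (J_mono_cons hpa)
            convert this using 1
            ring

/-- The degree `sg 𝓛` part of `R/J W 𝓛` is at most one-dimensional. -/
theorem top_dim {𝓛 : List (List (Fin n → F))} {W : Submodule F (Fin n → F)} (hci : CI W 𝓛) :
    ∃ e : MvPolynomial (Fin n) F, e.IsHomogeneous (sg 𝓛) ∧ ∀ p : MvPolynomial (Fin n) F,
    p.IsHomogeneous (sg 𝓛) → ∃ c : F, p - C c * e ∈ J W 𝓛 :=
  top_dim_aux _ 𝓛 le_rfl W hci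

/-- `μ ^ m` is injective in degree `j` modulo `I`. -/
def LI (I : Ideal (MvPolynomial (Fin n) F)) (μ : Fin n → F) (m j : ℕ) : Prop :=
  ∀ p : MvPolynomial (Fin n) F, p.IsHomogeneous j → lin μ ^ m * p ∈ I → p ∈ I

/-- the kernel of `μ ^ m` in degree `j` modulo `I` is at most one-dimensional. -/
def KD (I : Ideal (MvPolynomial (Fin n) F)) (μ : Fin n → F) (m j : ℕ) : Prop :=
  ∀ p q : MvPolynomial (Fin n) F, p.IsHomogeneous j → q.IsHomogeneous j →
    lin μ ^ m * p ∈ I → lin μ ^ m * q ∈ I → ∃ a b : F, (a ≠ 0 ∨ b ≠ 0) ∧ C a * p + C b * q ∈ I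

lemma LI.kd {I : Ideal (MvPolynomial (Fin n) F)} {μ : Fin n → F} {m j : ℕ} (h : LI I μ m j) :
    KD I μ m j := by
  intro p q hp _ h1 _
  exact ⟨1, 0, Or.inl one_ne_zero, by simpa using h p hp h1⟩

lemma LI.zero (I : Ideal (MvPolynomial (Fin n) F)) (μ : Fin n → F) (j : ℕ) : LI I μ 0 j := by
  intro p _ h
  simpa using h

/-- composition -/
lemma LI.comp {I : Ideal (MvPolynomial (Fin n) F)} {μ : Fin n → F} {m m' j : ℕ}
    (h : LI I μ m j) (h' : LI I μ m' (j + m)) : LI I μ (m + m') j := by
  intro p hp hmem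
  apply h p hp
  apply h' (lin μ ^ m * p)
  · have := ((lin_isHomogeneous μ).pow m).mul hp
    rw [one_mul, add_comm] at this
    exact this
  · rw [← mul_assoc, ← pow_add, add_comm m' m]
    exact hmem

/-- injectivity passes to lower powers in the same degree -/
lemma LI.of_le {I : Ideal (MvPolynomial (Fin n) F)} {μ : Fin n → F} {m m' j : ℕ}
    (hm : m' ≤ m) (h : LI I μ m j) : LI I μ m' j := by
  intro p hp hmem
  apply h p hp
  obtain ⟨d, rfl⟩ := Nat.exists_eq_add_of_le hm
  rw [add_comm, pow_add, mul_assoc]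
  exact Ideal.mul_mem_left _ _ hmem

/-- injectivity passes to lower degrees (below the socle degree) -/
lemma LI.down {𝓛 : List (List (Fin n → F))} {W : Submodule F (Fin n → F)} (hci : CI W 𝓛)
    {μ : Fin n → F} {m j : ℕ} (h : LI (J W 𝓛) μ m (j + 1)) (hj : j < sg 𝓛) :
    LI (J W 𝓛) μ m j := by
  intro p hp hmem
  apply soc hci hp hj.ne
  intro v
  apply h (lin v * p)
  · rw [add_comm]
    exact (lin_isHomogeneous v).mul hp
  · rw [mul_left_comm]
    exact Ideal.mul_mem_left _ _ hmem

end Pool.Agent.LefProd
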