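import Pool.Agent.LefProd.EngineP

/-!
Inductions on the lengths of the lists: one, two and three essential variables.
-/

set_option autoImplicit false
set_option linter.unusedSectionVars false

namespace Pool.Agent.LefProd

open MvPolynomial

universe u

variable {F : Type u} [Field F] {n : ℕ}

/-- some linear form has `μ ^ m` injective in degree `j` -/
def EX (I : Ideal (MvPolynomial (Fin n) F)) (m j : ℕ) : Prop := ∃ ν, LI I ν m j

/-- some linear form has `μ ^ m` with kernel of dimension at most one in degree `j` -/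
def EK (I : Ideal (MvPolynomial (Fin n) F)) (m j : ℕ) : Prop := ∃ ν, KD I ν m j

lemma EX.ek {I : Ideal (MvPolynomial (Fin n) F)} {m j : ℕ} (h : EX I m j) : EK I m j := by
  obtain ⟨ν, h⟩ := h
  exact ⟨ν, h.kd⟩

lemma EX.zero (I : Ideal (MvPolynomial (Fin n) F)) (j : ℕ) : EX I 0 j := ⟨0, LI.zero I 0 j⟩

lemma EX.comp [Infinite F] {I : Ideal (MvPolynomial (Fin n) F)} {m m' j : ℕ} (h : EX I m j)
    (h' : EX I m' (j + m)) : EX I (m + m') j := by
  obtain ⟨ν, h1, h2⟩ := (Op_LI I m j).common (Op_LI I m' (j + m)) h h'
  exact ⟨ν, h1.comp h2⟩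

lemma EX.of_le {I : Ideal (MvPolynomial (Fin n) F)} {m m' j : ℕ} (hm : m' ≤ m)
    (h : EX I m j) : EX I m' j := by
  obtain ⟨ν, h⟩ := h
  exact ⟨ν, h.of_le hm⟩

lemma EX.down {𝓛 : List (List (Fin n → F))} {W : Submodule F (Fin n → F)} (hci : CI W 𝓛)
    {m j j' : ℕ} (h : EX (J W 𝓛) m j) (hj : j' ≤ j) (hj2 : j ≤ sg 𝓛) : EX (J W 𝓛) m j' := by
  obtain ⟨ν, h⟩ := h
  obtain ⟨d, rfl⟩ := Nat.exists_eq_add_of_le hj
  refine ⟨ν, ?_⟩
  clear hj
  induction d with
  | zero => exact h
  | succ d ih => exact ih (by omega) (LI.down (j := j' + d) hci h (by omega))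

lemma Op_imp (p : Prop) {P : (Fin n → F) → Prop} (h : Op P) : Op fun ν => p → P ν := by
  by_cases hp : p
  · simpa [hp] using h
  · simp only [hp, false_imp_iff]
    exact Op.true

lemma ex_imp {p : Prop} {P : (Fin n → F) → Prop} (h : p → ∃ ν, P ν) : ∃ ν, p → P ν := by
  by_cases hp : p
  · obtain ⟨ν, hν⟩ := h hp
    exact ⟨ν, fun _ => hν⟩
  · exact ⟨0, fun h => absurd h hp⟩

/-- the gluing step, existence form -/
theorem stepG [CharZero F] {W : Submodule F (Fin n → F)} {v : Fin n → F}
    {g : List (Fin n → F)} {𝓛 : List (List (Fin n → F))} (hci : CI W ((v :: g) :: 𝓛))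
    {m j : ℕ} (hm : 1 ≤ m)
    (G1 : 1 ≤ j → EX (J W (g :: 𝓛)) m (j - 1))
    (G2 : EX (J W (g :: 𝓛)) (m - 1) j)
    (G3 : 1 ≤ j → EX (J W (g :: 𝓛)) (m + 1) (j - 1))
    (G4 : g.length ≤ j → EX (J (W ⊔ Submodule.span F {v}) 𝓛) m (j - g.length))
    (G5 : EK (J (W ⊔ Submodule.span F {v}) 𝓛) m j) :
    EX (J W ((v :: g) :: 𝓛)) m j := by
  have : Infinite F := CharZero.infinite F
  have O1 := Op_imp (1 ≤ j) (Op_LI (J W (g :: 𝓛)) m (j - 1))
  have O2 := Op_LI (J W (g :: 𝓛)) (m - 1) j
  have O3 := Op_imp (1 ≤ j) (Op_LI (J W (g :: 𝓛)) (m + 1) (j - 1))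
  have O4 := Op_imp (g.length ≤ j) (Op_LI (J (W ⊔ Submodule.span F {v}) 𝓛) m (j - g.length))
  have O5 := Op_KD (J (W ⊔ Submodule.span F {v}) 𝓛) m j
  have E4 := O4.common O5 (ex_imp G4) G5
  have E3 := O3.common (O4.and O5) (ex_imp G3) E4
  have E2 := O2.common (O3.and (O4.and O5)) G2 E3
  obtain ⟨ν, h1, h2, h3, h4, h5⟩ := O1.common (O2.and (O3.and (O4.and O5))) (ex_imp G1) E2
  have h := (engineG hci hm h1 h2 h3 h4 h5).finite_bad
  obtain ⟨s, hs⟩ := h.infinite_compl.nonempty
  rw [Set.mem_compl_iff, Set.mem_ofPred_eq, not_not] at hs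
  exact ⟨_, hs⟩

/-- the peeling step for kernels -/
theorem stepK [Infinite F] {W : Submodule F (Fin n → F)} {v : Fin n → F}
    {g : List (Fin n → F)} {𝓛 : List (List (Fin n → F))} (hci : CI W ((v :: g) :: 𝓛))
    {m j : ℕ}
    (G1 : 1 ≤ j → EX (J W (g :: 𝓛)) m (j - 1))
    (G5 : EK (J (W ⊔ Submodule.span F {v}) 𝓛) m j) :
    EK (J W ((v :: g) :: 𝓛)) m j := by
  obtain ⟨ν, h1, h2⟩ := (Op_imp (1 ≤ j) (Op_LI (J W (g :: 𝓛)) m (j - 1))).common
    (Op_KD (J (W ⊔ Submodule.span F {v}) 𝓛) m j) (ex_imp G1) G5
  refine ⟨ν, ?_⟩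
  intro p q hp hq hpm hqm
  obtain ⟨a, b, hab, h3⟩ := h2 p q hp hq (J_cons_le_sup hpm) (J_cons_le_sup hqm)
  refine ⟨a, b, hab, ?_⟩
  have hr : (C a * p + C b * q).IsHomogeneous j := by
    have e1 := (isHomogeneous_C (Fin n) a).mul hp
    have e2 := (isHomogeneous_C (Fin n) b).mul hq
    rw [zero_add] at e1 e2
    exact e1.add e2
  have hrm : lin ν ^ m * (C a * p + C b * q) ∈ J W ((v :: g) :: 𝓛) := by
    have := add_mem (Ideal.mul_mem_left _ (C a) hpm) (Ideal.mul_mem_left _ (C b) hqm)
    convert this using 1
    ring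
  by_cases hj : 1 ≤ j
  · obtain ⟨r, hr1, hr2⟩ := sup_hom hr h3 hj
    have h4 : lin v * (lin ν ^ m * r) ∈ J W ((v :: g) :: 𝓛) := by
      have := sub_mem hrm (Ideal.mul_mem_left _ (lin ν ^ m) (J_mono_cons hr2))
      convert this using 1
      ring
    rw [colon_lin hci.1.tail hci.2.1] at h4
    have h5 := h1 hj r hr1 h4
    rw [← colon_lin hci.1.tail hci.2.1] at h5
    have := add_mem (J_mono_cons hr2) h5
    rwa [sub_add_cancel] at this
  · have hj0 : j = 0 := by omega
    subst hj0
    exact J_mono_cons (sup_hom_zero hr h3)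

section one

lemma eq_top_of_sup {W : Submodule F (Fin n → F)} {ν : Fin n → F}
    (hW : Module.finrank F W + 1 = n) (hν : ν ∉ W) : W ⊔ Submodule.span F {ν} = ⊤ :=
  Submodule.eq_top_of_finrank_eq (by rw [finrank_sup hν, hW]; simp)

lemma exists_notMem {W : Submodule F (Fin n → F)} (hW : Module.finrank F W < n) :
    ∃ ν, ν ∉ W := by
  by_contra hcon
  push Not at hcon
  have : W = ⊤ := by
    rw [eq_top_iff]
    intro x _
    exact hcon x
  rw [this, finrank_top] at hW
  simp at hW

lemma rep_one {W : Submodule F (Fin n → F)} {ν : Fin n → F}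
    (hW : Module.finrank F W + 1 = n) (hν : ν ∉ W) : ∀ (j : ℕ) {p : MvPolynomial (Fin n) F},
    p.IsHomogeneous j → ∃ c : F, p - C c * lin ν ^ j ∈ J W [] := by
  intro j
  induction j with
  | zero =>
    intro p hp
    obtain ⟨c, hc⟩ : ∃ c : F, p = C c :=
      ⟨_, (totalDegree_eq_zero_iff_eq_C).1 ((totalDegree_zero_iff_isHomogeneous _).2 hp)⟩
    exact ⟨c, by simp [hc]⟩
  | succ j ih =>
    intro p hp
    have h1 : p ∈ J (W ⊔ Submodule.span F {ν}) [] :=
      mem_top_of_pos hp (by omega) (by rw [finrank_sup hν, hW])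
    obtain ⟨a, ha, hpa⟩ := sup_hom hp h1 (by omega)
    obtain ⟨c, hc⟩ := ih (p := a) (by simpa using ha)
    refine ⟨c, ?_⟩
    have := add_mem hpa (Ideal.mul_mem_left _ (lin ν) hc)
    convert this using 1
    ring

lemma one_EK {W : Submodule F (Fin n → F)} {𝓛 : List (List (Fin n → F))}
    (hW : Module.finrank F W + 1 = n) (m j : ℕ) : EK (J W 𝓛) m j := by
  obtain ⟨ν, hν⟩ := exists_notMem (W := W) (by omega)
  refine ⟨ν, ?_⟩
  intro p q hp hq _ _
  obtain ⟨c, hc⟩ := rep_one hW hν j hp
  obtain ⟨d, hd⟩ := rep_one hW hν j hq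
  have hle : J W [] ≤ J W 𝓛 := by
    rw [J_nil, J]
    exact le_sup_left
  by_cases h0 : c = 0 ∧ d = 0
  · refine ⟨1, 0, Or.inl one_ne_zero, ?_⟩
    rw [h0.1] at hc
    simpa using hle hc
  · refine ⟨d, -c, ?_, ?_⟩
    · rw [not_and_or] at h0
      rcases h0 with h | h
      · right; simpa using h
      · left; exact h
    · have := hle (sub_mem (Ideal.mul_mem_left _ (C d) hc) (Ideal.mul_mem_left _ (C c) hd))
      convert this using 1
      rw [map_neg]
      ring

lemma kill_of {W : Submodule F (Fin n → F)} {𝓛 : List (List (Fin n → F))} (hci : CI W 𝓛)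
    {S : Set (Fin n → F)} (hS : W ⊔ Submodule.span F S = ⊤) {p : MvPolynomial (Fin n) F} {j : ℕ}
    (hp : p.IsHomogeneous j) (hj : j ≠ sg 𝓛) (h : ∀ s ∈ S, lin s * p ∈ J W 𝓛) :
    p ∈ J W 𝓛 := by
  apply soc hci hp hj
  let N : Submodule F (Fin n → F) :=
    { carrier := {v | lin v * p ∈ J W 𝓛}
      zero_mem' := by
        change lin 0 * p ∈ J W 𝓛
        simp
      add_mem' := by
        intro a b ha hb
        change lin (a + b) * p ∈ J W 𝓛
        rw [map_add, add_mul]
        exact add_mem ha hb
      smul_mem' := by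
        intro c a ha
        change lin (c • a) * p ∈ J W 𝓛
        rw [map_smul, smul_eq_C_mul, mul_assoc]
        exact Ideal.mul_mem_left _ _ ha }
  have hN : N = ⊤ := by
    rw [eq_top_iff, ← hS, sup_le_iff, Submodule.span_le]
    exact ⟨fun w hw => Ideal.mul_mem_right _ _ (lin_mem_J hw), h⟩
  intro v
  have : v ∈ N := by rw [hN]; trivial
  exact this

lemma one_LI {W : Submodule F (Fin n → F)} {𝓛 : List (List (Fin n → F))}
    (hW : Module.finrank F W + 1 = n) (hci : CI W 𝓛) {ν : Fin n → F} (hν : ν ∉ W) :
    ∀ {m j : ℕ}, j + m ≤ sg 𝓛 → LI (J W 𝓛) ν m j := by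
  intro m
  induction m with
  | zero => intro j _; exact LI.zero _ _ _
  | succ m ih =>
    intro j hj
    rw [add_comm m 1]
    refine LI.comp ?_ (ih (j := j + 1) (by omega))
    intro p hp hmem
    rw [pow_one] at hmem
    apply kill_of hci (S := {ν}) (eq_top_of_sup hW hν) hp (by omega)
    rintro s rfl
    exact hmem

lemma one_EX {W : Submodule F (Fin n → F)} {𝓛 : List (List (Fin n → F))}
    (hW : Module.finrank F W + 1 = n) (hci : CI W 𝓛) {m j : ℕ} (h : j + m ≤ sg 𝓛) :
    EX (J W 𝓛) m j := by
  obtain ⟨ν, hν⟩ := exists_notMem (W := W) (by omega)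
  exact ⟨ν, one_LI hW hci hν h⟩

end one

section two

theorem two_aux [CharZero F] : ∀ (N : ℕ) (𝓛 : List (List (Fin n → F))), len 𝓛 ≤ N →
    ∀ (W : Submodule F (Fin n → F)), Module.finrank F W + 2 = n → CI W 𝓛 →
    ∀ m j, 2 * j + m ≤ sg 𝓛 → EX (J W 𝓛) m j := by
  intro N
  induction N with
  | zero =>
    intro 𝓛 hlen W hW hci m j hmj
    exfalso
    cases 𝓛 with
    | nil =>
      have := hci.2.2
      simp at this
      omega
    | cons l 𝓛 =>
      rw [len_cons] at hlen
      exact hci.1 l List.mem_cons_self (List.length_eq_zero_iff.1 (by omega))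
  | succ N ih =>
    intro 𝓛 hlen W hW hci m j hmj
    cases 𝓛 with
    | nil =>
      exfalso
      have := hci.2.2
      simp at this
      omega
    | cons l 𝓛 =>
      cases l with
      | nil => exact absurd rfl (hci.1 [] List.mem_cons_self)
      | cons v g =>
        rw [len_cons, List.length_cons] at hlen
        rw [sg_cons, List.length_cons] at hmj
        have hW'' : Module.finrank F ↥(W ⊔ Submodule.span F {v}) + 1 = n := by
          rw [finrank_sup hci.2.1.head.1]; omega
        by_cases hg : g = []
        · subst hg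
          rw [J_singleton_cons]
          exact one_EX hW'' hci.sup (by simp at hmj; omega)
        · have hgl : 1 ≤ g.length := List.length_pos_iff.2 hg
          have hci' := hci.tail_list hg
          have hs' : sg (g :: 𝓛) = g.length - 1 + sg 𝓛 := sg_cons _ _
          have hlen' : len (g :: 𝓛) ≤ N := by rw [len_cons]; omega
          by_cases hm : m = 0
          · subst hm; exact EX.zero _ _
          · apply stepG hci (by omega)
            · intro hj
              exact ih _ hlen' W hW hci' _ _ (by omega)
            · exact ih _ hlen' W hW hci' _ _ (by omega)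
            · intro hj
              exact ih _ hlen' W hW hci' _ _ (by omega)
            · intro hj
              exact one_EX hW'' hci.sup (by omega)
            · exact one_EK hW'' _ _

theorem two_EX [CharZero F] {𝓛 : List (List (Fin n → F))} {W : Submodule F (Fin n → F)}
    (hW : Module.finrank F W + 2 = n) (hci : CI W 𝓛) {m j : ℕ} (h : 2 * j + m ≤ sg 𝓛) :
    EX (J W 𝓛) m j := two_aux _ 𝓛 le_rfl W hW hci m j h

theorem two_EK [CharZero F] {𝓛 : List (List (Fin n → F))} {W : Submodule F (Fin n → F)}
    (hW : Module.finrank F W + 2 = n) (hci : CI W 𝓛) {m j : ℕ} (h : 2 * j + m ≤ sg 𝓛 + 1) :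
    EK (J W 𝓛) m j := by
  have : Infinite F := CharZero.infinite F
  cases 𝓛 with
  | nil =>
    exfalso
    have := hci.2.2
    simp at this
    omega
  | cons l 𝓛 =>
    cases l with
    | nil => exact absurd rfl (hci.1 [] List.mem_cons_self)
    | cons v g =>
      rw [sg_cons, List.length_cons] at h
      have hW'' : Module.finrank F ↥(W ⊔ Submodule.span F {v}) + 1 = n := by
        rw [finrank_sup hci.2.1.head.1]; omega
      by_cases hg : g = []
      · subst hg
        rw [J_singleton_cons]
        exact one_EK hW'' _ _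
      · have hgl : 1 ≤ g.length := List.length_pos_iff.2 hg
        apply stepK hci
        · intro hj
          apply two_EX hW (hci.tail_list hg)
          rw [sg_cons]
          omega
        · exact one_EK hW'' _ _

/-- in two variables the kernel of a linear form is at most one-dimensional -/
theorem two_EK1 {𝓛 : List (List (Fin n → F))} {W : Submodule F (Fin n → F)}
    (hW : Module.finrank F W + 2 = n) (hci : CI W 𝓛) (j : ℕ) : EK (J W 𝓛) 1 j := by
  obtain ⟨ν, hν⟩ := exists_notMem (W := W) (by omega)
  have hW1 : Module.finrank F ↥(W ⊔ Submodule.span F {ν}) + 1 = n := by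
    rw [finrank_sup hν]; omega
  obtain ⟨y, hy⟩ := exists_notMem (W := W ⊔ Submodule.span F {ν}) (by omega)
  have hS : W ⊔ Submodule.span F {ν, y} = ⊤ := by
    rw [Submodule.span_insert, ← sup_assoc]
    exact eq_top_of_sup hW1 hy
  refine ⟨ν, ?_⟩
  intro p q hp hq hpm hqm
  rw [pow_one] at hpm hqm
  by_cases hj : sg 𝓛 < j
  · exact ⟨1, 0, Or.inl one_ne_zero, by simpa using top_vanish hci hp hj⟩
  · obtain ⟨e, he, hed⟩ := top_dim hci
    have hyh : ∀ r : MvPolynomial (Fin n) F, r.IsHomogeneous j →
        (lin y ^ (sg 𝓛 - j) * r).IsHomogeneous (sg 𝓛) := by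
      intro r hr
      have := ((lin_isHomogeneous y).pow (sg 𝓛 - j)).mul hr
      rwa [one_mul, Nat.sub_add_cancel (by omega)] at this
    obtain ⟨c, hc⟩ := hed _ (hyh p hp)
    obtain ⟨d, hd⟩ := hed _ (hyh q hq)
    -- a combination killed by `y ^ (sg - j)`
    have main : ∀ r : MvPolynomial (Fin n) F, r.IsHomogeneous j → lin ν * r ∈ J W 𝓛 →
        lin y ^ (sg 𝓛 - j) * r ∈ J W 𝓛 → r ∈ J W 𝓛 := by
      intro r hr hνr hyr
      have step : ∀ i, i ≤ sg 𝓛 - j → lin y ^ i * r ∈ J W 𝓛 → r ∈ J W 𝓛 := by
        intro i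
        induction i with
        | zero => intro _ h; simpa using h
        | succ i ih =>
          intro hi h
          apply ih (by omega)
          have hh : (lin y ^ i * r).IsHomogeneous (j + i) := by
            have := ((lin_isHomogeneous y).pow i).mul hr
            rwa [one_mul, add_comm] at this
          apply kill_of hci hS hh (by omega)
          intro s hs
          rcases hs with rfl | hs
          · rw [mul_left_comm]
            exact Ideal.mul_mem_left _ _ hνr
          · rw [Set.mem_singleton_iff] at hs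
            subst hs
            rw [← mul_assoc, ← pow_succ']
            exact h
      exact step _ le_rfl hyr
    by_cases h0 : c = 0 ∧ d = 0
    · refine ⟨1, 0, Or.inl one_ne_zero, ?_⟩
      rw [h0.1] at hc
      simp only [map_zero, zero_mul, sub_zero] at hc
      simpa using main p hp hpm hc
    · refine ⟨d, -c, ?_, ?_⟩
      · rw [not_and_or] at h0
        rcases h0 with h | h
        · right; simpa using h
        · left; exact h
      · apply main
        · have e1 := (isHomogeneous_C (Fin n) d).mul hp
          have e2 := (isHomogeneous_C (Fin n) (-c)).mul hq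
          rw [zero_add] at e1 e2
          exact e1.add e2
        · have := add_mem (Ideal.mul_mem_left _ (C d) hpm) (Ideal.mul_mem_left _ (C (-c)) hqm)
          convert this using 1
          ring
        · have := sub_mem (Ideal.mul_mem_left _ (C d) hc) (Ideal.mul_mem_left _ (C c) hd)
          convert this using 1
          rw [map_neg]
          ring

end two

section three

/-- three essential variables: WLP, squares in the middle, kernel in the middle -/
theorem three_aux [CharZero F] : ∀ (N : ℕ) (𝓛 : List (List (Fin n → F))), len 𝓛 ≤ N →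
    ∀ (W : Submodule F (Fin n → F)), Module.finrank F W + 3 = n → CI W 𝓛 →
    (∀ j, 2 * j + 1 ≤ sg 𝓛 → EX (J W 𝓛) 1 j) ∧
    (∀ j, 2 * j = sg 𝓛 → EK (J W 𝓛) 1 j) := by
  have : Infinite F := CharZero.infinite F
  intro N
  induction N with
  | zero =>
    intro 𝓛 hlen W hW hci
    exfalso
    cases 𝓛 with
    | nil =>
      have := hci.2.2
      simp at this
      omega
    | cons l 𝓛 =>
      rw [len_cons] at hlen
      exact hci.1 l List.mem_cons_self (List.length_eq_zero_iff.1 (by omega))
  | succ N ih =>
    intro 𝓛 hlen W hW hci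
    cases 𝓛 with
    | nil =>
      exfalso
      have := hci.2.2
      simp at this
      omega
    | cons l 𝓛 =>
      cases l with
      | nil => exact absurd rfl (hci.1 [] List.mem_cons_self)
      | cons v g =>
        rw [len_cons, List.length_cons] at hlen
        rw [sg_cons, List.length_cons]
        have hW'' : Module.finrank F ↥(W ⊔ Submodule.span F {v}) + 2 = n := by
          rw [finrank_sup hci.2.1.head.1]; omega
        by_cases hg : g = []
        · subst hg
          rw [J_singleton_cons]
          constructor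
          · intro j hj
            exact two_EX hW'' hci.sup (by simp at hj; omega)
          · intro j hj
            exact two_EK1 hW'' hci.sup _
        · have hgl : 1 ≤ g.length := List.length_pos_iff.2 hg
          have hci' := hci.tail_list hg
          have hs' : sg (g :: 𝓛) = g.length - 1 + sg 𝓛 := sg_cons _ _
          have hlen' : len (g :: 𝓛) ≤ N := by rw [len_cons]; omega
          obtain ⟨ih1, ih2⟩ := ih _ hlen' W hW hci'
          constructor
          · intro j hj
            apply stepG hci le_rfl
            · intro _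
              exact ih1 _ (by omega)
            · exact EX.zero _ _
            · intro hj1
              -- `μ ^ 2` in degree `j - 1` on the first piece
              by_cases hcase : 2 * j + 1 ≤ sg (g :: 𝓛)
              · have e1 : EX (J W (g :: 𝓛)) 1 (j - 1) := ih1 _ (by omega)
                have e2 : EX (J W (g :: 𝓛)) 1 (j - 1 + 1) := by
                  rw [Nat.sub_add_cancel hj1]
                  exact ih1 _ hcase
                exact e1.comp e2
              · obtain ⟨e, rfl⟩ : ∃ e, j = e + 1 := ⟨j - 1, by omega⟩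
                rw [Nat.add_sub_cancel]
                exact engineD hci' le_rfl (by omega) (ih1 e (by omega)) (ih2 (e + 1) (by omega))
            · intro _
              exact two_EX hW'' hci.sup (by omega)
            · exact two_EK1 hW'' hci.sup _
          · intro j hj
            apply stepK hci
            · intro _
              exact ih1 _ (by omega)
            · exact two_EK1 hW'' hci.sup _

theorem three_EX [CharZero F] {𝓛 : List (List (Fin n → F))} {W : Submodule F (Fin n → F)}
    (hW : Module.finrank F W + 3 = n) (hci : CI W 𝓛) {j : ℕ} (h : 2 * j + 1 ≤ sg 𝓛) :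
    EX (J W 𝓛) 1 j := (three_aux _ 𝓛 le_rfl W hW hci).1 j h

theorem three_EK [CharZero F] {𝓛 : List (List (Fin n → F))} {W : Submodule F (Fin n → F)}
    (hW : Module.finrank F W + 3 = n) (hci : CI W 𝓛) {j : ℕ} (h : 2 * j ≤ sg 𝓛) :
    EK (J W 𝓛) 1 j := by
  by_cases h1 : 2 * j = sg 𝓛
  · exact (three_aux _ 𝓛 le_rfl W hW hci).2 j h1
  · exact (three_EX hW hci (by omega)).ek

/-- in three variables squares of linear forms have the expected rank -/
theorem three_EX2 [CharZero F] {𝓛 : List (List (Fin n → F))} {W : Submodule F (Fin n → F)}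
    (hW : Module.finrank F W + 3 = n) (hci : CI W 𝓛) {j : ℕ} (h : 2 * j + 2 ≤ sg 𝓛) :
    EX (J W 𝓛) 2 j := by
  have : Infinite F := CharZero.infinite F
  by_cases h1 : 2 * j + 2 = sg 𝓛
  · exact engineD hci le_rfl (by omega) (three_EX hW hci (by omega))
      (three_EK hW hci (by omega))
  · have e1 : EX (J W 𝓛) 1 j := three_EX hW hci (by omega)
    have e2 : EX (J W 𝓛) 1 (j + 1) := three_EX hW hci (by omega)
    have e3 : EX (J W 𝓛) (1 + 1) j := e1.comp e2
    rwa [show 1 + 1 = 2 from rfl] at e3

/-- three variables, one quadric: SLP -/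
theorem three_slp [CharZero F] {𝓛 : List (List (Fin n → F))} {W : Submodule F (Fin n → F)}
    (hW : Module.finrank F W + 3 = n) {l : List (Fin n → F)} (hl : l.length ≤ 2)
    (hci : CI W (l :: 𝓛)) {m j : ℕ} (h : 2 * j + m ≤ sg (l :: 𝓛)) :
    EX (J W (l :: 𝓛)) m j := by
  have : Infinite F := CharZero.infinite F
  cases l with
  | nil => exact absurd rfl (hci.1 [] List.mem_cons_self)
  | cons v g =>
    rw [sg_cons, List.length_cons] at h
    rw [List.length_cons] at hl
    have hW'' : Module.finrank F ↥(W ⊔ Submodule.span F {v}) + 2 = n := by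
      rw [finrank_sup hci.2.1.head.1]; omega
    by_cases hg : g = []
    · subst hg
      rw [J_singleton_cons]
      exact two_EX hW'' hci.sup (by simp at h; omega)
    · obtain ⟨w, rfl⟩ : ∃ w, g = [w] := by
        apply List.length_eq_one_iff.1
        have := List.length_pos_iff.2 hg
        omega
      have hci' := hci.tail_list hg
      have hs' : CI (W ⊔ Submodule.span F {w}) 𝓛 := CI.sup hci'
      have hW' : Module.finrank F ↥(W ⊔ Submodule.span F {w}) + 2 = n := by
        rw [finrank_sup hci'.2.1.head.1]; omega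
      simp only [List.length_cons, List.length_nil, zero_add, Nat.add_sub_cancel] at h
      by_cases hm : m = 0
      · subst hm; exact EX.zero _ _
      · apply stepG hci (by omega)
        · intro hj
          rw [J_singleton_cons]
          exact two_EX hW' hs' (by omega)
        · rw [J_singleton_cons]
          exact two_EX hW' hs' (by omega)
        · intro hj
          rw [J_singleton_cons]
          exact two_EX hW' hs' (by omega)
        · intro hj
          rw [List.length_singleton] at hj ⊢
          exact two_EX hW'' hci.sup (by omega)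
        · exact two_EK hW'' hci.sup (by omega)

end three

section four

/-- four variables, one quadric: WLP -/
theorem four_quadric [CharZero F] {𝓛 : List (List (Fin n → F))} {W : Submodule F (Fin n → F)}
    (hW : Module.finrank F W + 4 = n) {l : List (Fin n → F)} (hl : l.length ≤ 2)
    (hci : CI W (l :: 𝓛)) {j : ℕ} (h : 2 * j + 1 ≤ sg (l :: 𝓛)) :
    EX (J W (l :: 𝓛)) 1 j := by
  have : Infinite F := CharZero.infinite F
  cases l with
  | nil => exact absurd rfl (hci.1 [] List.mem_cons_self)
  | cons v g =>
    rw [sg_cons, List.length_cons] at h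
    rw [List.length_cons] at hl
    have hW'' : Module.finrank F ↥(W ⊔ Submodule.span F {v}) + 3 = n := by
      rw [finrank_sup hci.2.1.head.1]; omega
    by_cases hg : g = []
    · subst hg
      rw [J_singleton_cons]
      exact three_EX hW'' hci.sup (by simp at h; omega)
    · obtain ⟨w, rfl⟩ : ∃ w, g = [w] := by
        apply List.length_eq_one_iff.1
        have := List.length_pos_iff.2 hg
        omega
      have hci' := hci.tail_list hg
      have hs' : CI (W ⊔ Submodule.span F {w}) 𝓛 := CI.sup hci'
      have hW' : Module.finrank F ↥(W ⊔ Submodule.span F {w}) + 3 = n := by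
        rw [finrank_sup hci'.2.1.head.1]; omega
      simp only [List.length_cons, List.length_nil, zero_add, Nat.add_sub_cancel] at h
      apply stepG hci le_rfl
      · intro hj
        rw [J_singleton_cons]
        exact three_EX hW' hs' (by omega)
      · exact EX.zero _ _
      · intro hj
        rw [J_singleton_cons]
        exact three_EX2 hW' hs' (by omega)
      · intro hj
        rw [List.length_singleton] at hj ⊢
        exact three_EX hW'' hci.sup (by omega)
      · exact three_EK hW'' hci.sup (by omega)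

/-- four variables, one cubic and even socle degree: WLP -/
theorem four_cubic [CharZero F] {𝓛 : List (List (Fin n → F))} {W : Submodule F (Fin n → F)}
    (hW : Module.finrank F W + 4 = n) {l : List (Fin n → F)} (hl : l.length = 3)
    (hci : CI W (l :: 𝓛)) (hev : Even (sg (l :: 𝓛))) {j : ℕ} (h : 2 * j + 1 ≤ sg (l :: 𝓛)) :
    EX (J W (l :: 𝓛)) 1 j := by
  have : Infinite F := CharZero.infinite F
  obtain ⟨k, hk⟩ := hev
  -- it suffices to treat the middle degree
  suffices hmid : EX (J W (l :: 𝓛)) 1 (k - 1) from
    hmid.down hci (by omega) (by omega)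
  cases l with
  | nil => simp at hl
  | cons v g =>
    rw [sg_cons, List.length_cons] at h hk
    rw [List.length_cons] at hl
    have hg2 : g.length = 2 := by omega
    have hg : g ≠ [] := by
      intro h0
      rw [h0] at hg2
      simp at hg2
    have hW'' : Module.finrank F ↥(W ⊔ Submodule.span F {v}) + 3 = n := by
      rw [finrank_sup hci.2.1.head.1]; omega
    have hci' := hci.tail_list hg
    have hs' : sg (g :: 𝓛) = g.length - 1 + sg 𝓛 := sg_cons _ _
    apply stepG hci le_rfl
    · intro hj
      exact four_quadric hW (by omega) hci' (by omega)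
    · exact EX.zero _ _
    · intro hj
      have e1 : EX (J W (g :: 𝓛)) 1 (k - 1 - 1) := four_quadric hW (by omega) hci' (by omega)
      have e2 : EX (J W (g :: 𝓛)) 1 (k - 1 - 1 + 1) :=
        four_quadric hW (by omega) hci' (by omega)
      exact e1.comp e2
    · intro hj
      exact three_EX hW'' hci.sup (by omega)
    · exact three_EK hW'' hci.sup (by omega)

end four

end Pool.Agent.LefProd
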